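import Pool.Agent.Lib_helper59.STH.Defs
import Pool.Agent.Lib_helper15.STE.B.sigA

/-! # STH, block xxB -/

open MeasureTheory Filter Topology
open Pool.Agent.Lib_helper15.STE

namespace STH

/-- the determinant of three vectors -/
def xxB_D (a b c : E3) : ℝ :=
  a 0 * (b 1 * c 2 - b 2 * c 1) - a 1 * (b 0 * c 2 - b 2 * c 0) + a 2 * (b 0 * c 1 - b 1 * c 0)

theorem xxB_inner (a b : E3) : inner ℝ a b = a 0 * b 0 + a 1 * b 1 + a 2 * b 2 := by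
  rw [PiLp.inner_apply, Fin.sum_univ_three]
  simp [mul_comm]

theorem xxB_cr (a b c : E3) : inner ℝ (cr a b) c = xxB_D a b c := by
  rw [xxB_inner]
  unfold xxB_D
  have h0 : cr a b 0 = a 1 * b 2 - a 2 * b 1 := rfl
  have h1 : cr a b 1 = a 2 * b 0 - a 0 * b 2 := rfl
  have h2 : cr a b 2 = a 0 * b 1 - a 1 * b 0 := rfl
  rw [h0, h1, h2]
  ring

theorem xxB_dec (x : E3) : x = x 0 • e 0 + x 1 • e 1 + x 2 • e 2 := by
  ext i
  fin_cases i <;> simp [e]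

theorem xxB_map (g : E3 ≃ₗᵢ[ℝ] E3) (x : E3) (i : Fin 3) :
    g x i = x 0 * g (e 0) i + x 1 * g (e 1) i + x 2 * g (e 2) i := by
  conv_lhs => rw [xxB_dec x]
  simp

theorem xxB_Dmap (g : E3 ≃ₗᵢ[ℝ] E3) (a b c : E3) :
    xxB_D (g a) (g b) (g c) = xxB_D (g (e 0)) (g (e 1)) (g (e 2)) * xxB_D a b c := by
  unfold xxB_D
  rw [xxB_map g a 0, xxB_map g a 1, xxB_map g a 2, xxB_map g b 0, xxB_map g b 1, xxB_map g b 2,
    xxB_map g c 0, xxB_map g c 1, xxB_map g c 2]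
  ring

theorem xxB_Dsq (g : E3 ≃ₗᵢ[ℝ] E3) : xxB_D (g (e 0)) (g (e 1)) (g (e 2)) ^ 2 = 1 := by
  have h00 : inner ℝ (g (e 0)) (g (e 0)) = 1 := by
    rw [LinearIsometryEquiv.inner_map_map, xxB_inner]; simp [e]
  have h11 : inner ℝ (g (e 1)) (g (e 1)) = 1 := by
    rw [LinearIsometryEquiv.inner_map_map, xxB_inner]; simp [e]
  have h22 : inner ℝ (g (e 2)) (g (e 2)) = 1 := by
    rw [LinearIsometryEquiv.inner_map_map, xxB_inner]; simp [e]
  have h01 : inner ℝ (g (e 0)) (g (e 1)) = 0 := by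
    rw [LinearIsometryEquiv.inner_map_map, xxB_inner]; simp [e]
  have h02 : inner ℝ (g (e 0)) (g (e 2)) = 0 := by
    rw [LinearIsometryEquiv.inner_map_map, xxB_inner]; simp [e]
  have h12 : inner ℝ (g (e 1)) (g (e 2)) = 0 := by
    rw [LinearIsometryEquiv.inner_map_map, xxB_inner]; simp [e]
  have key : ∀ a b c : E3, xxB_D a b c ^ 2 = inner ℝ a a * inner ℝ b b * inner ℝ c c +
      2 * (inner ℝ a b * inner ℝ b c * inner ℝ a c) - inner ℝ a a * inner ℝ b c ^ 2 -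
      inner ℝ b b * inner ℝ a c ^ 2 - inner ℝ c c * inner ℝ a b ^ 2 := by
    intro a b c
    rw [xxB_inner, xxB_inner, xxB_inner, xxB_inner, xxB_inner, xxB_inner]
    unfold xxB_D
    ring
  rw [key, h00, h11, h22, h01, h02, h12]
  norm_num

theorem xxB_crmap (g : E3 ≃ₗᵢ[ℝ] E3) (ν x : E3) :
    cr (g ν) (g x) = xxB_D (g (e 0)) (g (e 1)) (g (e 2)) • g (cr ν x) := by
  refine ext_inner_right ℝ fun z => ?_
  obtain ⟨w, rfl⟩ := g.surjective z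
  rw [inner_smul_left, LinearIsometryEquiv.inner_map_map, xxB_cr, xxB_cr, xxB_Dmap]
  simp

theorem XX_comp (g : E3 ≃ₗᵢ[ℝ] E3) : ∃ s : ℝ, s ^ 2 = 1 ∧ ∀ (F : E3 → ℝ) (x ν : E3),
    XX ν (F ∘ g) x = s * XX (g ν) F (g x) := by
  refine ⟨xxB_D (g (e 0)) (g (e 1)) (g (e 2)), xxB_Dsq g, fun F x ν => ?_⟩
  unfold XX
  have h1 : fderiv ℝ (F ∘ g) x = (fderiv ℝ F (g x)).comp (g.toContinuousLinearEquiv : E3 →L[ℝ] E3) :=
    g.toContinuousLinearEquiv.comp_right_fderiv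
  have h3 : (fderiv ℝ (F ∘ g) x) (cr ν x) = fderiv ℝ F (g x) (g (cr ν x)) := by
    rw [h1]
    rfl
  rw [h3, xxB_crmap, map_smul, smul_eq_mul, ← mul_assoc, ← sq, xxB_Dsq, one_mul]

theorem exists_iso (ν : E3) (hν : ‖ν‖ = 1) : ∃ g : E3 ≃ₗᵢ[ℝ] E3, g (e 2) = ν := by
  refine ⟨Submodule.reflection (ℝ ∙ (e 2 - ν))ᗮ, ?_⟩
  refine Submodule.reflection_sub ?_
  rw [hν]
  simp [e]

theorem AA_comp {n : ℕ} {h : E3 → ℝ} (hh : HH n h) (g : E3 ≃ₗᵢ[ℝ] E3) (ν : E3) :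
    AA n ν (h ∘ g) = AA n (g ν) h := by
  obtain ⟨s, hs, hX⟩ := XX_comp g
  have hip : ∀ p : E3 → ℝ, ip (p ∘ g) (p ∘ g) = ip p p := by
    intro p
    unfold ip
    have h1 : ∫ x, p x * p x ∂sig = ∫ x, p x * p x ∂(sig.map g) := by rw [sigA_map g]
    have h2 := g.toHomeomorph.measurableEmbedding.integral_map (μ := sig) (fun x => p x * p x)
    rw [h1]
    exact h2.symm
  unfold AA
  rw [hip h]
  have h2 : ip (XX ν (h ∘ g)) (XX ν (h ∘ g)) = ip (XX (g ν) h) (XX (g ν) h) := by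
    rw [← hip (XX (g ν) h)]
    unfold ip
    refine integral_congr_ae (Eventually.of_forall fun x => ?_)
    simp only [Function.comp_apply]
    rw [hX]
    linear_combination (XX (g ν) h (g x)) ^ 2 * hs
  rw [h2]
  rfl

end STH
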