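import Pool.Agent.Lib_helper59.STH.Defs
import Pool.Agent.Lib_helper59.STHF.xxB
import Pool.Agent.Lib_helper15.STE.B.sigA
import Pool.Agent.Lib_helper15.STE.B.admA

/-! # STH, block haaB (helper13): averages over the orthogonal group -/

open MeasureTheory Filter Topology
open Pool.Agent.Lib_helper15.STE
open scoped InnerProductSpace

namespace STH

theorem haaB_refl (y z : E3) (h : ‖y‖ = ‖z‖) : ∃ k : E3 ≃ₗᵢ[ℝ] E3, k y = z ∧
    ∀ x : E3, ⟪y - z, x⟫_ℝ = 0 → k x = x := by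
  refine ⟨Submodule.reflection (Submodule.span ℝ {y - z})ᗮ, Submodule.reflection_sub h, ?_⟩
  intro x hx
  refine Submodule.reflection_mem_subspace_eq_self ?_
  rw [Submodule.mem_orthogonal_singleton_iff_inner_right]
  exact hx

theorem haaB_meas {Γ : Type} [MeasurableSpace Γ] {H : Measure Γ} {γ : Γ → (E3 ≃ₗᵢ[ℝ] E3)}
    (hH : Haar H γ) (y : E3) : Measurable (fun g => γ g y) :=
  hH.meas.comp (measurable_id.prodMk measurable_const)

theorem haaB_meas2 {Γ : Type} [MeasurableSpace Γ] {H : Measure Γ} {γ : Γ → (E3 ≃ₗᵢ[ℝ] E3)}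
    (hH : Haar H γ) (y z : E3) : Measurable (fun g => (γ g y, γ g z)) :=
  (haaB_meas hH y).prodMk (haaB_meas hH z)

theorem haaB_indep {Γ : Type} [MeasurableSpace Γ] {H : Measure Γ} {γ : Γ → (E3 ≃ₗᵢ[ℝ] E3)}
    (hH : Haar H γ) (y z : E3) (hy : ‖y‖ = 1) (hz : ‖z‖ = 1) :
    H.map (fun g => γ g y) = H.map (fun g => γ g z) := by
  obtain ⟨k, hk, -⟩ := haaB_refl y z (hy.trans hz.symm)
  have h1 := hH.inv k y y
  have h2 : (H.map (fun g => (γ g y, γ g y))).map Prod.fst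
      = (H.map (fun g => (γ g (k y), γ g (k y)))).map Prod.fst := by rw [h1]
  rw [Measure.map_map measurable_fst (haaB_meas2 hH y y),
    Measure.map_map measurable_fst (haaB_meas2 hH (k y) (k y)), hk] at h2
  exact h2

theorem avg_point {Γ : Type} [MeasurableSpace Γ] {H : Measure Γ} {γ : Γ → (E3 ≃ₗᵢ[ℝ] E3)}
    (hH : Haar H γ) (x : E3) (hx : ‖x‖ = 1) : H.map (fun g => γ g x) = sig := by
  have := hH.prob
  have := sigA_prob
  ext s hs
  have h1 : ∫⁻ y, H.map (fun g => γ g y) s ∂sig = H.map (fun g => γ g x) s := by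
    have h : ∀ᵐ y ∂sig, H.map (fun g => γ g y) s = H.map (fun g => γ g x) s := by
      filter_upwards [sigA_sphere] with y hy
      rw [haaB_indep hH y x hy hx]
    rw [lintegral_congr_ae h, lintegral_const, measure_univ, mul_one]
  have h2 : ∀ y, H.map (fun g => γ g y) s = ∫⁻ g, s.indicator 1 (γ g y) ∂H := by
    intro y
    rw [Measure.map_apply (haaB_meas hH y) hs,
      ← lintegral_indicator_one ((haaB_meas hH y) hs)]
    rfl
  have h3 : ∀ g, ∫⁻ y, s.indicator (1 : E3 → ENNReal) (γ g y) ∂sig = sig s := by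
    intro g
    have hi : Measurable (s.indicator (1 : E3 → ENNReal)) := measurable_one.indicator hs
    rw [← lintegral_map hi (γ g).continuous.measurable, sigA_map,
      lintegral_indicator_one hs]
  rw [← h1]
  simp_rw [h2]
  rw [lintegral_lintegral_swap]
  · simp_rw [h3]
    rw [lintegral_const, measure_univ, mul_one]
  · have hi : Measurable (s.indicator (1 : E3 → ENNReal)) := measurable_one.indicator hs
    exact (hi.comp (hH.meas.comp measurable_swap)).aemeasurable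

theorem haaB_norm (L : E3 →L[ℝ] ℝ) : ‖L‖ ^ 2 = ∑ i, L (e i) ^ 2 := by
  have h := (EuclideanSpace.basisFun (Fin 3) ℝ).sum_sq_norm_inner_left
    ((InnerProductSpace.toDual ℝ E3).symm L)
  rw [LinearIsometryEquiv.norm_map] at h
  rw [← h]
  refine Finset.sum_congr rfl fun i _ => ?_
  rw [InnerProductSpace.toDual_symm_apply, EuclideanSpace.basisFun_apply, Real.norm_eq_abs,
    sq_abs]
  rfl

theorem haaB_expand (L : E3 →L[ℝ] ℝ) (z : E3) : L z = ∑ i, z i * L (e i) := by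
  have h : z = ∑ i, z i • (e i : E3) := by
    ext j
    simp [e, Fin.sum_univ_three]
    fin_cases j <;> simp
  conv_lhs => rw [h]
  rw [map_sum]
  refine Finset.sum_congr rfl fun i _ => ?_
  rw [map_smul, smul_eq_mul]

/-- homogeneous functions have radial derivative zero -/
theorem haaB_radial {F : E3 → ℝ} (hF : ∀ (x : E3) (r : ℝ), 0 < r → F (r • x) = F x) (y : E3) :
    fderiv ℝ F y y = 0 := by
  by_cases hd : DifferentiableAt ℝ F y
  · have h1 : HasDerivAt (fun t : ℝ => t • y) y 1 := by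
      simpa using (hasDerivAt_id (1:ℝ)).smul_const y
    have h2 : HasFDerivAt F (fderiv ℝ F y) ((1:ℝ) • y) := by
      rw [one_smul]
      exact hd.hasFDerivAt
    have h3 : HasDerivAt (fun t : ℝ => F (t • y)) (fderiv ℝ F y y) 1 :=
      h2.comp_hasDerivAt 1 h1
    have h4 : HasDerivAt (fun t : ℝ => F (t • y)) 0 1 := by
      refine (hasDerivAt_const (1:ℝ) (F y)).congr_of_eventuallyEq ?_
      filter_upwards [lt_mem_nhds (show (0:ℝ) < 1 by norm_num)] with t ht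
      exact hF y t ht
    exact h3.unique h4
  · rw [fderiv_zero_of_not_differentiableAt hd]
    rfl

theorem haaB_fderiv_comp (F : E3 → ℝ) (k : E3 ≃ₗᵢ[ℝ] E3) (x z : E3) :
    fderiv ℝ (F ∘ k) x z = fderiv ℝ F (k x) (k z) := by
  have h := k.toContinuousLinearEquiv.comp_right_fderiv (f := F) (x := x)
  have h2 := congrArg (fun L : E3 →L[ℝ] ℝ => L z) h
  exact h2

theorem haaB_norm_comp (F : E3 → ℝ) (k : E3 ≃ₗᵢ[ℝ] E3) (x : E3) :
    ‖fderiv ℝ (F ∘ k) x‖ = ‖fderiv ℝ F (k x)‖ := by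
  have h := k.toContinuousLinearEquiv.comp_right_fderiv (f := F) (x := x)
  have h2 : ‖fderiv ℝ (F ∘ k) x‖
      = ‖(fderiv ℝ F (k x)).comp (k : E3 →L[ℝ] E3)‖ := congrArg norm h
  rw [h2]
  exact ContinuousLinearMap.opNorm_comp_linearIsometryEquiv _ _

theorem haaB_normsq (x : E3) : ‖x‖ ^ 2 = x 0 ^ 2 + x 1 ^ 2 + x 2 ^ 2 := by
  rw [EuclideanSpace.norm_sq_eq, Fin.sum_univ_three]
  simp only [Real.norm_eq_abs, sq_abs]

/-- the pointwise identity -/
theorem haaB_ident {G : E3 → ℝ} (hG : ∀ (x : E3) (r : ℝ), 0 < r → G (r • x) = G x) (x : E3)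
    (hx : ‖x‖ = 1) :
    fderiv ℝ G x (cr (e 2) x) ^ 2 + fderiv ℝ G x (e 2 - x 2 • x) ^ 2
      = (1 - x 2 ^ 2) * ‖fderiv ℝ G x‖ ^ 2 := by
  have h0 := haaB_radial hG x
  have h1 : x 0 ^ 2 + x 1 ^ 2 + x 2 ^ 2 = 1 := by
    rw [← haaB_normsq, hx, one_pow]
  rw [haaB_expand, Fin.sum_univ_three] at h0
  have h2 : fderiv ℝ G x (e 2 - x 2 • x) = fderiv ℝ G x (e 2) := by
    rw [map_sub, map_smul, haaB_radial hG x, smul_zero, sub_zero]
  rw [h2, haaB_norm, Fin.sum_univ_three, haaB_expand _ (cr (e 2) x), Fin.sum_univ_three]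
  have e0 : cr (e 2) x 0 = - x 1 := by simp [cr, e]
  have e1 : cr (e 2) x 1 = x 0 := by simp [cr, e]
  have e2 : cr (e 2) x 2 = 0 := by simp [cr, e]
  rw [e0, e1, e2]
  set b0 := fderiv ℝ G x (e 0)
  set b1 := fderiv ℝ G x (e 1)
  set b2 := fderiv ℝ G x (e 2)
  linear_combination (b0 ^ 2 + b1 ^ 2) * h1 - (x 0 * b0 + x 1 * b1 - x 2 * b2) * h0

theorem haaB_measPhi (F : E3 → ℝ) :
    Measurable (fun p : E3 × E3 => fderiv ℝ F p.1 p.2 ^ 2) := by
  have h : (fun p : E3 × E3 => fderiv ℝ F p.1 p.2 ^ 2)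
      = fun p : E3 × E3 => (∑ i, p.2 i * fderiv ℝ F p.1 (e i)) ^ 2 := by
    funext p
    rw [haaB_expand]
  rw [h]
  refine Measurable.pow_const (Finset.measurable_sum _ fun i _ => ?_) 2
  refine Measurable.mul ?_ ?_
  · have hc : Continuous (fun z : E3 => z i) := by fun_prop
    exact hc.measurable.comp measurable_snd
  · exact (measurable_fderiv_apply_const ℝ F (e i)).comp measurable_fst

theorem avg_der {Γ : Type} [MeasurableSpace Γ] {H : Measure Γ} {γ : Γ → (E3 ≃ₗᵢ[ℝ] E3)}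
    (hH : Haar H γ) (F : E3 → ℝ) (hF : Adm F) (x : E3) (hx : ‖x‖ = 1) :
    ∫ g, XX (e 2) (F ∘ γ g) x ^ 2 ∂H = (1 - x 2 ^ 2) / 2 * GG F := by
  have := hH.prob
  set w : E3 := cr (e 2) x with hw
  set v : E3 := e 2 - x 2 • x with hv
  have h1 : x 0 ^ 2 + x 1 ^ 2 + x 2 ^ 2 = 1 := by
    rw [← haaB_normsq, hx, one_pow]
  have w0 : w 0 = - x 1 := by simp [hw, cr, e]
  have w1 : w 1 = x 0 := by simp [hw, cr, e]
  have w2 : w 2 = 0 := by simp [hw, cr, e]
  have v0 : v 0 = - (x 2 * x 0) := by simp [hv, e]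
  have v1 : v 1 = - (x 2 * x 1) := by simp [hv, e]
  have v2 : v 2 = 1 - x 2 * x 2 := by simp [hv, e]
  have hnorm : ‖w‖ = ‖v‖ := by
    have h2 : ‖w‖ ^ 2 = ‖v‖ ^ 2 := by
      rw [haaB_normsq, haaB_normsq, w0, w1, w2, v0, v1, v2]
      linear_combination (1 - x 2 ^ 2) * h1
    exact (sq_eq_sq₀ (norm_nonneg _) (norm_nonneg _)).1 h2
  have horth : ⟪w - v, x⟫_ℝ = 0 := by
    rw [PiLp.inner_apply, Fin.sum_univ_three]
    simp only [PiLp.sub_apply, w0, w1, w2, v0, v1, v2, RCLike.inner_apply, conj_trivial]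
    linear_combination (x 2) * h1
  obtain ⟨k, hk1, hk2⟩ := haaB_refl w v hnorm
  have hkx : k x = x := hk2 x horth
  -- the two second moments agree
  have hPhi := haaB_measPhi F
  have hI : ∫ g, fderiv ℝ F (γ g x) (γ g w) ^ 2 ∂H = ∫ g, fderiv ℝ F (γ g x) (γ g v) ^ 2 ∂H := by
    have e1 : ∫ g, fderiv ℝ F (γ g x) (γ g w) ^ 2 ∂H
        = ∫ p, fderiv ℝ F p.1 p.2 ^ 2 ∂(H.map (fun g => (γ g x, γ g w))) := by
      rw [integral_map (haaB_meas2 hH x w).aemeasurable hPhi.aestronglyMeasurable]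
    have e2 : ∫ g, fderiv ℝ F (γ g x) (γ g v) ^ 2 ∂H
        = ∫ p, fderiv ℝ F p.1 p.2 ^ 2 ∂(H.map (fun g => (γ g x, γ g v))) := by
      rw [integral_map (haaB_meas2 hH x v).aemeasurable hPhi.aestronglyMeasurable]
    have e3 := hH.inv k x w
    rw [hkx, hk1] at e3
    rw [e1, e2, e3]
  -- integrability
  obtain ⟨C, hC⟩ := admA_bound F hF
  have hint : ∀ z : E3, Integrable (fun g => fderiv ℝ F (γ g x) (γ g z) ^ 2) H := by
    intro z
    refine Integrable.of_bound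
      ((hPhi.comp (haaB_meas2 hH x z)).aestronglyMeasurable) ((C * ‖z‖) ^ 2) ?_
    refine Eventually.of_forall fun g => ?_
    have hn : ‖γ g x‖ = 1 := by rw [LinearIsometryEquiv.norm_map, hx]
    have h2 := (hC (γ g x) hn).2
    have h3 : |fderiv ℝ F (γ g x) (γ g z)| ≤ C * ‖z‖ := by
      have h4 := (fderiv ℝ F (γ g x)).le_opNorm (γ g z)
      rw [LinearIsometryEquiv.norm_map, Real.norm_eq_abs] at h4
      exact h4.trans (mul_le_mul_of_nonneg_right h2 (norm_nonneg _))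
    rw [Real.norm_eq_abs, abs_pow]
    exact pow_le_pow_left₀ (abs_nonneg _) h3 2
  -- the sum
  have hsum : ∫ g, fderiv ℝ F (γ g x) (γ g w) ^ 2 ∂H + ∫ g, fderiv ℝ F (γ g x) (γ g v) ^ 2 ∂H
      = (1 - x 2 ^ 2) * GG F := by
    rw [← integral_add (hint w) (hint v)]
    have e1 : ∀ g, fderiv ℝ F (γ g x) (γ g w) ^ 2 + fderiv ℝ F (γ g x) (γ g v) ^ 2
        = (1 - x 2 ^ 2) * ‖fderiv ℝ F (γ g x)‖ ^ 2 := by
      intro g
      have hG : ∀ (x : E3) (r : ℝ), 0 < r → (F ∘ γ g) (r • x) = (F ∘ γ g) x := by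
        intro x r hr
        simp only [Function.comp_apply, map_smul]
        exact hF.hom _ r hr
      have h := haaB_ident hG x hx
      rw [haaB_fderiv_comp, haaB_fderiv_comp, haaB_norm_comp] at h
      exact h
    simp_rw [e1]
    rw [integral_const_mul]
    congr 1
    have hm : Measurable (fun y : E3 => ‖fderiv ℝ F y‖ ^ 2) := (admA_meas_fderiv F).1
    have e2 : ∫ g, ‖fderiv ℝ F (γ g x)‖ ^ 2 ∂H
        = ∫ y, ‖fderiv ℝ F y‖ ^ 2 ∂(H.map (fun g => γ g x)) := by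
      rw [integral_map (haaB_meas hH x).aemeasurable hm.aestronglyMeasurable]
    rw [e2, avg_point hH x hx]
    rfl
  have hfin : ∫ g, XX (e 2) (F ∘ γ g) x ^ 2 ∂H = ∫ g, fderiv ℝ F (γ g x) (γ g w) ^ 2 ∂H := by
    refine integral_congr_ae (Eventually.of_forall fun g => ?_)
    simp only [XX]
    rw [haaB_fderiv_comp]
  rw [hfin]
  linarith

end STH
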