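import Pool.Agent.Lib_helper59.STH.Defs
import Pool.Agent.Lib_helper15.STE.B.sigA
import Pool.Agent.Lib_helper15.STE.B.sigC

/-! # STH, block momA -/

open MeasureTheory Filter Topology
open Pool.Agent.Lib_helper15.STE

namespace STH

theorem momA_meas (i j k : ℕ) : Measurable (mon i j k) := by
  have h : ∀ l : Fin 3, Measurable (fun x : E3 => x l) := fun l =>
    (EuclideanSpace.proj (𝕜 := ℝ) l : E3 →L[ℝ] ℝ).continuous.measurable
  exact (((h 0).pow_const i).mul ((h 1).pow_const j)).mul ((h 2).pow_const k)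

theorem momA_norm_sq (x : E3) : ‖x‖ ^ 2 = x 0 ^ 2 + x 1 ^ 2 + x 2 ^ 2 := by
  rw [EuclideanSpace.norm_sq_eq, Fin.sum_univ_three]
  simp only [Real.norm_eq_abs, sq_abs]

theorem momA_coord_le {x : E3} (hx : ‖x‖ = 1) (l : Fin 3) : |x l| ≤ 1 := by
  have h := PiLp.norm_apply_le x l
  rw [hx, Real.norm_eq_abs] at h
  exact h

theorem momA_bound (i j k : ℕ) (x : E3) (hx : ‖x‖ = 1) : |mon i j k x| ≤ 1 := by
  rw [mon, abs_mul, abs_mul, abs_pow, abs_pow, abs_pow]
  have h0 := pow_le_one₀ (n := i) (abs_nonneg _) (momA_coord_le hx 0)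
  have h1 := pow_le_one₀ (n := j) (abs_nonneg _) (momA_coord_le hx 1)
  have h2 := pow_le_one₀ (n := k) (abs_nonneg _) (momA_coord_le hx 2)
  have h3 := mul_le_one₀ h0 (by positivity) h1
  exact mul_le_one₀ h3 (by positivity) h2

theorem momA_integrable (i j k : ℕ) : Integrable (mon i j k) sig :=
  (sigC_integral _ (momA_meas i j k) 1 (momA_bound i j k)).1

theorem momA_inv (g : E3 ≃ₗᵢ[ℝ] E3) {f : E3 → ℝ} (hf : Measurable f) :
    ∫ x, f (g x) ∂sig = ∫ x, f x ∂sig := by
  conv_rhs => rw [← sigA_map g]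
  rw [integral_map g.continuous.aemeasurable hf.aestronglyMeasurable]

/-- reflection in a coordinate -/
noncomputable def momA_refl (l : Fin 3) : E3 ≃ₗᵢ[ℝ] E3 :=
  LinearIsometryEquiv.piLpCongrRight 2
    (fun i => if i = l then LinearIsometryEquiv.neg ℝ else LinearIsometryEquiv.refl ℝ ℝ)

theorem momA_refl_apply (l m : Fin 3) (x : E3) :
    momA_refl l x m = if m = l then -x m else x m := by
  by_cases h : m = l
  · simp [momA_refl, h]
  · simp [momA_refl, h]

theorem momA_odd0 {i : ℕ} (hi : Odd i) (j k : ℕ) : ∫ x, mon i j k x ∂sig = 0 := by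
  have h := momA_inv (momA_refl 0) (momA_meas i j k)
  have e : ∀ x, mon i j k (momA_refl 0 x) = -mon i j k x := by
    intro x
    simp only [mon, momA_refl_apply]
    simp [hi.neg_pow]
  simp only [e, integral_neg] at h
  linarith

theorem momA_odd1 {j : ℕ} (hj : Odd j) (i k : ℕ) : ∫ x, mon i j k x ∂sig = 0 := by
  have h := momA_inv (momA_refl 1) (momA_meas i j k)
  have e : ∀ x, mon i j k (momA_refl 1 x) = -mon i j k x := by
    intro x
    simp only [mon, momA_refl_apply]
    simp [hj.neg_pow]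
  simp only [e, integral_neg] at h
  linarith

theorem momA_odd2 {k : ℕ} (hk : Odd k) (i j : ℕ) : ∫ x, mon i j k x ∂sig = 0 := by
  have h := momA_inv (momA_refl 2) (momA_meas i j k)
  have e : ∀ x, mon i j k (momA_refl 2 x) = -mon i j k x := by
    intro x
    simp only [mon, momA_refl_apply]
    simp [hk.neg_pow]
  simp only [e, integral_neg] at h
  linarith

/-- the transposition of two coordinates -/
noncomputable def momA_swap (a b : Fin 3) : E3 ≃ₗᵢ[ℝ] E3 :=
  LinearIsometryEquiv.piLpCongrLeft 2 ℝ ℝ (Equiv.swap a b)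

theorem momA_swap_apply (a b m : Fin 3) (x : E3) :
    momA_swap a b x m = x (Equiv.swap a b m) := by
  simp [momA_swap, LinearIsometryEquiv.piLpCongrLeft_apply, Equiv.piCongrLeft'_apply]

theorem momA_swap01 (i j k : ℕ) : ∫ x, mon i j k x ∂sig = ∫ x, mon j i k x ∂sig := by
  rw [← momA_inv (momA_swap 0 1) (momA_meas i j k)]
  refine integral_congr_ae (ae_of_all _ fun x => ?_)
  simp only [mon, momA_swap_apply]
  rw [show Equiv.swap (0 : Fin 3) 1 0 = 1 from by decide, show Equiv.swap (0 : Fin 3) 1 1 = 0 from by decide,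
    show Equiv.swap (0 : Fin 3) 1 2 = 2 from by decide]
  ring

theorem momA_swap12 (i j k : ℕ) : ∫ x, mon i j k x ∂sig = ∫ x, mon i k j x ∂sig := by
  rw [← momA_inv (momA_swap 1 2) (momA_meas i j k)]
  refine integral_congr_ae (ae_of_all _ fun x => ?_)
  simp only [mon, momA_swap_apply]
  rw [show Equiv.swap (1 : Fin 3) 2 0 = 0 from by decide, show Equiv.swap (1 : Fin 3) 2 1 = 2 from by decide,
    show Equiv.swap (1 : Fin 3) 2 2 = 1 from by decide]
  ring

theorem momA_rad (i j k : ℕ) : ∫ x, mon i j k x ∂sig = ∫ x, mon (i + 2) j k x ∂sig +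
    ∫ x, mon i (j + 2) k x ∂sig + ∫ x, mon i j (k + 2) x ∂sig := by
  have h1 := momA_integrable (i + 2) j k
  have h2 := momA_integrable i (j + 2) k
  have h3 := momA_integrable i j (k + 2)
  have h12 : Integrable (fun x => mon (i + 2) j k x + mon i (j + 2) k x) sig := h1.add h2
  rw [← integral_add h1 h2, ← integral_add h12 h3]
  refine integral_congr_ae ?_
  filter_upwards [sigA_sphere] with x hx
  have h := momA_norm_sq x
  rw [hx] at h
  have e : mon (i + 2) j k x + mon i (j + 2) k x + mon i j (k + 2) x =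
      mon i j k x * (x 0 ^ 2 + x 1 ^ 2 + x 2 ^ 2) := by
    simp only [mon]; ring
  rw [e, ← h]
  ring

theorem momA_z (k : ℕ) : ∫ x, mon 0 0 k x ∂sig = 1 / 2 * ∫ τ in (-1:ℝ)..1, τ ^ k := by
  rw [(sigC_integral _ (momA_meas 0 0 k) 1 (momA_bound 0 0 k)).2]
  congr 1
  refine intervalIntegral.integral_congr fun τ _ => ?_
  have h : ∀ φ, mon 0 0 k (pt τ φ) = τ ^ k := by
    intro φ; simp [mon, pt]
  simp only [cm, av, h, intervalIntegral.integral_const, smul_eq_mul]
  have hpi := Real.pi_pos.ne'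
  field_simp
  ring

theorem momA_000 : ∫ x, mon 0 0 0 x ∂sig = 1 := by
  rw [momA_z, integral_pow]; norm_num

theorem momA_002 : ∫ x, mon 0 0 2 x ∂sig = 1 / 3 := by
  rw [momA_z, integral_pow]; norm_num

theorem momA_004 : ∫ x, mon 0 0 4 x ∂sig = 1 / 5 := by
  rw [momA_z, integral_pow]; norm_num

theorem momA_006 : ∫ x, mon 0 0 6 x ∂sig = 1 / 7 := by
  rw [momA_z, integral_pow]; norm_num

theorem momA_022 : ∫ x, mon 0 2 2 x ∂sig = 1 / 15 := by
  have h := momA_rad 0 0 2
  rw [show (0 + 2 : ℕ) = 2 from rfl, show (2 + 2 : ℕ) = 4 from rfl, momA_swap01 2 0 2, momA_002,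
    momA_004] at h
  linarith

theorem momA_024 : ∫ x, mon 0 2 4 x ∂sig = 1 / 35 := by
  have h := momA_rad 0 0 4
  rw [show (0 + 2 : ℕ) = 2 from rfl, show (4 + 2 : ℕ) = 6 from rfl, momA_swap01 2 0 4, momA_004,
    momA_006] at h
  linarith

theorem momA_222 : ∫ x, mon 2 2 2 x ∂sig = 1 / 105 := by
  have h := momA_rad 0 2 2
  rw [show (0 + 2 : ℕ) = 2 from rfl, show (2 + 2 : ℕ) = 4 from rfl, momA_swap12 0 4 2, momA_022,
    momA_024] at h
  linarith

theorem mom (i j k : ℕ) (h : i + j + k ≤ 6) : ∫ x, mon i j k x ∂sig =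
    if Even i ∧ Even j ∧ Even k then
      ((i - 1).doubleFactorial * (j - 1).doubleFactorial * (k - 1).doubleFactorial : ℝ) /
        (i + j + k + 1).doubleFactorial
    else 0 := by
  split_ifs with hev
  · obtain ⟨⟨a, ha⟩, ⟨b, hb⟩, ⟨c, hc⟩⟩ := hev
    have h200 : ∫ x, mon 2 0 0 x ∂sig = 1 / 3 := by rw [momA_swap01, momA_swap12, momA_002]
    have h020 : ∫ x, mon 0 2 0 x ∂sig = 1 / 3 := by rw [momA_swap12, momA_002]
    have h400 : ∫ x, mon 4 0 0 x ∂sig = 1 / 5 := by rw [momA_swap01, momA_swap12, momA_004]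
    have h040 : ∫ x, mon 0 4 0 x ∂sig = 1 / 5 := by rw [momA_swap12, momA_004]
    have h600 : ∫ x, mon 6 0 0 x ∂sig = 1 / 7 := by rw [momA_swap01, momA_swap12, momA_006]
    have h060 : ∫ x, mon 0 6 0 x ∂sig = 1 / 7 := by rw [momA_swap12, momA_006]
    have h202 : ∫ x, mon 2 0 2 x ∂sig = 1 / 15 := by rw [momA_swap01, momA_022]
    have h220 : ∫ x, mon 2 2 0 x ∂sig = 1 / 15 := by rw [momA_swap12, h202]
    have h042 : ∫ x, mon 0 4 2 x ∂sig = 1 / 35 := by rw [momA_swap12, momA_024]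
    have h204 : ∫ x, mon 2 0 4 x ∂sig = 1 / 35 := by rw [momA_swap01, momA_024]
    have h240 : ∫ x, mon 2 4 0 x ∂sig = 1 / 35 := by rw [momA_swap12, h204]
    have h402 : ∫ x, mon 4 0 2 x ∂sig = 1 / 35 := by rw [momA_swap01, h042]
    have h420 : ∫ x, mon 4 2 0 x ∂sig = 1 / 35 := by rw [momA_swap12, h402]
    have ha3 : a ≤ 3 := by omega
    have hb3 : b ≤ 3 := by omega
    have hc3 : c ≤ 3 := by omega
    subst ha hb hc
    interval_cases a <;> interval_cases b <;> interval_cases c <;>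
      first
      | (exfalso; omega)
      | (simp only [Nat.reduceAdd, momA_000, momA_002, momA_004, momA_006, momA_022, momA_024,
          momA_222, h200, h020, h400, h040, h600, h060, h202, h220, h042, h204, h240, h402, h420]
         norm_num [Nat.doubleFactorial])
  · by_cases hi : Even i
    · by_cases hj : Even j
      · have hk : ¬Even k := fun hk => hev ⟨hi, hj, hk⟩
        exact momA_odd2 (Nat.not_even_iff_odd.1 hk) i j
      · exact momA_odd1 (Nat.not_even_iff_odd.1 hj) i k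
    · exact momA_odd0 (Nat.not_even_iff_odd.1 hi) j k

end STH
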