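import Pool.Agent.Lib_helper59.STH.Defs

/-! # STH, block valg -/

open MeasureTheory Filter Topology
open Pool.Agent.Lib_helper15.STE

namespace STH

theorem valg_mon_mem {i j k n : ℕ} (h : i + j + k ≤ n) : mon i j k ∈ V n :=
  Submodule.subset_span ⟨i, j, k, h, rfl⟩

theorem valg_mon_mul (i j k i' j' k' : ℕ) (x : E3) :
    mon i j k x * mon i' j' k' x = mon (i + i') (j + j') (k + k') x := by
  simp only [mon]; ring

theorem V_mono {m n : ℕ} (h : m ≤ n) : V m ≤ V n := by
  refine Submodule.span_mono ?_
  rintro p ⟨i, j, k, hijk, rfl⟩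
  exact ⟨i, j, k, hijk.trans h, rfl⟩

theorem V_one : (fun _ => (1:ℝ)) ∈ V 0 := by
  have h : (fun _ => (1:ℝ)) = mon 0 0 0 := by
    funext x; simp [mon]
  rw [h]
  exact valg_mon_mem le_rfl

theorem V_coord (i : Fin 3) : (fun x : E3 => x i) ∈ V 1 := by
  fin_cases i
  · have h : (fun x : E3 => x 0) = mon 1 0 0 := by
      funext x; simp [mon]
    show (fun x : E3 => x 0) ∈ V 1
    rw [h]
    exact valg_mon_mem le_rfl
  · have h : (fun x : E3 => x 1) = mon 0 1 0 := by
      funext x; simp [mon]
    show (fun x : E3 => x 1) ∈ V 1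
    rw [h]
    exact valg_mon_mem le_rfl
  · have h : (fun x : E3 => x 2) = mon 0 0 1 := by
      funext x; simp [mon]
    show (fun x : E3 => x 2) ∈ V 1
    rw [h]
    exact valg_mon_mem le_rfl

theorem V_mul {m n : ℕ} {p q : E3 → ℝ} (hp : p ∈ V m) (hq : q ∈ V n) :
    (fun x => p x * q x) ∈ V (m + n) := by
  unfold V at hp
  induction hp using Submodule.span_induction with
  | mem p hp =>
    obtain ⟨i, j, k, h, rfl⟩ := hp
    unfold V at hq
    induction hq using Submodule.span_induction with
    | mem q hq =>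
      obtain ⟨i', j', k', h', rfl⟩ := hq
      have e : (fun x => mon i j k x * mon i' j' k' x) = mon (i + i') (j + j') (k + k') :=
        funext fun x => valg_mon_mul _ _ _ _ _ _ x
      rw [e]
      exact valg_mon_mem (by omega)
    | zero =>
      have e : (fun x => mon i j k x * (0 : E3 → ℝ) x) = 0 := by
        funext x; simp
      rw [e]
      exact Submodule.zero_mem _
    | add q q' _ _ h1 h2 =>
      have e : (fun x => mon i j k x * (q + q') x) =
          (fun x => mon i j k x * q x) + fun x => mon i j k x * q' x := by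
        funext x; simp only [Pi.add_apply]; ring
      rw [e]
      exact Submodule.add_mem _ h1 h2
    | smul a q _ h1 =>
      have e : (fun x => mon i j k x * (a • q) x) = a • fun x => mon i j k x * q x := by
        funext x; simp only [Pi.smul_apply, smul_eq_mul]; ring
      rw [e]
      exact Submodule.smul_mem _ _ h1
  | zero =>
    have e : (fun x => (0 : E3 → ℝ) x * q x) = 0 := by
      funext x; simp
    rw [e]
    exact Submodule.zero_mem _
  | add p p' _ _ h1 h2 =>
    have e : (fun x => (p + p') x * q x) = (fun x => p x * q x) + fun x => p' x * q x := by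
      funext x; simp only [Pi.add_apply]; ring
    rw [e]
    exact Submodule.add_mem _ h1 h2
  | smul a p _ h1 =>
    have e : (fun x => (a • p) x * q x) = a • fun x => p x * q x := by
      funext x; simp only [Pi.smul_apply, smul_eq_mul]; ring
    rw [e]
    exact Submodule.smul_mem _ _ h1

theorem V_zero {p : E3 → ℝ} (hp : p ∈ V 0) : ∃ c : ℝ, p = fun _ => c := by
  unfold V at hp
  induction hp using Submodule.span_induction with
  | mem p hp =>
    obtain ⟨i, j, k, h, rfl⟩ := hp
    have hi : i = 0 := by omega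
    have hj : j = 0 := by omega
    have hk : k = 0 := by omega
    subst hi hj hk
    exact ⟨1, funext fun x => by simp [mon]⟩
  | zero => exact ⟨0, rfl⟩
  | add p q _ _ h1 h2 =>
    obtain ⟨c, rfl⟩ := h1
    obtain ⟨d, rfl⟩ := h2
    exact ⟨c + d, rfl⟩
  | smul a p _ h1 =>
    obtain ⟨c, rfl⟩ := h1
    exact ⟨a * c, rfl⟩

theorem valg_mon_smooth (i j k : ℕ) : ContDiff ℝ 2 (mon i j k) := by
  have h : ∀ l : Fin 3, ContDiff ℝ 2 (fun x : E3 => x l) := fun l =>
    (EuclideanSpace.proj (𝕜 := ℝ) l : E3 →L[ℝ] ℝ).contDiff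
  exact (((h 0).pow i).mul ((h 1).pow j)).mul ((h 2).pow k)

theorem V_smooth {n : ℕ} {p : E3 → ℝ} (hp : p ∈ V n) : ContDiff ℝ 2 p := by
  unfold V at hp
  induction hp using Submodule.span_induction with
  | mem p hp =>
    obtain ⟨i, j, k, -, rfl⟩ := hp
    exact valg_mon_smooth i j k
  | zero => exact contDiff_const
  | add p q _ _ h1 h2 => exact h1.add h2
  | smul a p _ h1 => exact h1.const_smul a

theorem valg_pow {p : E3 → ℝ} (hp : p ∈ V 1) (i : ℕ) : (fun x => p x ^ i) ∈ V i := by
  induction i with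
  | zero =>
    have e : (fun x => p x ^ 0) = fun _ : E3 => (1:ℝ) := by funext x; simp
    rw [e]
    exact V_one
  | succ i ih =>
    have e : (fun x => p x ^ (i + 1)) = fun x => p x ^ i * p x := by
      funext x; rw [pow_succ]
    rw [e]
    exact V_mul ih hp

theorem valg_lin (g : E3 ≃ₗᵢ[ℝ] E3) (l : Fin 3) : (fun x : E3 => g x l) ∈ V 1 := by
  have e : (fun x : E3 => g x l) = (g (e 0) l) • (fun x : E3 => x 0) +
      (g (e 1) l) • (fun x : E3 => x 1) + (g (e 2) l) • (fun x : E3 => x 2) := by
    funext x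
    have hx : x = x 0 • Pool.Agent.Lib_helper15.STE.e 0 + x 1 • Pool.Agent.Lib_helper15.STE.e 1 +
        x 2 • Pool.Agent.Lib_helper15.STE.e 2 := by
      ext m
      fin_cases m <;> simp [Pool.Agent.Lib_helper15.STE.e]
    conv_lhs => rw [hx]
    simp only [map_add, map_smul, PiLp.add_apply, PiLp.smul_apply, smul_eq_mul, Pi.add_apply,
      Pi.smul_apply]
    ring
  rw [e]
  exact Submodule.add_mem _ (Submodule.add_mem _ (Submodule.smul_mem _ _ (V_coord 0))
    (Submodule.smul_mem _ _ (V_coord 1))) (Submodule.smul_mem _ _ (V_coord 2))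

theorem V_comp {n : ℕ} {p : E3 → ℝ} (hp : p ∈ V n) (g : E3 ≃ₗᵢ[ℝ] E3) : p ∘ g ∈ V n := by
  unfold V at hp
  induction hp using Submodule.span_induction with
  | mem p hp =>
    obtain ⟨i, j, k, h, rfl⟩ := hp
    have h1 := V_mul (V_mul (valg_pow (valg_lin g 0) i) (valg_pow (valg_lin g 1) j))
      (valg_pow (valg_lin g 2) k)
    exact V_mono h h1
  | zero => exact Submodule.zero_mem _
  | add p q _ _ h1 h2 => exact Submodule.add_mem _ h1 h2
  | smul a p _ h1 => exact Submodule.smul_mem _ a h1

end STH
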