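import Pool.Agent.Lib_helper59.STH.Defs
import Pool.Agent.Lib_helper59.STHF.valg
import Pool.Agent.Lib_helper15.STE.B.sigA
import Pool.Agent.Lib_helper15.STE.B.admA

/-! # STH, block gooA -/

open MeasureTheory Filter Topology
open Pool.Agent.Lib_helper15.STE

namespace STH

theorem good_adm (F : E3 → ℝ) (hF : Adm F) : Good F :=
  ⟨admA_meas F hF, hF.lip, admA_diff F hF⟩

theorem good_V {n : ℕ} {p : E3 → ℝ} (hp : p ∈ V n) : Good p := by
  have hs := V_smooth hp
  have hd : Differentiable ℝ p := hs.differentiable (by norm_num)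
  refine ⟨hs.continuous.measurable, ?_, Eventually.of_forall fun x => hd x⟩
  have hc : Continuous (fun x => ‖fderiv ℝ p x‖) := (hs.continuous_fderiv (by norm_num)).norm
  obtain ⟨C, hC⟩ := (isCompact_closedBall (0 : E3) 1).exists_bound_of_continuousOn hc.continuousOn
  refine ⟨C, fun x y hx hy => ?_⟩
  have h := (convex_closedBall (0 : E3) 1).norm_image_sub_le_of_norm_fderiv_le
    (f := p) (C := C) (𝕜 := ℝ) (x := y) (y := x) (fun z _ => hd z)
    (fun z hz => by simpa using hC z hz)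
    (by simp [hy]) (by simp [hx])
  simpa [Real.norm_eq_abs] using h

theorem Good.add {F G : E3 → ℝ} (hF : Good F) (hG : Good G) : Good (fun x => F x + G x) := by
  obtain ⟨C, hC⟩ := hF.lip
  obtain ⟨D, hD⟩ := hG.lip
  refine ⟨hF.meas.add hG.meas, ⟨C + D, fun x y hx hy => ?_⟩, ?_⟩
  · have h1 := hC x y hx hy
    have h2 := hD x y hx hy
    have h3 : F x + G x - (F y + G y) = (F x - F y) + (G x - G y) := by ring
    rw [h3, add_mul]
    exact (abs_add_le _ _).trans (add_le_add h1 h2)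
  · filter_upwards [hF.diff, hG.diff] with x h1 h2
    exact h1.add h2

theorem gooA_e2 : ‖e 2‖ = 1 := by simp [e]

theorem Good.bdd {F : E3 → ℝ} (hF : Good F) : ∃ C, ∀ x : E3, ‖x‖ = 1 → |F x| ≤ C := by
  obtain ⟨C, hC⟩ := hF.lip
  refine ⟨|F (e 2)| + |C| * 2, fun x hx => ?_⟩
  have h1 := hC x (e 2) hx gooA_e2
  have h2 : ‖x - e 2‖ ≤ 2 := by
    calc _ ≤ ‖x‖ + ‖e 2‖ := norm_sub_le _ _
      _ = 2 := by rw [hx, gooA_e2]; norm_num
  have h3 : C * ‖x - e 2‖ ≤ |C| * 2 := by
    calc C * ‖x - e 2‖ ≤ |C| * ‖x - e 2‖ :=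
          mul_le_mul_of_nonneg_right (le_abs_self C) (norm_nonneg _)
      _ ≤ |C| * 2 := mul_le_mul_of_nonneg_left h2 (abs_nonneg C)
  have h4 : |F x| ≤ |F x - F (e 2)| + |F (e 2)| := by
    have := abs_add_le (F x - F (e 2)) (F (e 2))
    simpa using this
  linarith

theorem Good.mul {F G : E3 → ℝ} (hF : Good F) (hG : Good G) : Good (fun x => F x * G x) := by
  obtain ⟨C, hC⟩ := hF.lip
  obtain ⟨D, hD⟩ := hG.lip
  obtain ⟨M, hM⟩ := hF.bdd
  obtain ⟨N, hN⟩ := hG.bdd
  refine ⟨hF.meas.mul hG.meas, ⟨M * D + N * C, fun x y hx hy => ?_⟩, ?_⟩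
  · have h1 := hC x y hx hy
    have h2 := hD x y hx hy
    have h3 : F x * G x - F y * G y = F x * (G x - G y) + G y * (F x - F y) := by ring
    have hM0 : 0 ≤ M := (abs_nonneg _).trans (hM x hx)
    have hN0 : 0 ≤ N := (abs_nonneg _).trans (hN x hx)
    rw [h3]
    calc |F x * (G x - G y) + G y * (F x - F y)|
        ≤ |F x * (G x - G y)| + |G y * (F x - F y)| := abs_add_le _ _
      _ = |F x| * |G x - G y| + |G y| * |F x - F y| := by rw [abs_mul, abs_mul]
      _ ≤ M * (D * ‖x - y‖) + N * (C * ‖x - y‖) := by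
          refine add_le_add ?_ ?_
          · exact mul_le_mul (hM x hx) h2 (abs_nonneg _) hM0
          · exact mul_le_mul (hN y hy) h1 (abs_nonneg _) hN0
      _ = (M * D + N * C) * ‖x - y‖ := by ring
  · filter_upwards [hF.diff, hG.diff] with x h1 h2
    exact h1.mul h2

theorem Good.comp {F : E3 → ℝ} (hF : Good F) (g : E3 ≃ₗᵢ[ℝ] E3) : Good (F ∘ g) := by
  obtain ⟨C, hC⟩ := hF.lip
  refine ⟨hF.meas.comp g.continuous.measurable, ⟨C, fun x y hx hy => ?_⟩, ?_⟩
  · have h1 := hC (g x) (g y) (by rw [g.norm_map, hx]) (by rw [g.norm_map, hy])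
    rw [← map_sub, g.norm_map] at h1
    exact h1
  · have h1 : ∀ᵐ x ∂(sig.map g), DifferentiableAt ℝ F x := by
      rw [sigA_map g]; exact hF.diff
    have h2 := ae_of_ae_map g.continuous.measurable.aemeasurable h1
    filter_upwards [h2] with x hx
    exact DifferentiableAt.comp x hx g.differentiable.differentiableAt

end STH
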