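import Pool.Agent.Lib_helper59.STH.Defs
import Pool.Agent.Lib_helper59.STHF.valg
import Pool.Agent.Lib_helper59.STHF.gooA
import Pool.Agent.Lib_helper15.STE.B.sigA

/-! # STH, block cmpA (helper99) -/

open MeasureTheory Filter Topology
open Pool.Agent.Lib_helper15.STE

namespace STH

theorem ip_comp (p q : E3 → ℝ) (g : E3 ≃ₗᵢ[ℝ] E3) : ip (p ∘ g) (q ∘ g) = ip p q := by
  unfold ip
  conv_rhs => rw [← sigA_map g]
  have h := MeasureTheory.integral_map_equiv (μ := sig) g.toHomeomorph.toMeasurableEquiv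
    (fun x => p x * q x)
  exact h.symm

theorem cmpA_symm (p q : E3 → ℝ) (g : E3 ≃ₗᵢ[ℝ] E3) : ip (p ∘ g) q = ip p (q ∘ g.symm) := by
  have h := ip_comp p (q ∘ g.symm) g
  have h2 : (q ∘ g.symm) ∘ g = q := by
    funext x
    simp
  rw [h2] at h
  exact h

theorem HH_comp {n : ℕ} {h : E3 → ℝ} (hh : HH n h) (g : E3 ≃ₗᵢ[ℝ] E3) : HH n (h ∘ g) where
  mem := V_comp hh.mem g
  orth := by
    intro m hm q hq
    rw [cmpA_symm]
    exact hh.orth m hm _ (V_comp hq g.symm)

theorem Dec_comp {F : E3 → ℝ} {f : ℕ → E3 → ℝ} (hF : Good F) (hf : Dec F f)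
    (g : E3 ≃ₗᵢ[ℝ] E3) : Dec (F ∘ g) (fun k => f k ∘ g) where
  hh := fun n => HH_comp (hf.hh n) g
  proj := by
    intro n q hq
    have h := cmpA_symm (fun x => F x - ∑ k ∈ Finset.range (n + 1), f k x) q g
    exact h.trans (hf.proj n _ (V_comp hq g.symm))
  lim := by
    refine hf.lim.congr fun n => ?_
    exact (ip_comp (fun x => F x - ∑ k ∈ Finset.range (n + 1), f k x)
      (fun x => F x - ∑ k ∈ Finset.range (n + 1), f k x) g).symm

end STH
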