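import Pool.Agent.Lib_helper59.STH.Defs

/-! # STH, block legA : Legendre polynomials of degree at most 6 -/

open MeasureTheory Filter Topology
open Pool.Agent.Lib_helper15.STE

namespace STH

open Polynomial in
/-- the Legendre polynomials as polynomials -/
noncomputable def legA_P : ℕ → Polynomial ℝ
  | 0 => 1
  | 1 => X
  | 2 => C (3 / 2) * X ^ 2 - C (1 / 2)
  | 3 => C (5 / 2) * X ^ 3 - C (3 / 2) * X
  | 4 => C (35 / 8) * X ^ 4 - C (30 / 8) * X ^ 2 + C (3 / 8)
  | 5 => C (63 / 8) * X ^ 5 - C (70 / 8) * X ^ 3 + C (15 / 8) * X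
  | 6 => C (231 / 16) * X ^ 6 - C (315 / 16) * X ^ 4 + C (105 / 16) * X ^ 2 - C (5 / 16)
  | _ => 0

theorem legA_eval (n : ℕ) (hn : n ≤ 6) (τ : ℝ) : (legA_P n).eval τ = LP n τ := by
  interval_cases n <;> simp [legA_P, LP] <;> ring

theorem legA_natDegree (n : ℕ) (hn : n ≤ 6) : (legA_P n).natDegree ≤ n := by
  refine Polynomial.natDegree_le_iff_coeff_eq_zero.2 fun k hk => ?_
  have e1 : ∀ j, j ≤ n → k ≠ j := fun j hj hh => by omega
  have e2 : ∀ j, j ≤ n → j ≠ k := fun j hj hh => by omega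
  have a0 : k ≠ 0 := e1 0 (by omega)
  interval_cases n
  · simp [legA_P, Polynomial.coeff_one, a0]
  · simp [legA_P, Polynomial.coeff_X, e2 1 (by omega)]
  · simp [legA_P, Polynomial.coeff_X_pow, Polynomial.coeff_C, a0, e1 2 (by omega)]
  · simp [legA_P, Polynomial.coeff_X_pow, Polynomial.coeff_X, e1 3 (by omega), e2 1 (by omega)]
  · simp [legA_P, Polynomial.coeff_X_pow, Polynomial.coeff_C, a0, e1 2 (by omega),
      e1 4 (by omega)]
  · simp [legA_P, Polynomial.coeff_X_pow, Polynomial.coeff_X, e1 3 (by omega), e1 5 (by omega),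
      e2 1 (by omega)]
  · simp [legA_P, Polynomial.coeff_X_pow, Polynomial.coeff_C, a0, e1 2 (by omega),
      e1 4 (by omega), e1 6 (by omega)]

theorem legA_coeff (n : ℕ) (hn : n ≤ 6) : (legA_P n).coeff n ≠ 0 := by
  interval_cases n <;> simp [legA_P, Polynomial.coeff_X, Polynomial.coeff_X_pow,
    Polynomial.coeff_one]

theorem legA_one (n : ℕ) (hn : n ≤ 6) : LP n 1 = 1 := by
  interval_cases n <;> norm_num [LP]

theorem legA_int_pow (k : ℕ) : ∫ τ in (-1:ℝ)..1, τ ^ k = (1 - (-1) ^ (k + 1)) / (k + 1) := by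
  rw [integral_pow, one_pow]

theorem legA_key (a b c d : ℝ) (i j l m : ℕ) :
    ∫ τ in (-1:ℝ)..1, (a * τ ^ i + b * τ ^ j + c * τ ^ l + d * τ ^ m) =
      a * ((1 - (-1) ^ (i + 1)) / (i + 1)) + b * ((1 - (-1) ^ (j + 1)) / (j + 1)) +
      c * ((1 - (-1) ^ (l + 1)) / (l + 1)) + d * ((1 - (-1) ^ (m + 1)) / (m + 1)) := by
  have h1 : ∀ (a : ℝ) (j : ℕ), IntervalIntegrable (fun τ : ℝ => a * τ ^ j) volume (-1) 1 :=
    fun a j => (Continuous.intervalIntegrable (by fun_prop) _ _)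
  rw [intervalIntegral.integral_add (((h1 a i).add (h1 b j)).add (h1 c l)) (h1 d m),
    intervalIntegral.integral_add ((h1 a i).add (h1 b j)) (h1 c l),
    intervalIntegral.integral_add (h1 a i) (h1 b j)]
  simp only [intervalIntegral.integral_const_mul, legA_int_pow]

theorem legA_orth1 (k : ℕ) (hk : k < 1) : ∫ τ in (-1:ℝ)..1, LP 1 τ * τ ^ k = 0 := by
  have h1 := legA_key 1 0 0 0 (1 + k) 0 0 0
  have h2 : (fun τ : ℝ => LP 1 τ * τ ^ k) =
      fun τ => 1 * τ ^ (1 + k) + 0 * τ ^ 0 + 0 * τ ^ 0 + 0 * τ ^ 0 := by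
    funext τ
    simp only [LP]
    ring
  rw [h2, h1]
  interval_cases k <;> norm_num

theorem legA_orth2 (k : ℕ) (hk : k < 2) : ∫ τ in (-1:ℝ)..1, LP 2 τ * τ ^ k = 0 := by
  have h1 := legA_key (3 / 2) (-1 / 2) 0 0 (2 + k) k 0 0
  have h2 : (fun τ : ℝ => LP 2 τ * τ ^ k) =
      fun τ => 3 / 2 * τ ^ (2 + k) + -1 / 2 * τ ^ k + 0 * τ ^ 0 + 0 * τ ^ 0 := by
    funext τ
    simp only [LP]
    ring
  rw [h2, h1]
  interval_cases k <;> norm_num

theorem legA_orth3 (k : ℕ) (hk : k < 3) : ∫ τ in (-1:ℝ)..1, LP 3 τ * τ ^ k = 0 := by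
  have h1 := legA_key (5 / 2) (-3 / 2) 0 0 (3 + k) (1 + k) 0 0
  have h2 : (fun τ : ℝ => LP 3 τ * τ ^ k) =
      fun τ => 5 / 2 * τ ^ (3 + k) + -3 / 2 * τ ^ (1 + k) + 0 * τ ^ 0 + 0 * τ ^ 0 := by
    funext τ
    simp only [LP]
    ring
  rw [h2, h1]
  interval_cases k <;> norm_num

theorem legA_orth4 (k : ℕ) (hk : k < 4) : ∫ τ in (-1:ℝ)..1, LP 4 τ * τ ^ k = 0 := by
  have h1 := legA_key (35 / 8) (-30 / 8) (3 / 8) 0 (4 + k) (2 + k) k 0
  have h2 : (fun τ : ℝ => LP 4 τ * τ ^ k) =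
      fun τ => 35 / 8 * τ ^ (4 + k) + -30 / 8 * τ ^ (2 + k) + 3 / 8 * τ ^ k + 0 * τ ^ 0 := by
    funext τ
    simp only [LP]
    ring
  rw [h2, h1]
  interval_cases k <;> norm_num

theorem legA_orth5 (k : ℕ) (hk : k < 5) : ∫ τ in (-1:ℝ)..1, LP 5 τ * τ ^ k = 0 := by
  have h1 := legA_key (63 / 8) (-70 / 8) (15 / 8) 0 (5 + k) (3 + k) (1 + k) 0
  have h2 : (fun τ : ℝ => LP 5 τ * τ ^ k) =
      fun τ => 63 / 8 * τ ^ (5 + k) + -70 / 8 * τ ^ (3 + k) + 15 / 8 * τ ^ (1 + k) +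
        0 * τ ^ 0 := by
    funext τ
    simp only [LP]
    ring
  rw [h2, h1]
  interval_cases k <;> norm_num

theorem legA_orth6 (k : ℕ) (hk : k < 6) : ∫ τ in (-1:ℝ)..1, LP 6 τ * τ ^ k = 0 := by
  have h1 := legA_key (231 / 16) (-315 / 16) (105 / 16) (-5 / 16) (6 + k) (4 + k) (2 + k) k
  have h2 : (fun τ : ℝ => LP 6 τ * τ ^ k) =
      fun τ => 231 / 16 * τ ^ (6 + k) + -315 / 16 * τ ^ (4 + k) + 105 / 16 * τ ^ (2 + k) +
        -5 / 16 * τ ^ k := by
    funext τ
    simp only [LP]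
    ring
  rw [h2, h1]
  interval_cases k <;> norm_num

theorem LP_orth (n : ℕ) (hn : n ≤ 6) (k : ℕ) (hk : k < n) :
    ∫ τ in (-1:ℝ)..1, LP n τ * τ ^ k = 0 := by
  interval_cases n
  · omega
  · exact legA_orth1 k hk
  · exact legA_orth2 k hk
  · exact legA_orth3 k hk
  · exact legA_orth4 k hk
  · exact legA_orth5 k hk
  · exact legA_orth6 k hk

theorem LP_sq : ∫ τ in (-1:ℝ)..1, LP 2 τ ^ 2 = 2 / 5 ∧ ∫ τ in (-1:ℝ)..1, LP 3 τ ^ 2 = 2 / 7 := by
  constructor
  · have h1 := legA_key (9 / 4) (-6 / 4) (1 / 4) 0 4 2 0 0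
    have h2 : (fun τ : ℝ => LP 2 τ ^ 2) =
        fun τ => 9 / 4 * τ ^ 4 + -6 / 4 * τ ^ 2 + 1 / 4 * τ ^ 0 + 0 * τ ^ 0 := by
      funext τ
      simp only [LP]
      ring
    rw [h2, h1]
    norm_num
  · have h1 := legA_key (25 / 4) (-30 / 4) (9 / 4) 0 6 4 2 0
    have h2 : (fun τ : ℝ => LP 3 τ ^ 2) =
        fun τ => 25 / 4 * τ ^ 6 + -30 / 4 * τ ^ 4 + 9 / 4 * τ ^ 2 + 0 * τ ^ 0 := by
      funext τ
      simp only [LP]
      ring
    rw [h2, h1]
    norm_num

/-- A polynomial of degree less than `n` orthogonal to all `τ ^ k`, `k < n`, is zero. -/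
theorem legA_zero (n : ℕ) (w : Polynomial ℝ) (hw : ∀ k, n ≤ k → w.coeff k = 0)
    (h : ∀ k, k < n → ∫ τ in (-1:ℝ)..1, w.eval τ * τ ^ k = 0) : w = 0 := by
  have hc : Continuous fun τ : ℝ => w.eval τ := w.continuous
  have hdeg : w.natDegree < n + 1 := by
    rw [Nat.lt_succ_iff]
    exact Polynomial.natDegree_le_iff_coeff_eq_zero.2 fun k hk => hw k hk.le
  have h1 : ∫ τ in (-1:ℝ)..1, w.eval τ * w.eval τ = 0 := by
    have h2 : ∀ τ : ℝ, w.eval τ * w.eval τ =
        ∑ k ∈ Finset.range (n + 1), w.coeff k * (w.eval τ * τ ^ k) := by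
      intro τ
      conv_lhs => rw [Polynomial.eval_eq_sum_range' hdeg τ]
      rw [Polynomial.eval_eq_sum_range' hdeg τ, Finset.sum_mul]
      refine Finset.sum_congr rfl fun k _ => ?_
      ring
    simp only [h2]
    rw [intervalIntegral.integral_finsetSum]
    · refine Finset.sum_eq_zero fun k hk => ?_
      rw [intervalIntegral.integral_const_mul]
      rcases Nat.lt_or_ge k n with hkn | hkn
      · rw [h k hkn, mul_zero]
      · rw [hw k hkn, zero_mul]
    · intro k _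
      exact (continuous_const.mul (hc.mul (continuous_pow k))).intervalIntegrable _ _
  have h3 : ∀ c ∈ Set.Icc (-1:ℝ) 1, w.eval c = 0 := by
    intro c hcc
    by_contra hne
    have h4 := intervalIntegral.integral_pos (f := fun τ => w.eval τ * w.eval τ)
      (a := -1) (b := 1) (by norm_num) (hc.mul hc).continuousOn
      (fun x _ => mul_self_nonneg _) ⟨c, hcc, mul_self_pos.2 hne⟩
    exact h4.ne' h1
  refine Polynomial.eq_zero_of_infinite_isRoot w ?_
  exact (Set.Icc_infinite (show (-1:ℝ) < 1 by norm_num)).mono h3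

theorem leg (n : ℕ) (hn : n ≤ 6) (u : Polynomial ℝ) (hu : u.natDegree ≤ n)
    (h : ∀ k, k < n → ∫ τ in (-1:ℝ)..1, u.eval τ * τ ^ k = 0) (τ : ℝ) :
    u.eval τ = u.eval 1 * LP n τ := by
  set c : ℝ := u.coeff n / (legA_P n).coeff n with hc
  have hw : u - Polynomial.C c * legA_P n = 0 := by
    refine legA_zero n _ ?_ ?_
    · intro k hk
      rw [Polynomial.coeff_sub, Polynomial.coeff_C_mul]
      rcases hk.eq_or_lt with rfl | hk
      · rw [hc, div_mul_cancel₀ _ (legA_coeff n hn), sub_self]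
      · rw [Polynomial.coeff_eq_zero_of_natDegree_lt (hu.trans_lt hk),
          Polynomial.coeff_eq_zero_of_natDegree_lt ((legA_natDegree n hn).trans_lt hk)]
        ring
    · intro k hk
      have h1 : (fun τ : ℝ => (u - Polynomial.C c * legA_P n).eval τ * τ ^ k) =
          fun τ => u.eval τ * τ ^ k - c * (LP n τ * τ ^ k) := by
        funext τ
        rw [Polynomial.eval_sub, Polynomial.eval_mul, Polynomial.eval_C, legA_eval n hn]
        ring
      have hL : Continuous fun τ : ℝ => LP n τ := by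
        have h2 := (legA_P n).continuous
        have h3 : (fun τ : ℝ => (legA_P n).eval τ) = fun τ => LP n τ :=
          funext fun τ => legA_eval n hn τ
        rwa [h3] at h2
      rw [h1, intervalIntegral.integral_sub, h k hk, intervalIntegral.integral_const_mul,
        LP_orth n hn k hk, mul_zero, sub_zero]
      · exact (u.continuous.mul (continuous_pow k)).intervalIntegrable _ _
      · exact (continuous_const.mul (hL.mul (continuous_pow k))).intervalIntegrable _ _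
  have h2 : ∀ t : ℝ, u.eval t = c * LP n t := by
    intro t
    have h3 := congrArg (Polynomial.eval t) hw
    rw [Polynomial.eval_sub, Polynomial.eval_mul, Polynomial.eval_C, legA_eval n hn,
      Polynomial.eval_zero] at h3
    linarith
  rw [h2 τ, h2 1, legA_one n hn, mul_one]

end STH
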