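import Pool.Agent.Lib_helper59.STH.Defs

/-! # STH, block vcmA : circle means of polynomials -/

open MeasureTheory Filter Topology
open Pool.Agent.Lib_helper15.STE

namespace STH

/-- the trigonometric mean vanishes for odd total degree -/
theorem vcmA_odd (i j : ℕ) (h : Odd (i + j)) :
    av (fun φ => Real.cos φ ^ i * Real.sin φ ^ j) = 0 := by
  have hc : Continuous fun φ : ℝ => Real.cos φ ^ i * Real.sin φ ^ j := by fun_prop
  have hshift : ∀ φ : ℝ, Real.cos (φ + Real.pi) ^ i * Real.sin (φ + Real.pi) ^ j =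
      -(Real.cos φ ^ i * Real.sin φ ^ j) := by
    intro φ
    rw [Real.cos_add_pi, Real.sin_add_pi, neg_pow (Real.cos φ), neg_pow (Real.sin φ)]
    have h1 : (-1 : ℝ) ^ i * (-1) ^ j = -1 := by rw [← pow_add]; exact h.neg_one_pow
    calc (-1 : ℝ) ^ i * Real.cos φ ^ i * ((-1) ^ j * Real.sin φ ^ j)
        = ((-1 : ℝ) ^ i * (-1) ^ j) * (Real.cos φ ^ i * Real.sin φ ^ j) := by ring
      _ = _ := by rw [h1]; ring
  unfold av
  have h2 : ∫ φ in (0:ℝ)..Real.pi, Real.cos φ ^ i * Real.sin φ ^ j =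
      -∫ φ in (-Real.pi)..0, Real.cos φ ^ i * Real.sin φ ^ j := by
    have h3 := intervalIntegral.integral_comp_add_right
      (a := -Real.pi) (b := 0) (fun φ : ℝ => Real.cos φ ^ i * Real.sin φ ^ j) Real.pi
    rw [neg_add_cancel, zero_add] at h3
    rw [← h3, ← intervalIntegral.integral_neg]
    exact intervalIntegral.integral_congr fun φ _ => hshift φ
  rw [← intervalIntegral.integral_add_adjacent_intervals
    (hc.intervalIntegrable (-Real.pi) 0) (hc.intervalIntegrable 0 Real.pi), h2, add_neg_cancel,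
    mul_zero]

theorem vcmA_mon (i j k : ℕ) (τ φ : ℝ) : mon i j k (pt τ φ) =
    (√(1 - τ ^ 2) ^ (i + j) * τ ^ k) * (Real.cos φ ^ i * Real.sin φ ^ j) := by
  have h0 : pt τ φ 0 = √(1 - τ ^ 2) * Real.cos φ := rfl
  have h1 : pt τ φ 1 = √(1 - τ ^ 2) * Real.sin φ := rfl
  have h2 : pt τ φ 2 = τ := rfl
  unfold mon
  rw [h0, h1, h2]
  ring

theorem vcmA_cm_mon (i j k : ℕ) (τ : ℝ) : cm (mon i j k) τ =
    (√(1 - τ ^ 2) ^ (i + j) * τ ^ k) * av (fun φ => Real.cos φ ^ i * Real.sin φ ^ j) := by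
  unfold cm av
  simp only [vcmA_mon]
  rw [intervalIntegral.integral_const_mul]
  ring

theorem vcmA_aux {n : ℕ} {p : E3 → ℝ} (hp : p ∈ V n) :
    (∀ τ, Continuous fun φ => p (pt τ φ)) ∧
    ∃ u : Polynomial ℝ, u.natDegree ≤ n ∧ ∀ τ : ℝ, |τ| ≤ 1 → cm p τ = u.eval τ := by
  unfold V at hp
  induction hp using Submodule.span_induction with
  | mem p hp =>
    obtain ⟨i, j, k, hijk, rfl⟩ := hp
    refine ⟨fun τ => ?_, ?_⟩
    · simp only [vcmA_mon]
      fun_prop
    · rcases Nat.even_or_odd (i + j) with he | ho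
      · obtain ⟨m, hm⟩ := he
        refine ⟨Polynomial.C (av (fun φ => Real.cos φ ^ i * Real.sin φ ^ j)) *
          ((1 - Polynomial.X ^ 2) ^ m * Polynomial.X ^ k), ?_, ?_⟩
        · refine (Polynomial.natDegree_C_mul_le _ _).trans ?_
          refine (Polynomial.natDegree_mul_le).trans ?_
          have h1 : ((1 - Polynomial.X ^ 2 : Polynomial ℝ) ^ m).natDegree ≤ m * 2 := by
            refine Polynomial.natDegree_pow_le_of_le m ?_
            refine (Polynomial.natDegree_sub_le _ _).trans ?_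
            simp
          have h2 : (Polynomial.X ^ k : Polynomial ℝ).natDegree ≤ k :=
            Polynomial.natDegree_X_pow_le k
          omega
        · intro τ hτ
          rw [vcmA_cm_mon]
          have h1 : (0:ℝ) ≤ 1 - τ ^ 2 := by
            have := abs_le.1 hτ
            nlinarith [this.1, this.2]
          have h2 : √(1 - τ ^ 2) ^ (i + j) = (1 - τ ^ 2) ^ m := by
            have h3 : i + j = 2 * m := by omega
            rw [h3, pow_mul, Real.sq_sqrt h1]
          rw [h2]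
          simp only [Polynomial.eval_mul, Polynomial.eval_C, Polynomial.eval_pow,
            Polynomial.eval_sub, Polynomial.eval_one, Polynomial.eval_X]
          ring
      · refine ⟨0, by simp, fun τ _ => ?_⟩
        rw [vcmA_cm_mon, vcmA_odd i j ho, mul_zero, Polynomial.eval_zero]
  | zero =>
    refine ⟨fun τ => continuous_const, 0, by simp, fun τ _ => ?_⟩
    unfold cm av
    simp
  | add p q _ _ hp hq =>
    obtain ⟨hp1, u, hu1, hu2⟩ := hp
    obtain ⟨hq1, v, hv1, hv2⟩ := hq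
    refine ⟨fun τ => (hp1 τ).add (hq1 τ), u + v, ?_, fun τ hτ => ?_⟩
    · exact (Polynomial.natDegree_add_le _ _).trans (max_le hu1 hv1)
    · rw [Polynomial.eval_add, ← hu2 τ hτ, ← hv2 τ hτ]
      unfold cm av
      have h1 : (fun φ => (p + q) (pt τ φ)) = fun φ => p (pt τ φ) + q (pt τ φ) := rfl
      rw [h1, intervalIntegral.integral_add ((hp1 τ).intervalIntegrable _ _)
        ((hq1 τ).intervalIntegrable _ _), mul_add]
  | smul c p _ hp =>
    obtain ⟨hp1, u, hu1, hu2⟩ := hp
    refine ⟨fun τ => (hp1 τ).const_mul c |>.congr fun φ => rfl, Polynomial.C c * u, ?_,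
      fun τ hτ => ?_⟩
    · exact (Polynomial.natDegree_C_mul_le _ _).trans hu1
    · rw [Polynomial.eval_mul, Polynomial.eval_C, ← hu2 τ hτ]
      unfold cm av
      have h1 : (fun φ => (c • p) (pt τ φ)) = fun φ => c * p (pt τ φ) := rfl
      rw [h1, intervalIntegral.integral_const_mul]
      ring

theorem V_cm {n : ℕ} {p : E3 → ℝ} (hp : p ∈ V n) :
    ∃ u : Polynomial ℝ, u.natDegree ≤ n ∧ ∀ τ : ℝ, |τ| ≤ 1 → cm p τ = u.eval τ :=
  (vcmA_aux hp).2

end STH
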