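import Pool.Agent.Lib_helper59.STH.Defs
import Pool.Agent.Lib_helper59.STHF.valg
import Pool.Agent.Lib_helper59.STHF.vcmA
import Pool.Agent.Lib_helper59.STHF.legA
import Pool.Agent.Lib_helper59.STHF.gooA
import Pool.Agent.Lib_helper15.STE.B.sigA
import Pool.Agent.Lib_helper15.STE.B.sigC

/-! # STH, block zonA : zonal functions -/

open MeasureTheory Filter Topology
open Pool.Agent.Lib_helper15.STE

namespace STH

theorem zonA_pow (k : ℕ) : (fun x : E3 => x 2 ^ k) ∈ V k := by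
  induction k with
  | zero =>
    have h1 : (fun x : E3 => x 2 ^ 0) = fun _ => (1:ℝ) := funext fun x => pow_zero _
    rw [h1]
    exact V_one
  | succ k ih =>
    have h1 : (fun x : E3 => x 2 ^ (k + 1)) = fun x => x 2 ^ k * x 2 := funext fun x => pow_succ _ _
    rw [h1]
    exact V_mul ih (V_coord 2)

theorem zonA_pow_le {k n : ℕ} (h : k ≤ n) (c : ℝ) : (fun x : E3 => c * x 2 ^ k) ∈ V n :=
  Submodule.smul_mem _ c (V_mono h (zonA_pow k))

theorem zonA_mem (n : ℕ) (hn : n ≤ 6) : (fun x : E3 => LP n (x 2)) ∈ V n := by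
  interval_cases n
  · exact V_one
  · have h1 : (fun x : E3 => LP 1 (x 2)) = fun x => 1 * x 2 ^ 1 := by
      funext x; simp only [LP]; ring
    rw [h1]
    exact zonA_pow_le le_rfl 1
  · have h1 : (fun x : E3 => LP 2 (x 2)) = (fun x => 3 / 2 * x 2 ^ 2) + fun x => -1 / 2 * x 2 ^ 0 := by
      funext x; simp only [LP, Pi.add_apply]; ring
    rw [h1]
    exact Submodule.add_mem _ (zonA_pow_le (by norm_num) _) (zonA_pow_le (by norm_num) _)
  · have h1 : (fun x : E3 => LP 3 (x 2)) = (fun x => 5 / 2 * x 2 ^ 3) + fun x => -3 / 2 * x 2 ^ 1 := by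
      funext x; simp only [LP, Pi.add_apply]; ring
    rw [h1]
    exact Submodule.add_mem _ (zonA_pow_le (by norm_num) _) (zonA_pow_le (by norm_num) _)
  · have h1 : (fun x : E3 => LP 4 (x 2)) = (fun x => 35 / 8 * x 2 ^ 4) +
        (fun x => -30 / 8 * x 2 ^ 2) + fun x => 3 / 8 * x 2 ^ 0 := by
      funext x; simp only [LP, Pi.add_apply]; ring
    rw [h1]
    exact Submodule.add_mem _ (Submodule.add_mem _ (zonA_pow_le (by norm_num) _)
      (zonA_pow_le (by norm_num) _)) (zonA_pow_le (by norm_num) _)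
  · have h1 : (fun x : E3 => LP 5 (x 2)) = (fun x => 63 / 8 * x 2 ^ 5) +
        (fun x => -70 / 8 * x 2 ^ 3) + fun x => 15 / 8 * x 2 ^ 1 := by
      funext x; simp only [LP, Pi.add_apply]; ring
    rw [h1]
    exact Submodule.add_mem _ (Submodule.add_mem _ (zonA_pow_le (by norm_num) _)
      (zonA_pow_le (by norm_num) _)) (zonA_pow_le (by norm_num) _)
  · have h1 : (fun x : E3 => LP 6 (x 2)) = (fun x => 231 / 16 * x 2 ^ 6) +
        (fun x => -315 / 16 * x 2 ^ 4) + (fun x => 105 / 16 * x 2 ^ 2) +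
        fun x => -5 / 16 * x 2 ^ 0 := by
      funext x; simp only [LP, Pi.add_apply]; ring
    rw [h1]
    exact Submodule.add_mem _ (Submodule.add_mem _ (Submodule.add_mem _
      (zonA_pow_le (by norm_num) _) (zonA_pow_le (by norm_num) _))
      (zonA_pow_le (by norm_num) _)) (zonA_pow_le (by norm_num) _)

theorem zonA_cm_mul (h : E3 → ℝ) (g : ℝ → ℝ) (τ : ℝ) :
    cm (fun x => h x * g (x 2)) τ = cm h τ * g τ := by
  unfold cm av
  have h1 : ∀ φ, pt τ φ 2 = τ := fun φ => rfl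
  simp only [h1]
  rw [intervalIntegral.integral_mul_const]
  ring

/-- integral over the sphere of a polynomial -/
theorem zonA_int {n : ℕ} {p : E3 → ℝ} (hp : p ∈ V n) :
    ∫ x, p x ∂sig = 1 / 2 * ∫ τ in (-1:ℝ)..1, cm p τ := by
  obtain ⟨C, hC⟩ := (good_V hp).bdd
  exact (sigC_integral p (good_V hp).meas C hC).2

theorem zonA_LPmul {n : ℕ} (hn : n ≤ 6) {m : ℕ} (hm : m < n) (u : Polynomial ℝ)
    (hu : u.natDegree ≤ m) : ∫ τ in (-1:ℝ)..1, LP n τ * u.eval τ = 0 := by
  have hL : Continuous fun τ : ℝ => LP n τ := by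
    interval_cases n <;> simp only [LP] <;> fun_prop
  have h2 : ∀ τ : ℝ, LP n τ * u.eval τ =
      ∑ k ∈ Finset.range (m + 1), u.coeff k * (LP n τ * τ ^ k) := by
    intro τ
    rw [Polynomial.eval_eq_sum_range' (Nat.lt_succ_of_le hu) τ, Finset.mul_sum]
    refine Finset.sum_congr rfl fun k _ => ?_
    ring
  simp only [h2]
  rw [intervalIntegral.integral_finsetSum]
  · refine Finset.sum_eq_zero fun k hk => ?_
    rw [intervalIntegral.integral_const_mul, LP_orth n hn k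
      (by have := Finset.mem_range.1 hk; omega), mul_zero]
  · intro k _
    exact (continuous_const.mul (hL.mul (continuous_pow k))).intervalIntegrable _ _

theorem zonA_pole (h : E3 → ℝ) : cm h 1 = h (e 2) := by
  have h1 : ∀ φ, pt 1 φ = e 2 := by
    intro φ
    ext i
    unfold pt e
    fin_cases i <;> simp
  unfold cm av
  simp only [h1]
  rw [intervalIntegral.integral_const, smul_eq_mul]
  have h2 : Real.pi ≠ 0 := Real.pi_ne_zero
  field_simp
  ring

theorem zonal {n : ℕ} (hn : n ≤ 6) {h : E3 → ℝ} (hh : HH n h) (τ : ℝ) (hτ : |τ| ≤ 1) :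
    cm h τ = h (e 2) * LP n τ := by
  obtain ⟨u, hu1, hu2⟩ := V_cm hh.mem
  have h1 : ∀ k, k < n → ∫ τ in (-1:ℝ)..1, u.eval τ * τ ^ k = 0 := by
    intro k hk
    have h2 := hh.orth k hk _ (zonA_pow k)
    unfold ip at h2
    have h3 : (fun x : E3 => h x * x 2 ^ k) ∈ V (n + k) := V_mul hh.mem (zonA_pow k)
    rw [zonA_int h3] at h2
    have h4 : ∫ τ in (-1:ℝ)..1, cm (fun x => h x * x 2 ^ k) τ =
        ∫ τ in (-1:ℝ)..1, u.eval τ * τ ^ k := by
      refine intervalIntegral.integral_congr fun τ hτ => ?_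
      rw [Set.uIcc_of_le (by norm_num)] at hτ
      have h5 := zonA_cm_mul h (fun t => t ^ k) τ
      show cm (fun x => h x * x 2 ^ k) τ = u.eval τ * τ ^ k
      rw [h5, hu2 τ (abs_le.2 hτ)]
    rw [h4] at h2
    linarith
  have h6 := leg n hn u hu1 h1 τ
  rw [hu2 τ hτ, h6, ← hu2 1 (by norm_num), zonA_pole]

theorem zonal_HH (n : ℕ) (hn : n ≤ 6) : HH n (fun x => LP n (x 2)) := by
  refine ⟨zonA_mem n hn, fun m hm q hq => ?_⟩
  obtain ⟨u, hu1, hu2⟩ := V_cm hq
  unfold ip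
  rw [zonA_int (V_mul (zonA_mem n hn) hq)]
  have h4 : ∫ τ in (-1:ℝ)..1, cm (fun x => LP n (x 2) * q x) τ =
      ∫ τ in (-1:ℝ)..1, LP n τ * u.eval τ := by
    refine intervalIntegral.integral_congr fun τ hτ => ?_
    rw [Set.uIcc_of_le (by norm_num)] at hτ
    have h5 := zonA_cm_mul q (fun t => LP n t) τ
    have h6 : (fun x : E3 => LP n (x 2) * q x) = fun x => q x * LP n (x 2) :=
      funext fun x => mul_comm _ _
    show cm (fun x => LP n (x 2) * q x) τ = LP n τ * u.eval τ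
    rw [h6, h5, hu2 τ (abs_le.2 hτ), mul_comm]
  rw [h4, zonA_LPmul hn hm u hu1, mul_zero]

theorem AA_A1 {n : ℕ} (hn : n = 2 ∨ n = 3) {h : E3 → ℝ} (hh : HH n h) :
    AA n (e 2) h = A1 h := by
  have hn6 : n ≤ 6 := by omega
  have h1 : ∫ τ in (-1:ℝ)..1, cm h τ ^ 2 = h (e 2) ^ 2 * ∫ τ in (-1:ℝ)..1, LP n τ ^ 2 := by
    rw [← intervalIntegral.integral_const_mul]
    refine intervalIntegral.integral_congr fun τ hτ => ?_
    rw [Set.uIcc_of_le (by norm_num)] at hτ
    show cm h τ ^ 2 = h (e 2) ^ 2 * LP n τ ^ 2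
    rw [zonal hn6 hh τ (abs_le.2 hτ)]
    ring
  unfold AA A1
  rw [h1]
  rcases hn with rfl | rfl
  · rw [LP_sq.1]
    push_cast
    ring
  · rw [LP_sq.2]
    push_cast
    ring

end STH
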