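import Pool.Agent.Lib_helper59.STH.Defs
import Pool.Agent.Lib_helper59.STHF.haaB
import Pool.Agent.Lib_helper59.STHF.zonA
import Pool.Agent.Lib_helper59.STHF.cmpA
import Pool.Agent.Lib_helper59.STHF.xxB
import Pool.Agent.Lib_helper59.STHF.gooA
import Pool.Agent.Lib_helper59.STHF.valg
import Pool.Agent.Lib_helper15.STE.B.sigA
import Pool.Agent.Lib_helper15.STE.B.sigC

/-! # STH, block haaC -/

open MeasureTheory Filter Topology
open Pool.Agent.Lib_helper15.STE
open scoped InnerProductSpace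

namespace STH

theorem haaC_inner (i : Fin 3) (x : E3) : ⟪e i, x⟫_ℝ = x i := by
  unfold e
  rw [EuclideanSpace.inner_single_left]
  simp

theorem haaC_norm_e (i : Fin 3) : ‖e i‖ = 1 := by
  unfold e
  simp

theorem haaC_abs {x : E3} (hx : ‖x‖ = 1) (i : Fin 3) : |x i| ≤ 1 := by
  have h1 := abs_real_inner_le_norm (e i) x
  rwa [haaC_inner, haaC_norm_e, hx, mul_one] at h1

theorem haaC_iso (m : E3 ≃ₗᵢ[ℝ] E3) (x : E3) (hx : ‖x‖ = 1) (hm : m (e 2) = x) (φ : ℝ) :
    ∃ k : E3 ≃ₗᵢ[ℝ] E3, k x = x ∧ k (e 2) = m (pt (x 2) φ) := by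
  have hpt : ‖pt (x 2) φ‖ = 1 := sigC_pt_norm _ _ (haaC_abs hx 2)
  have hin : ⟪x, e 2 - m (pt (x 2) φ)⟫_ℝ = 0 := by
    rw [inner_sub_right]
    have h1 : ⟪x, e 2⟫_ℝ = x 2 := by rw [real_inner_comm, haaC_inner]
    have h2 : ⟪x, m (pt (x 2) φ)⟫_ℝ = x 2 := by
      nth_rewrite 1 [← hm]
      rw [LinearIsometryEquiv.inner_map_map, haaC_inner]
      simp [pt]
    rw [h1, h2, sub_self]
  refine ⟨(Submodule.span ℝ {e 2 - m (pt (x 2) φ)})ᗮ.reflection, ?_, ?_⟩
  · apply Submodule.reflection_mem_subspace_eq_self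
    rw [Submodule.mem_orthogonal_singleton_iff_inner_left]
    exact hin
  · apply Submodule.reflection_sub
    rw [haaC_norm_e, LinearIsometryEquiv.norm_map, hpt]

theorem avg_zonal {Γ : Type} [MeasurableSpace Γ] {H : Measure Γ} {γ : Γ → (E3 ≃ₗᵢ[ℝ] E3)}
    (hH : Haar H γ) (F : E3 → ℝ) (hF : Good F) {n : ℕ} (hn : n ≤ 6) {h : E3 → ℝ} (hh : HH n h)
    (x : E3) (hx : ‖x‖ = 1) : ∫ g, F (γ g x) * h (γ g (e 2)) ∂H = LP n (x 2) * ip F h := by
  have hprob := hH.prob
  have hhG : Good h := good_V hh.mem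
  obtain ⟨C, hC⟩ := hF.bdd
  obtain ⟨C', hC'⟩ := hhG.bdd
  obtain ⟨m, hm⟩ := exists_iso x hx
  have hpt : ∀ φ, ‖pt (x 2) φ‖ = 1 := fun φ => sigC_pt_norm _ _ (haaC_abs hx 2)
  have hmx : ∀ y : E3, Measurable (fun g => γ g y) := fun y =>
    hH.meas.comp (measurable_id.prodMk measurable_const)
  -- step 1: invariance
  have h1 : ∀ φ : ℝ, ∫ g, F (γ g x) * h (γ g (e 2)) ∂H =
      ∫ g, F (γ g x) * h (γ g (m (pt (x 2) φ))) ∂H := by
    intro φ
    obtain ⟨k, hk1, hk2⟩ := haaC_iso m x hx hm φ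
    have h2 := hH.inv k x (e 2)
    rw [hk1, hk2] at h2
    have hfm : AEStronglyMeasurable (fun p : E3 × E3 => F p.1 * h p.2)
        (H.map (fun g => (γ g x, γ g (e 2)))) :=
      ((hF.meas.comp measurable_fst).mul (hhG.meas.comp measurable_snd)).aestronglyMeasurable
    have hfm' : AEStronglyMeasurable (fun p : E3 × E3 => F p.1 * h p.2)
        (H.map (fun g => (γ g x, γ g (m (pt (x 2) φ))))) :=
      ((hF.meas.comp measurable_fst).mul (hhG.meas.comp measurable_snd)).aestronglyMeasurable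
    have e1 := integral_map ((hmx x).prodMk (hmx (e 2))).aemeasurable hfm
    have e2 := integral_map ((hmx x).prodMk (hmx (m (pt (x 2) φ)))).aemeasurable hfm'
    rw [h2] at e1
    rw [← e1, e2]
  -- step 2: average over the angle
  have h3 : ∫ g, F (γ g x) * h (γ g (e 2)) ∂H =
      (2 * Real.pi)⁻¹ * ∫ φ in (-Real.pi)..Real.pi,
        ∫ g, F (γ g x) * h (γ g (m (pt (x 2) φ))) ∂H := by
    have h4 : ∀ φ : ℝ, ∫ g, F (γ g x) * h (γ g (m (pt (x 2) φ))) ∂H =
        ∫ g, F (γ g x) * h (γ g (e 2)) ∂H := fun φ => (h1 φ).symm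
    simp only [h4]
    rw [intervalIntegral.integral_const, smul_eq_mul]
    have hpi := Real.pi_pos
    field_simp
    ring
  have hpts : Continuous (fun φ : ℝ => m (pt (x 2) φ)) := by
    have h5 : Continuous (fun φ : ℝ => pt (x 2) φ) :=
      sigC_pt_cont.comp (by fun_prop : Continuous (fun φ : ℝ => (x 2, φ)))
    exact m.continuous.comp h5
  have hmeas2 : Measurable (fun p : ℝ × Γ => F (γ p.2 x) * h (γ p.2 (m (pt (x 2) p.1)))) := by
    have h6 : Measurable (fun p : ℝ × Γ => γ p.2 (m (pt (x 2) p.1))) :=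
      hH.meas.comp (measurable_snd.prodMk (hpts.measurable.comp measurable_fst))
    exact (hF.meas.comp ((hmx x).comp measurable_snd)).mul (hhG.meas.comp h6)
  have hbd : ∀ p : ℝ × Γ, ‖F (γ p.2 x) * h (γ p.2 (m (pt (x 2) p.1)))‖ ≤ C * C' := by
    intro p
    rw [norm_mul]
    have h7 : ‖γ p.2 x‖ = 1 := by rw [LinearIsometryEquiv.norm_map, hx]
    have h8 : ‖γ p.2 (m (pt (x 2) p.1))‖ = 1 := by
      rw [LinearIsometryEquiv.norm_map, LinearIsometryEquiv.norm_map, hpt]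
    have h9 := hC _ h7
    exact mul_le_mul h9 (hC' _ h8) (norm_nonneg _) ((abs_nonneg _).trans h9)
  have hle : -Real.pi ≤ Real.pi := by linarith [Real.pi_pos]
  have h10 : ∫ φ in (-Real.pi)..Real.pi, ∫ g, F (γ g x) * h (γ g (m (pt (x 2) φ))) ∂H =
      ∫ g, (∫ φ in (-Real.pi)..Real.pi, F (γ g x) * h (γ g (m (pt (x 2) φ)))) ∂H := by
    rw [intervalIntegral.integral_of_le hle]
    rw [integral_integral_swap]
    · congr 1
      ext g
      rw [intervalIntegral.integral_of_le hle]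
    · exact Integrable.of_bound hmeas2.aestronglyMeasurable (C * C')
        (Eventually.of_forall fun p => hbd p)
  rw [h3, h10]
  have h11 : ∀ g, ∫ φ in (-Real.pi)..Real.pi, F (γ g x) * h (γ g (m (pt (x 2) φ))) =
      (2 * Real.pi) * (LP n (x 2) * (F (γ g x) * h (γ g x))) := by
    intro g
    rw [intervalIntegral.integral_const_mul]
    have h12 := zonal hn (HH_comp hh (m.trans (γ g))) (x 2) (haaC_abs hx 2)
    have h13 : cm (h ∘ (m.trans (γ g))) (x 2) =
        (2 * Real.pi)⁻¹ * ∫ φ in (-Real.pi)..Real.pi, h (γ g (m (pt (x 2) φ))) := rfl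
    have h14 : (h ∘ (m.trans (γ g))) (e 2) = h (γ g x) := by
      simp only [Function.comp_apply, LinearIsometryEquiv.trans_apply, hm]
    rw [h13, h14] at h12
    have hpi : (2 * Real.pi) ≠ 0 := by positivity
    have h15 : ∫ φ in (-Real.pi)..Real.pi, h (γ g (m (pt (x 2) φ))) =
        (2 * Real.pi) * (h (γ g x) * LP n (x 2)) := by
      rw [← h12]
      field_simp
    rw [h15]
    ring
  simp only [h11]
  rw [integral_const_mul, integral_const_mul]
  have h16 : ∫ g, F (γ g x) * h (γ g x) ∂H = ip F h := by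
    unfold ip
    rw [← avg_point hH x hx, integral_map (hmx x).aemeasurable]
    exact (hF.meas.mul hhG.meas).aestronglyMeasurable
  rw [h16]
  have hpi : (2 * Real.pi) ≠ 0 := by positivity
  field_simp

end STH
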