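import Pool.Agent.Lib_helper59.STH.Defs
import Pool.Agent.Lib_helper59.STHF.valg
import Pool.Agent.Lib_helper59.STHF.gooA
import Pool.Agent.Lib_helper15.STE.B.sigA

/-! # STH, block parA -/

open MeasureTheory Filter Topology
open Pool.Agent.Lib_helper15.STE

namespace STH

/-- bounded on the sphere and measurable -/
def parA_B (f : E3 → ℝ) : Prop := Measurable f ∧ ∃ C, ∀ x : E3, ‖x‖ = 1 → |f x| ≤ C

theorem parA_good {F : E3 → ℝ} (h : Good F) : parA_B F := ⟨h.meas, h.bdd⟩

theorem parA_V {n : ℕ} {p : E3 → ℝ} (h : p ∈ V n) : parA_B p := parA_good (good_V h)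

theorem parA_add {f g : E3 → ℝ} (hf : parA_B f) (hg : parA_B g) : parA_B (fun x => f x + g x) := by
  obtain ⟨h1, C, h2⟩ := hf
  obtain ⟨h3, D, h4⟩ := hg
  exact ⟨h1.add h3, C + D, fun x hx => (abs_add_le _ _).trans (add_le_add (h2 x hx) (h4 x hx))⟩

theorem parA_sub {f g : E3 → ℝ} (hf : parA_B f) (hg : parA_B g) : parA_B (fun x => f x - g x) := by
  obtain ⟨h1, C, h2⟩ := hf
  obtain ⟨h3, D, h4⟩ := hg
  exact ⟨h1.sub h3, C + D, fun x hx => (abs_sub _ _).trans (add_le_add (h2 x hx) (h4 x hx))⟩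

theorem parA_mul {f g : E3 → ℝ} (hf : parA_B f) (hg : parA_B g) : parA_B (fun x => f x * g x) := by
  obtain ⟨h1, C, h2⟩ := hf
  obtain ⟨h3, D, h4⟩ := hg
  refine ⟨h1.mul h3, C * D, fun x hx => ?_⟩
  rw [abs_mul]
  exact mul_le_mul (h2 x hx) (h4 x hx) (abs_nonneg _) ((abs_nonneg _).trans (h2 x hx))

theorem parA_sum {ι : Type} (s : Finset ι) {f : ι → E3 → ℝ} (hf : ∀ i, parA_B (f i)) :
    parA_B (fun x => ∑ i ∈ s, f i x) := by
  classical
  induction s using Finset.induction_on with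
  | empty => exact ⟨by simp, 0, fun x _ => by simp⟩
  | insert a s ha ih =>
    simp only [Finset.sum_insert ha]
    exact parA_add (hf a) ih

theorem parA_int {f : E3 → ℝ} (hf : parA_B f) : Integrable f sig := by
  have := sigA_prob
  obtain ⟨h1, C, h2⟩ := hf
  refine Integrable.of_bound h1.aestronglyMeasurable C ?_
  filter_upwards [sigA_sphere] with x hx
  exact h2 x hx

theorem parA_comm (f g : E3 → ℝ) : ip f g = ip g f := by
  unfold ip
  simp only [mul_comm]

theorem parA_ip_add {f g q : E3 → ℝ} (hf : parA_B f) (hg : parA_B g) (hq : parA_B q) :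
    ip (fun x => f x + g x) q = ip f q + ip g q := by
  unfold ip
  rw [← integral_add (parA_int (parA_mul hf hq)) (parA_int (parA_mul hg hq))]
  simp only [add_mul]

theorem parA_ip_sub {f g q : E3 → ℝ} (hf : parA_B f) (hg : parA_B g) (hq : parA_B q) :
    ip (fun x => f x - g x) q = ip f q - ip g q := by
  unfold ip
  rw [← integral_sub (parA_int (parA_mul hf hq)) (parA_int (parA_mul hg hq))]
  simp only [sub_mul]

theorem parA_ip_sum {ι : Type} (s : Finset ι) {f : ι → E3 → ℝ} {q : E3 → ℝ}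
    (hf : ∀ i, parA_B (f i)) (hq : parA_B q) :
    ip (fun x => ∑ i ∈ s, f i x) q = ∑ i ∈ s, ip (f i) q := by
  unfold ip
  rw [← integral_finsetSum s (fun i _ => parA_int (parA_mul (hf i) hq))]
  simp only [Finset.sum_mul]

theorem parA_nonneg (f : E3 → ℝ) : 0 ≤ ip f f := by
  unfold ip
  exact integral_nonneg fun x => mul_self_nonneg _

theorem parA_sumV (f : ℕ → E3 → ℝ) (hf : ∀ k, HH k (f k)) (n : ℕ) :
    (fun x => ∑ k ∈ Finset.range (n + 1), f k x) ∈ V n := by
  have h1 : (fun x => ∑ k ∈ Finset.range (n + 1), f k x) = ∑ k ∈ Finset.range (n + 1), f k := by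
    funext x
    rw [Finset.sum_apply]
  rw [h1]
  refine Submodule.sum_mem _ fun k hk => V_mono ?_ (hf k).mem
  have := Finset.mem_range.1 hk
  omega

theorem ip_orth {m n : ℕ} (hmn : m ≠ n) {p q : E3 → ℝ} (hp : HH m p) (hq : HH n q) :
    ip p q = 0 := by
  rcases lt_or_gt_of_ne hmn with h | h
  · rw [parA_comm]
    exact hq.orth m h p hp.mem
  · exact hp.orth n h q hq.mem

theorem parA_sq (f : ℕ → E3 → ℝ) (hf : ∀ k, HH k (f k)) (n : ℕ) :
    ip (fun x => ∑ k ∈ Finset.range (n + 1), f k x) (fun x => ∑ k ∈ Finset.range (n + 1), f k x)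
      = ∑ k ∈ Finset.range (n + 1), ip (f k) (f k) := by
  have hB : ∀ k, parA_B (f k) := fun k => parA_V (hf k).mem
  rw [parA_ip_sum _ hB (parA_sum _ hB)]
  refine Finset.sum_congr rfl fun k hk => ?_
  rw [parA_comm, parA_ip_sum _ hB (hB k), Finset.sum_eq_single k]
  · intro j _ hj
    exact ip_orth hj (hf j) (hf k)
  · intro h
    exact absurd hk h

theorem dec_split {F : E3 → ℝ} (hF : Good F) {f : ℕ → E3 → ℝ} (hf : Dec F f) (n : ℕ) :
    ff F = ∑ k ∈ Finset.range (n + 1), ip (f k) (f k) +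
      ip (fun x => F x - ∑ k ∈ Finset.range (n + 1), f k x)
        (fun x => F x - ∑ k ∈ Finset.range (n + 1), f k x) := by
  have hB : ∀ k, parA_B (f k) := fun k => parA_V (hf.hh k).mem
  have hP : parA_B (fun x => ∑ k ∈ Finset.range (n + 1), f k x) := parA_sum _ hB
  have hF' := parA_good hF
  have hR := parA_sub hF' hP
  have h1 := hf.proj n _ (parA_sumV f hf.hh n)
  have h2 : ff F = ip F F := by
    unfold ff ip
    simp only [pow_two]
  have h3 : ip (fun x => F x - ∑ k ∈ Finset.range (n + 1), f k x) F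
      = ip (fun x => F x - ∑ k ∈ Finset.range (n + 1), f k x)
        (fun x => F x - ∑ k ∈ Finset.range (n + 1), f k x) := by
    rw [parA_comm _ (fun x => F x - ∑ k ∈ Finset.range (n + 1), f k x),
      parA_ip_sub hF' hP hR, parA_comm _ (fun x => F x - ∑ k ∈ Finset.range (n + 1), f k x),
      parA_comm (fun x => ∑ k ∈ Finset.range (n + 1), f k x), h1, sub_zero]
  have h4 : ip F F = ip (fun x => F x - ∑ k ∈ Finset.range (n + 1), f k x) F
      + ip (fun x => ∑ k ∈ Finset.range (n + 1), f k x) F := by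
    rw [parA_ip_sub hF' hP hF']
    ring
  have h5 : ip (fun x => ∑ k ∈ Finset.range (n + 1), f k x) F
      = ip (fun x => ∑ k ∈ Finset.range (n + 1), f k x)
        (fun x => ∑ k ∈ Finset.range (n + 1), f k x) := by
    have h6 := h1
    rw [parA_ip_sub hF' hP hP] at h6
    rw [parA_comm _ F]
    linarith
  rw [h2, h4, h3, h5, parA_sq f hf.hh n]
  ring

theorem parseval {F : E3 → ℝ} (hF : Good F) {f : ℕ → E3 → ℝ} (hf : Dec F f) :
    HasSum (fun k => ip (f k) (f k)) (ff F) := by
  rw [hasSum_iff_tendsto_nat_of_nonneg (fun k => parA_nonneg (f k))]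
  rw [← tendsto_add_atTop_iff_nat 1]
  have h1 : (fun n => ∑ i ∈ Finset.range (n + 1), ip (f i) (f i)) = fun n => ff F -
      ip (fun x => F x - ∑ k ∈ Finset.range (n + 1), f k x)
        (fun x => F x - ∑ k ∈ Finset.range (n + 1), f k x) := by
    funext n
    rw [dec_split hF hf n]
    ring
  rw [h1]
  have h2 := hf.lim.const_sub (ff F)
  rwa [sub_zero] at h2

end STH
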