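import Pool.Agent.Lib_helper59.STH.Defs
import Pool.Agent.Lib_helper59.STHF.haaB
import Pool.Agent.Lib_helper59.STHF.haaC
import Pool.Agent.Lib_helper59.STHF.parA
import Pool.Agent.Lib_helper59.STHF.gooA
import Pool.Agent.Lib_helper59.STHF.valg
import Pool.Agent.Lib_helper15.STE.B.sigA
import Pool.Agent.Lib_helper15.STE.B.sigC

/-! # STH, block haaE -/

open MeasureTheory Filter Topology
open Pool.Agent.Lib_helper15.STE

namespace STH

theorem haaE_m3 {Γ : Type} [MeasurableSpace Γ] {H : Measure Γ} {γ : Γ → (E3 ≃ₗᵢ[ℝ] E3)}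
    (hH : Haar H γ) {u : E3 → ℝ} (hu : Measurable u) :
    Measurable (fun q : (Γ × ℝ) × ℝ => u (γ q.1.1 (pt q.1.2 q.2))) := by
  have h1 : Measurable (fun q : (Γ × ℝ) × ℝ => (q.1.1, pt q.1.2 q.2)) := by
    apply Measurable.prodMk
    · exact measurable_fst.fst
    · exact sigC_pt_cont.measurable.comp (measurable_fst.snd.prodMk measurable_snd)
  exact hu.comp (hH.meas.comp h1)

theorem haaE_cm (u : E3 → ℝ) (τ : ℝ) :
    cm u τ = (2 * Real.pi)⁻¹ * ∫ φ in Set.Ioc (-Real.pi) Real.pi, u (pt τ φ) := by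
  unfold cm av
  rw [intervalIntegral.integral_of_le (by linarith [Real.pi_pos])]

theorem haaE_m2 {Γ : Type} [MeasurableSpace Γ] {H : Measure Γ} {γ : Γ → (E3 ≃ₗᵢ[ℝ] E3)}
    (hH : Haar H γ) {u : E3 → ℝ} (hu : Measurable u) :
    Measurable (fun p : Γ × ℝ => cm (fun x => u (γ p.1 x)) p.2) := by
  have h := (haaE_m3 hH hu).stronglyMeasurable.integral_prod_right'
    (ν := volume.restrict (Set.Ioc (-Real.pi) Real.pi))
  simp_rw [haaE_cm]
  exact h.measurable.const_mul _

theorem haaE_m1 {Γ : Type} [MeasurableSpace Γ] {H : Measure Γ} {γ : Γ → (E3 ≃ₗᵢ[ℝ] E3)}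
    (hH : Haar H γ) (x : E3) : Measurable fun g => γ g x :=
  hH.meas.comp (measurable_id.prodMk measurable_const)

theorem haaE_swap {Γ : Type} [MeasurableSpace Γ] {H : Measure Γ} {γ : Γ → (E3 ≃ₗᵢ[ℝ] E3)}
    (hH : Haar H γ) {u : E3 → ℝ} (hu : Measurable u) {C : ℝ} (hC : ∀ x, ‖x‖ = 1 → |u x| ≤ C)
    {w : Γ → ℝ} (hw : Measurable w) {C' : ℝ} (hC' : ∀ g, |w g| ≤ C') (τ : ℝ) (hτ : |τ| ≤ 1)
    (c : ℝ) (hc : ∀ φ, ∫ g, u (γ g (pt τ φ)) * w g ∂H = c) :
    ∫ g, cm (fun x => u (γ g x)) τ * w g ∂H = c := by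
  have := hH.prob
  have hpi := Real.pi_pos
  have hC0 : 0 ≤ C := (abs_nonneg _).trans (hC (pt τ 0) (sigC_pt_norm τ 0 hτ))
  have hm : Measurable (fun q : Γ × ℝ => u (γ q.1 (pt τ q.2)) * w q.1) := by
    have h1 : Measurable (fun q : Γ × ℝ => u (γ q.1 (pt τ q.2))) :=
      (haaE_m3 hH hu).comp ((measurable_fst.prodMk measurable_const).prodMk measurable_snd)
    exact h1.mul (hw.comp measurable_fst)
  have hi : Integrable (fun q : Γ × ℝ => u (γ q.1 (pt τ q.2)) * w q.1)
      (H.prod (volume.restrict (Set.Ioc (-Real.pi) Real.pi))) := by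
    apply Integrable.of_bound hm.aestronglyMeasurable (C * C')
    apply Filter.Eventually.of_forall
    intro q
    rw [Real.norm_eq_abs, abs_mul]
    apply mul_le_mul _ (hC' q.1) (abs_nonneg _) hC0
    apply hC
    rw [LinearIsometryEquiv.norm_map]
    exact sigC_pt_norm τ q.2 hτ
  calc ∫ g, cm (fun x => u (γ g x)) τ * w g ∂H
      = ∫ g, (2 * Real.pi)⁻¹ *
          (∫ φ in Set.Ioc (-Real.pi) Real.pi, u (γ g (pt τ φ)) * w g) ∂H := by
        congr 1
        funext g
        rw [haaE_cm, integral_mul_const]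
        ring
    _ = (2 * Real.pi)⁻¹ * ∫ g, (∫ φ in Set.Ioc (-Real.pi) Real.pi, u (γ g (pt τ φ)) * w g) ∂H :=
        integral_const_mul _ _
    _ = (2 * Real.pi)⁻¹ * ∫ φ in Set.Ioc (-Real.pi) Real.pi, (∫ g, u (γ g (pt τ φ)) * w g ∂H) := by
        rw [integral_integral_swap hi]
    _ = c := by
        simp_rw [hc]
        rw [setIntegral_const, smul_eq_mul]
        simp only [Measure.real, Real.volume_Ioc]
        rw [ENNReal.toReal_ofReal (by linarith)]
        field_simp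
        ring

theorem haaE_pt {Γ : Type} [MeasurableSpace Γ] {H : Measure Γ} {γ : Γ → (E3 ≃ₗᵢ[ℝ] E3)}
    (hH : Haar H γ) {u : E3 → ℝ} (hu : Measurable u) (x : E3) (hx : ‖x‖ = 1) :
    ∫ g, u (γ g x) ∂H = ∫ y, u y ∂sig := by
  rw [← avg_point hH x hx, integral_map (haaE_m1 hH x).aemeasurable hu.aestronglyMeasurable]

theorem haaE_e2 : ‖e 2‖ = 1 := by
  simp [e]

theorem haaE_pt2 (τ φ : ℝ) : (pt τ φ) 2 = τ := by
  simp [pt]

theorem haaE_LP : ∀ k, Continuous (LP k)
  | 0 => by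
    show Continuous fun _ : ℝ => (1 : ℝ)
    fun_prop
  | 1 => by
    show Continuous fun τ : ℝ => τ
    fun_prop
  | 2 => by
    show Continuous fun τ : ℝ => (3 * τ ^ 2 - 1) / 2
    fun_prop
  | 3 => by
    show Continuous fun τ : ℝ => (5 * τ ^ 3 - 3 * τ) / 2
    fun_prop
  | 4 => by
    show Continuous fun τ : ℝ => (35 * τ ^ 4 - 30 * τ ^ 2 + 3) / 8
    fun_prop
  | 5 => by
    show Continuous fun τ : ℝ => (63 * τ ^ 5 - 70 * τ ^ 3 + 15 * τ) / 8
    fun_prop
  | 6 => by
    show Continuous fun τ : ℝ => (231 * τ ^ 6 - 315 * τ ^ 4 + 105 * τ ^ 2 - 5) / 16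
    fun_prop
  | n + 7 => by
    show Continuous fun _ : ℝ => (0 : ℝ)
    fun_prop

/-- the lower bound for the mean square of the circle means -/
theorem haaE_low {Γ : Type} [MeasurableSpace Γ] {H : Measure Γ} {γ : Γ → (E3 ≃ₗᵢ[ℝ] E3)}
    (hH : Haar H γ) (F : E3 → ℝ) (hF : Good F) (f : ℕ → E3 → ℝ) (hf : Dec F f) (τ : ℝ)
    (hτ : |τ| ≤ 1) :
    ∑ k ∈ Finset.range 7, LP k τ ^ 2 * ip (f k) (f k) ≤
      ∫ g, cm (fun x => F (γ g x)) τ ^ 2 ∂H := by
  have hpr := hH.prob
  obtain ⟨C, hC⟩ := hF.bdd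
  have hfg : ∀ k, Good (f k) := fun k => good_V (hf.hh k).mem
  have hfb : ∀ k, ∃ B, ∀ x : E3, ‖x‖ = 1 → |f k x| ≤ B := fun k => (hfg k).bdd
  choose B hB using hfb
  have hnorm : ∀ g, ‖γ g (e 2)‖ = 1 := fun g => by
    rw [LinearIsometryEquiv.norm_map]
    exact haaE_e2
  have hM : Measurable fun g => cm (fun x => F (γ g x)) τ :=
    (haaE_m2 hH hF.meas).comp (measurable_id.prodMk measurable_const)
  have hMb : ∀ g, |cm (fun x => F (γ g x)) τ| ≤ C := fun g =>
    sigC_cm_bound _ C (fun x hx => hC _ (by rw [LinearIsometryEquiv.norm_map]; exact hx)) τ hτ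
  have hfm : ∀ k, Measurable fun g => f k (γ g (e 2)) := fun k =>
    (hfg k).meas.comp (haaE_m1 hH (e 2))
  have hC0 : 0 ≤ C := (abs_nonneg _).trans (hC (e 2) haaE_e2)
  have hB0 : ∀ k, 0 ≤ B k := fun k => (abs_nonneg _).trans (hB k (e 2) haaE_e2)
  -- `ip F (f k) = ip (f k) (f k)`
  have hipF : ∀ k, ip F (f k) = ip (f k) (f k) := by
    intro k
    have h1 := hf.proj k (f k) (hf.hh k).mem
    have hFi : Integrable (fun x => F x * f k x) sig := by
      have hg := hF.mul (hfg k)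
      obtain ⟨D, hD⟩ := hg.bdd
      exact (sigC_integral _ hg.meas D hD).1
    have hfi : ∀ j, Integrable (fun x => f j x * f k x) sig := by
      intro j
      have hg := (hfg j).mul (hfg k)
      obtain ⟨D, hD⟩ := hg.bdd
      exact (sigC_integral _ hg.meas D hD).1
    unfold ip at h1
    have h2 : ∫ x, (F x - ∑ j ∈ Finset.range (k + 1), f j x) * f k x ∂sig =
        ∫ x, F x * f k x ∂sig - ∑ j ∈ Finset.range (k + 1), ∫ x, f j x * f k x ∂sig := by
      rw [← integral_finsetSum _ (fun j _ => hfi j), ← integral_sub hFi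
        (integrable_finsetSum _ (fun j _ => hfi j))]
      congr 1
      funext x
      rw [sub_mul, Finset.sum_mul]
    rw [h2] at h1
    have h3 : ∑ j ∈ Finset.range (k + 1), ∫ x, f j x * f k x ∂sig = ip (f k) (f k) := by
      rw [Finset.sum_range_succ, Finset.sum_eq_zero, zero_add]
      · rfl
      · intro j hj
        rw [Finset.mem_range] at hj
        exact ip_orth (Nat.ne_of_lt hj) (hf.hh j) (hf.hh k)
    rw [h3] at h1
    unfold ip at h1 ⊢
    linarith
  -- the mean of `M * f k`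
  have hMf : ∀ k < 7, ∫ g, cm (fun x => F (γ g x)) τ * f k (γ g (e 2)) ∂H =
      LP k τ * ip (f k) (f k) := by
    intro k hk
    apply haaE_swap hH hF.meas hC (hfm k) (fun g => hB k _ (hnorm g)) τ hτ
    intro φ
    rw [avg_zonal hH F hF (by omega) (hf.hh k) (pt τ φ) (sigC_pt_norm τ φ hτ), haaE_pt2, hipF]
  have hff : ∀ j k, ∫ g, f j (γ g (e 2)) * f k (γ g (e 2)) ∂H = ip (f j) (f k) := by
    intro j k
    exact haaE_pt hH (u := fun x => f j x * f k x) ((hfg j).meas.mul (hfg k).meas) (e 2) haaE_e2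
  have hMi : Integrable (fun g => cm (fun x => F (γ g x)) τ ^ 2) H := by
    apply Integrable.of_bound (hM.pow_const 2).aestronglyMeasurable (C ^ 2)
    apply Filter.Eventually.of_forall
    intro g
    rw [Real.norm_eq_abs, abs_pow]
    exact pow_le_pow_left₀ (abs_nonneg _) (hMb g) 2
  have hMfi : ∀ k, Integrable (fun g => cm (fun x => F (γ g x)) τ * f k (γ g (e 2))) H := by
    intro k
    apply Integrable.of_bound (hM.mul (hfm k)).aestronglyMeasurable (C * B k)
    apply Filter.Eventually.of_forall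
    intro g
    show ‖cm (fun x => F (γ g x)) τ * f k (γ g (e 2))‖ ≤ C * B k
    rw [Real.norm_eq_abs, abs_mul]
    exact mul_le_mul (hMb g) (hB k _ (hnorm g)) (abs_nonneg _) hC0
  have hffi : ∀ j k, Integrable (fun g => f j (γ g (e 2)) * f k (γ g (e 2))) H := by
    intro j k
    apply Integrable.of_bound ((hfm j).mul (hfm k)).aestronglyMeasurable (B j * B k)
    apply Filter.Eventually.of_forall
    intro g
    show ‖f j (γ g (e 2)) * f k (γ g (e 2))‖ ≤ B j * B k
    rw [Real.norm_eq_abs, abs_mul]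
    exact mul_le_mul (hB j _ (hnorm g)) (hB k _ (hnorm g)) (abs_nonneg _) (hB0 j)
  -- the square
  have hsq : ∀ g, (cm (fun x => F (γ g x)) τ - ∑ k ∈ Finset.range 7, LP k τ * f k (γ g (e 2))) ^ 2 =
      cm (fun x => F (γ g x)) τ ^ 2 -
        2 * ∑ k ∈ Finset.range 7, LP k τ * (cm (fun x => F (γ g x)) τ * f k (γ g (e 2))) +
        ∑ j ∈ Finset.range 7, ∑ k ∈ Finset.range 7,
          LP j τ * LP k τ * (f j (γ g (e 2)) * f k (γ g (e 2))) := by
    intro g
    have e1 : (∑ k ∈ Finset.range 7, LP k τ * f k (γ g (e 2))) ^ 2 =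
        ∑ j ∈ Finset.range 7, ∑ k ∈ Finset.range 7,
          LP j τ * LP k τ * (f j (γ g (e 2)) * f k (γ g (e 2))) := by
      rw [sq, Finset.sum_mul_sum]
      apply Finset.sum_congr rfl
      intro j _
      apply Finset.sum_congr rfl
      intro k _
      ring
    have e2 : ∑ k ∈ Finset.range 7, LP k τ * (cm (fun x => F (γ g x)) τ * f k (γ g (e 2))) =
        cm (fun x => F (γ g x)) τ * ∑ k ∈ Finset.range 7, LP k τ * f k (γ g (e 2)) := by
      rw [Finset.mul_sum]
      apply Finset.sum_congr rfl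
      intro k _
      ring
    rw [sub_sq, e1, e2]
    ring
  have h0 : 0 ≤ ∫ g, (cm (fun x => F (γ g x)) τ -
      ∑ k ∈ Finset.range 7, LP k τ * f k (γ g (e 2))) ^ 2 ∂H :=
    integral_nonneg fun g => sq_nonneg _
  have hI2 : Integrable (fun g => 2 * ∑ k ∈ Finset.range 7,
      LP k τ * (cm (fun x => F (γ g x)) τ * f k (γ g (e 2)))) H :=
    (integrable_finsetSum _ fun k _ => (hMfi k).const_mul _).const_mul _
  have hI3 : Integrable (fun g => ∑ j ∈ Finset.range 7, ∑ k ∈ Finset.range 7,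
      LP j τ * LP k τ * (f j (γ g (e 2)) * f k (γ g (e 2)))) H :=
    integrable_finsetSum _ fun j _ => integrable_finsetSum _ fun k _ => (hffi j k).const_mul _
  simp_rw [hsq] at h0
  have hI4 : Integrable (fun g => cm (fun x => F (γ g x)) τ ^ 2 - 2 * ∑ k ∈ Finset.range 7,
      LP k τ * (cm (fun x => F (γ g x)) τ * f k (γ g (e 2)))) H := hMi.sub hI2
  rw [integral_add hI4 hI3, integral_sub hMi hI2, integral_const_mul,
    integral_finsetSum _ (fun k _ => (hMfi k).const_mul _),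
    integral_finsetSum _ (fun j _ => integrable_finsetSum _ fun k _ => (hffi j k).const_mul _)] at h0
  have e3 : ∑ k ∈ Finset.range 7, ∫ g, LP k τ * (cm (fun x => F (γ g x)) τ * f k (γ g (e 2))) ∂H =
      ∑ k ∈ Finset.range 7, LP k τ ^ 2 * ip (f k) (f k) := by
    apply Finset.sum_congr rfl
    intro k hk
    rw [integral_const_mul, hMf k (Finset.mem_range.mp hk)]
    ring
  have e4 : ∑ j ∈ Finset.range 7, ∫ g, ∑ k ∈ Finset.range 7,
      LP j τ * LP k τ * (f j (γ g (e 2)) * f k (γ g (e 2))) ∂H =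
      ∑ k ∈ Finset.range 7, LP k τ ^ 2 * ip (f k) (f k) := by
    apply Finset.sum_congr rfl
    intro j hj
    rw [integral_finsetSum _ (fun k _ => (hffi j k).const_mul _)]
    rw [Finset.sum_eq_single j]
    · rw [integral_const_mul, hff]
      ring
    · intro k _ hkj
      rw [integral_const_mul, hff, ip_orth (Ne.symm hkj) (hf.hh j) (hf.hh k), mul_zero]
    · intro h
      exact absurd hj h
  rw [e3, e4] at h0
  linarith

theorem avg_Var {Γ : Type} [MeasurableSpace Γ] {H : Measure Γ} {γ : Γ → (E3 ≃ₗᵢ[ℝ] E3)}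
    (hH : Haar H γ) (F : E3 → ℝ) (hF : Good F) (f : ℕ → E3 → ℝ) (hf : Dec F f) (a b : ℝ)
    (ha : -1 ≤ a) (hab : a ≤ b) (hb : b ≤ 1) :
    Integrable (fun g => Var (F ∘ γ g) a b) H ∧ ∫ g, Var (F ∘ γ g) a b ∂H ≤
      ∫ τ in a..b, (ff F - ∑ k ∈ Finset.range 7, LP k τ ^ 2 * ip (f k) (f k)) := by
  have hpr := hH.prob
  obtain ⟨C, hC⟩ := hF.bdd
  have hC0 : 0 ≤ C := (abs_nonneg _).trans (hC (e 2) haaE_e2)
  have hF2m : Measurable fun x => F x ^ 2 := hF.meas.pow_const 2
  have hC2 : ∀ x, ‖x‖ = 1 → |F x ^ 2| ≤ C ^ 2 := fun x hx => by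
    rw [abs_pow]
    exact pow_le_pow_left₀ (abs_nonneg _) (hC x hx) 2
  set D : Γ × ℝ → ℝ := fun p => cm (fun x => F (γ p.1 x) ^ 2) p.2 -
    cm (fun x => F (γ p.1 x)) p.2 ^ 2 with hD
  have hVar : ∀ g, Var (F ∘ γ g) a b = ∫ τ in Set.Ioc a b, D (g, τ) := by
    intro g
    unfold Var
    rw [intervalIntegral.integral_of_le hab]
    rfl
  have hm1 : Measurable (fun p : Γ × ℝ => cm (fun x => F (γ p.1 x) ^ 2) p.2) :=
    haaE_m2 hH (u := fun x => F x ^ 2) hF2m
  have hm2 : Measurable (fun p : Γ × ℝ => cm (fun x => F (γ p.1 x)) p.2) := haaE_m2 hH hF.meas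
  have hDm : Measurable D := hm1.sub (hm2.pow_const 2)
  have hin : ∀ τ ∈ Set.Ioc a b, |τ| ≤ 1 := fun τ hτ =>
    abs_le.mpr ⟨ha.trans hτ.1.le, hτ.2.trans hb⟩
  have hb1 : ∀ g τ, |τ| ≤ 1 → |cm (fun x => F (γ g x) ^ 2) τ| ≤ C ^ 2 := fun g τ hτ =>
    sigC_cm_bound _ (C ^ 2) (fun x hx => hC2 _ (by rw [LinearIsometryEquiv.norm_map]; exact hx))
      τ hτ
  have hb2 : ∀ g τ, |τ| ≤ 1 → |cm (fun x => F (γ g x)) τ ^ 2| ≤ C ^ 2 := fun g τ hτ => by
    rw [abs_pow]
    exact pow_le_pow_left₀ (abs_nonneg _) (sigC_cm_bound _ C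
      (fun x hx => hC _ (by rw [LinearIsometryEquiv.norm_map]; exact hx)) τ hτ) 2
  have hDi : Integrable D (H.prod (volume.restrict (Set.Ioc a b))) := by
    apply Integrable.of_bound hDm.aestronglyMeasurable (2 * C ^ 2)
    have hs : MeasurableSet {p : Γ × ℝ | ‖D p‖ ≤ 2 * C ^ 2} :=
      measurableSet_le hDm.norm measurable_const
    rw [show (∀ᵐ p ∂(H.prod (volume.restrict (Set.Ioc a b))), ‖D p‖ ≤ 2 * C ^ 2) ↔
      (∀ᵐ p ∂(H.prod (volume.restrict (Set.Ioc a b))), p ∈ {p : Γ × ℝ | ‖D p‖ ≤ 2 * C ^ 2}) from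
      Iff.rfl, Measure.ae_prod_mem_iff_ae_ae_mem hs]
    apply Filter.Eventually.of_forall
    intro g
    filter_upwards [ae_restrict_mem measurableSet_Ioc] with τ hτ
    show ‖D (g, τ)‖ ≤ 2 * C ^ 2
    rw [Real.norm_eq_abs, hD]
    refine (abs_sub _ _).trans ?_
    have := hb1 g τ (hin τ hτ)
    have := hb2 g τ (hin τ hτ)
    linarith
  refine ⟨?_, ?_⟩
  · simp_rw [hVar]
    exact hDi.integral_prod_left
  · simp_rw [hVar]
    rw [integral_integral_swap hDi, intervalIntegral.integral_of_le hab]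
    apply setIntegral_mono_on hDi.integral_prod_right
    · have hcont : Continuous fun τ : ℝ =>
          ff F - ∑ k ∈ Finset.range 7, LP k τ ^ 2 * ip (f k) (f k) := by
        apply Continuous.sub continuous_const
        apply continuous_finsetSum
        intro k hk
        apply Continuous.mul _ continuous_const
        exact (haaE_LP k).pow 2
      exact (hcont.integrableOn_Icc).mono_set Set.Ioc_subset_Icc_self
    · exact measurableSet_Ioc
    · intro τ hτ
      have hτ1 := hin τ hτ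
      have hi1 : Integrable (fun g => cm (fun x => F (γ g x) ^ 2) τ) H := by
        apply Integrable.of_bound
          (hm1.comp (measurable_id.prodMk measurable_const)).aestronglyMeasurable (C ^ 2)
        exact Filter.Eventually.of_forall fun g => hb1 g τ hτ1
      have hi2 : Integrable (fun g => cm (fun x => F (γ g x)) τ ^ 2) H := by
        apply Integrable.of_bound
          ((hm2.comp (measurable_id.prodMk measurable_const)).pow_const 2).aestronglyMeasurable
          (C ^ 2)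
        exact Filter.Eventually.of_forall fun g => hb2 g τ hτ1
      show ∫ g, (cm (fun x => F (γ g x) ^ 2) τ - cm (fun x => F (γ g x)) τ ^ 2) ∂H ≤ _
      rw [integral_sub hi1 hi2]
      have h1 : ∫ g, cm (fun x => F (γ g x) ^ 2) τ ∂H = ff F := by
        have := haaE_swap hH (u := fun x => F x ^ 2) hF2m hC2 (w := fun _ => 1) measurable_const
          (C' := 1) (fun _ => by simp) τ hτ1 (ff F) (by
            intro φ
            simp only [mul_one]
            exact haaE_pt hH hF2m _ (sigC_pt_norm τ φ hτ1))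
        simpa using this
      rw [h1]
      have h2 := haaE_low hH F hF f hf τ hτ1
      linarith

end STH
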