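import Pool.Agent.Lib_helper59.STH.Defs
import Pool.Agent.Lib_helper59.STHF.momA
import Pool.Agent.Lib_helper59.STHF.valg
import Pool.Agent.Lib_helper15.STE.B.sigA
import Pool.Agent.Lib_helper15.STE.B.sigC

/-! # STH, block frmA -/

open MeasureTheory Filter Topology
open Pool.Agent.Lib_helper15.STE

namespace STH

theorem frmA_meas (i j k : ℕ) : Measurable (mon i j k) := by
  have h : ∀ l : Fin 3, Measurable (fun x : E3 => x l) := fun l =>
    (EuclideanSpace.proj (𝕜 := ℝ) l : E3 →L[ℝ] ℝ).continuous.measurable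
  exact (((h 0).pow_const i).mul ((h 1).pow_const j)).mul ((h 2).pow_const k)

theorem frmA_bound (i j k : ℕ) (x : E3) (hx : ‖x‖ = 1) : |mon i j k x| ≤ 1 := by
  have hc : ∀ l : Fin 3, |x l| ≤ 1 := by
    intro l
    have h := PiLp.norm_apply_le x l
    rw [hx, Real.norm_eq_abs] at h
    exact h
  rw [mon, abs_mul, abs_mul, abs_pow, abs_pow, abs_pow]
  have h0 := pow_le_one₀ (n := i) (abs_nonneg _) (hc 0)
  have h1 := pow_le_one₀ (n := j) (abs_nonneg _) (hc 1)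
  have h2 := pow_le_one₀ (n := k) (abs_nonneg _) (hc 2)
  have h3 := mul_le_one₀ h0 (by positivity) h1
  exact mul_le_one₀ h3 (by positivity) h2

theorem frmA_integrable (i j k : ℕ) : Integrable (mon i j k) sig :=
  (sigC_integral _ (frmA_meas i j k) 1 (frmA_bound i j k)).1

theorem frmA_norm_sq (x : E3) : ‖x‖ ^ 2 = x 0 ^ 2 + x 1 ^ 2 + x 2 ^ 2 := by
  rw [EuclideanSpace.norm_sq_eq, Fin.sum_univ_three]
  simp only [Real.norm_eq_abs, sq_abs]

/-- the exponents of the monomials of degree at most two -/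
def frmA_m : Fin 10 → ℕ × ℕ × ℕ := ![(0, 0, 0), (1, 0, 0), (0, 1, 0), (0, 0, 1), (2, 0, 0),
  (0, 2, 0), (0, 0, 2), (1, 1, 0), (1, 0, 1), (0, 1, 1)]

theorem frmA_all' : ∀ i j k : Fin 3, i.1 + j.1 + k.1 ≤ 2 →
    ∃ l : Fin 10, frmA_m l = (i.1, j.1, k.1) := by
  decide

theorem frmA_all (i : ℕ) (hi : i < 3) (j : ℕ) (hj : j < 3) (k : ℕ) (hk : k < 3)
    (h : i + j + k ≤ 2) : ∃ l : Fin 10, frmA_m l = (i, j, k) :=
  frmA_all' ⟨i, hi⟩ ⟨j, hj⟩ ⟨k, hk⟩ h

theorem frmA_rep {p : E3 → ℝ} (hp : p ∈ V 2) : ∃ c : Fin 10 → ℝ, ∀ x,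
    p x = ∑ l, c l * mon (frmA_m l).1 (frmA_m l).2.1 (frmA_m l).2.2 x := by
  unfold V at hp
  induction hp using Submodule.span_induction with
  | mem p hp =>
    obtain ⟨i, j, k, h, rfl⟩ := hp
    obtain ⟨l, hl⟩ := frmA_all i (by omega) j (by omega) k (by omega) h
    refine ⟨Pi.single l 1, fun x => ?_⟩
    rw [Finset.sum_eq_single l]
    · rw [hl]; simp
    · intro m _ hm
      rw [Pi.single_eq_of_ne hm, zero_mul]
    · intro h; exact absurd (Finset.mem_univ _) h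
  | zero => exact ⟨0, fun x => by simp⟩
  | add p q _ _ h1 h2 =>
    obtain ⟨c, hc⟩ := h1
    obtain ⟨d, hd⟩ := h2
    refine ⟨c + d, fun x => ?_⟩
    rw [Pi.add_apply, hc, hd, ← Finset.sum_add_distrib]
    refine Finset.sum_congr rfl fun l _ => ?_
    rw [Pi.add_apply]; ring
  | smul a p _ h1 =>
    obtain ⟨c, hc⟩ := h1
    refine ⟨a • c, fun x => ?_⟩
    rw [Pi.smul_apply, hc, smul_eq_mul, Finset.mul_sum]
    refine Finset.sum_congr rfl fun l _ => ?_
    rw [Pi.smul_apply, smul_eq_mul]; ring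

/-- the inner product with a monomial -/
theorem frmA_ip {p : E3 → ℝ} (c : Fin 10 → ℝ)
    (hc : ∀ x, p x = ∑ l, c l * mon (frmA_m l).1 (frmA_m l).2.1 (frmA_m l).2.2 x) (i j k : ℕ) :
    ip p (mon i j k) =
      ∑ l, c l * ∫ x, mon ((frmA_m l).1 + i) ((frmA_m l).2.1 + j) ((frmA_m l).2.2 + k) x ∂sig := by
  have h1 : ∀ x, p x * mon i j k x =
      ∑ l, c l * mon ((frmA_m l).1 + i) ((frmA_m l).2.1 + j) ((frmA_m l).2.2 + k) x := by
    intro x
    rw [hc, Finset.sum_mul]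
    refine Finset.sum_congr rfl fun l _ => ?_
    simp only [mon]; ring
  rw [ip]
  simp only [h1]
  rw [integral_finsetSum _ fun l _ => (frmA_integrable _ _ _).const_mul _]
  refine Finset.sum_congr rfl fun l _ => ?_
  rw [integral_const_mul]

theorem frmA_sum (f : Fin 10 → ℝ) : ∑ l, f l =
    f 0 + f 1 + f 2 + f 3 + f 4 + f 5 + f 6 + f 7 + f 8 + f 9 := by
  simp only [Fin.sum_univ_succ, Finset.univ_eq_empty, Finset.sum_empty, add_zero]
  simp only [← add_assoc]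
  rfl

theorem frmA_deg (l : Fin 10) : (frmA_m l).1 + (frmA_m l).2.1 + (frmA_m l).2.2 ≤ 2 := by
  revert l
  decide

theorem frmA_ip' {p : E3 → ℝ} (c : Fin 10 → ℝ)
    (hc : ∀ x, p x = ∑ l, c l * mon (frmA_m l).1 (frmA_m l).2.1 (frmA_m l).2.2 x) (i j k : ℕ)
    (h : i + j + k ≤ 2) :
    ip p (mon i j k) =
      ∑ l, c l * if Even ((frmA_m l).1 + i) ∧ Even ((frmA_m l).2.1 + j) ∧ Even ((frmA_m l).2.2 + k) then
      ((((frmA_m l).1 + i) - 1).doubleFactorial * (((frmA_m l).2.1 + j) - 1).doubleFactorial *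
        (((frmA_m l).2.2 + k) - 1).doubleFactorial : ℝ) /
        (((frmA_m l).1 + i) + ((frmA_m l).2.1 + j) + ((frmA_m l).2.2 + k) + 1).doubleFactorial
    else 0 := by
  rw [frmA_ip c hc]
  refine Finset.sum_congr rfl fun l _ => ?_
  have := frmA_deg l
  rw [mom _ _ _ (by omega)]

/-- on the sphere `h` is a quadratic form of trace zero -/
theorem frmA_quad {h : E3 → ℝ} (hh : HH 2 h) : ∃ a b c d e f : ℝ, a + b + c = 0 ∧
    ∀ x : E3, ‖x‖ = 1 → h x = a * x 0 ^ 2 + b * x 1 ^ 2 + c * x 2 ^ 2 + 2 * d * (x 0 * x 1) +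
      2 * e * (x 0 * x 2) + 2 * f * (x 1 * x 2) := by
  obtain ⟨c, hc⟩ := frmA_rep hh.mem
  have ho : ∀ i j k : ℕ, i + j + k ≤ 1 → ip h (mon i j k) = 0 := fun i j k hijk =>
    hh.orth 1 (by norm_num) _ (Submodule.subset_span ⟨i, j, k, hijk, rfl⟩)
  have o000 := ho 0 0 0 (by norm_num)
  have o100 := ho 1 0 0 (by norm_num)
  have o010 := ho 0 1 0 (by norm_num)
  have o001 := ho 0 0 1 (by norm_num)
  rw [frmA_ip' c hc _ _ _ (by norm_num)] at o000 o100 o010 o001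
  simp [frmA_sum, frmA_m, Nat.even_iff, Nat.doubleFactorial] at o000
  simp [frmA_sum, frmA_m, Nat.even_iff, Nat.doubleFactorial] at o100
  simp [frmA_sum, frmA_m, Nat.even_iff, Nat.doubleFactorial] at o010
  simp [frmA_sum, frmA_m, Nat.even_iff, Nat.doubleFactorial] at o001
  norm_num at o000 o100 o010 o001
  refine ⟨c 4 + c 0, c 5 + c 0, c 6 + c 0, c 7 / 2, c 8 / 2, c 9 / 2, by linarith, fun x hx => ?_⟩
  have hn := frmA_norm_sq x
  rw [hx] at hn
  rw [hc x]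
  simp [frmA_sum, frmA_m, mon]
  rw [o100, o010, o001]
  linear_combination (c 0) * hn

/-- the symmetric operator of a quadratic form -/
noncomputable def frmA_T (a b c d e f : ℝ) : E3 →ₗ[ℝ] E3 where
  toFun x := !₂[a * x 0 + d * x 1 + e * x 2, d * x 0 + b * x 1 + f * x 2,
    e * x 0 + f * x 1 + c * x 2]
  map_add' x y := by
    ext i; fin_cases i <;> simp <;> ring
  map_smul' r x := by
    ext i; fin_cases i <;> simp <;> ring

theorem frmA_inner (x y : E3) : (inner ℝ x y : ℝ) = x 0 * y 0 + x 1 * y 1 + x 2 * y 2 := by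
  simp only [PiLp.inner_apply, Fin.sum_univ_three]
  simp [mul_comm]

theorem frmA_T_sym (a b c d e f : ℝ) : (frmA_T a b c d e f).IsSymmetric := by
  intro x y
  rw [frmA_inner, frmA_inner]
  simp [frmA_T]
  ring

theorem frmA_T_form (a b c d e f : ℝ) (x : E3) : inner ℝ x (frmA_T a b c d e f x) =
    a * x 0 ^ 2 + b * x 1 ^ 2 + c * x 2 ^ 2 + 2 * d * (x 0 * x 1) +
      2 * e * (x 0 * x 2) + 2 * f * (x 1 * x 2) := by
  rw [frmA_inner]
  simp [frmA_T]
  ring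

/-- diagonalisation -/
theorem frmA_diag (T : E3 →ₗ[ℝ] E3) (hT : T.IsSymmetric) : ∃ (g : E3 ≃ₗᵢ[ℝ] E3) (l : Fin 3 → ℝ),
    ∀ x : E3, inner ℝ (g x) (T (g x)) = l 0 * x 0 ^ 2 + l 1 * x 1 ^ 2 + l 2 * x 2 ^ 2 := by
  have hn : Module.finrank ℝ E3 = 3 := by simp
  set b := hT.eigenvectorBasis hn with hb
  set l := hT.eigenvalues hn with hl
  refine ⟨b.repr.symm, l, fun x => ?_⟩
  have hx : b.repr.symm x = ∑ i, x i • b i := by
    exact (b.sum_repr_symm x).symm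
  have hTx : T (b.repr.symm x) = ∑ i, (l i * x i) • b i := by
    rw [hx, map_sum]
    refine Finset.sum_congr rfl fun i _ => ?_
    rw [map_smul, hT.apply_eigenvectorBasis hn i]
    simp only [RCLike.ofReal_real_eq_id, id_eq]
    rw [smul_smul, mul_comm]
  have hy : ∑ i, (l i * x i) • b i = b.repr.symm (WithLp.toLp 2 fun i => l i * x i) :=
    b.sum_repr_symm (WithLp.toLp 2 fun i => l i * x i)
  rw [hTx, hy, LinearIsometryEquiv.inner_map_map, frmA_inner]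
  show x 0 * (l 0 * x 0) + x 1 * (l 1 * x 1) + x 2 * (l 2 * x 2) = _
  ring

theorem frmA_swap_apply (a b m : Fin 3) (x : E3) :
    (LinearIsometryEquiv.piLpCongrLeft 2 ℝ ℝ (Equiv.swap a b) : E3 ≃ₗᵢ[ℝ] E3) x m =
      x (Equiv.swap a b m) := by
  simp [LinearIsometryEquiv.piLpCongrLeft_apply, Equiv.piCongrLeft'_apply]

theorem frmA_inv (g : E3 ≃ₗᵢ[ℝ] E3) {f : E3 → ℝ} (hf : Measurable f) :
    ∫ x, f (g x) ∂sig = ∫ x, f x ∂sig := by
  conv_rhs => rw [← sigA_map g]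
  rw [integral_map g.continuous.aemeasurable hf.aestronglyMeasurable]

/-- the integral of a diagonal form -/
theorem frmA_int (l : Fin 3 → ℝ) :
    ∫ x : E3, (l 0 * x 0 ^ 2 + l 1 * x 1 ^ 2 + l 2 * x 2 ^ 2) ∂sig = (l 0 + l 1 + l 2) / 3 := by
  have h1 := (frmA_integrable 2 0 0).const_mul (l 0)
  have h2 := (frmA_integrable 0 2 0).const_mul (l 1)
  have h3 := (frmA_integrable 0 0 2).const_mul (l 2)
  have h12 : Integrable (fun x => l 0 * mon 2 0 0 x + l 1 * mon 0 2 0 x) sig := h1.add h2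
  have e : ∀ x : E3, l 0 * x 0 ^ 2 + l 1 * x 1 ^ 2 + l 2 * x 2 ^ 2 =
      (l 0 * mon 2 0 0 x + l 1 * mon 0 2 0 x) + l 2 * mon 0 0 2 x := by
    intro x; simp [mon]
  simp only [e]
  rw [integral_add h12 h3, integral_add h1 h2, integral_const_mul, integral_const_mul,
    integral_const_mul, mom _ _ _ (by norm_num), mom _ _ _ (by norm_num), mom _ _ _ (by norm_num)]
  simp [Nat.doubleFactorial]
  ring

theorem HH2_form {h : E3 → ℝ} (hh : HH 2 h) : ∃ (g : E3 ≃ₗᵢ[ℝ] E3) (l₁ l₂ l₃ : ℝ),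
    l₁ + l₂ + l₃ = 0 ∧ |l₁| ≤ |l₃| ∧ |l₂| ≤ |l₃| ∧
      ∀ x : E3, ‖x‖ = 1 → h (g x) = Q2 l₁ l₂ l₃ 0 x := by
  obtain ⟨a, b, c, d, e, f, habc, hq⟩ := frmA_quad hh
  obtain ⟨g, l, hg⟩ := frmA_diag (frmA_T a b c d e f) (frmA_T_sym a b c d e f)
  simp only [frmA_T_form] at hg
  have hgx : ∀ x : E3, ‖x‖ = 1 → h (g x) = l 0 * x 0 ^ 2 + l 1 * x 1 ^ 2 + l 2 * x 2 ^ 2 := by
    intro x hx
    rw [hq (g x) (by rw [LinearIsometryEquiv.norm_map, hx]), hg]
  -- the trace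
  have htr : l 0 + l 1 + l 2 = 0 := by
    have h1 := frmA_int l
    have hm : Measurable (fun x : E3 => a * x 0 ^ 2 + b * x 1 ^ 2 + c * x 2 ^ 2 +
        2 * d * (x 0 * x 1) + 2 * e * (x 0 * x 2) + 2 * f * (x 1 * x 2)) := by
      have hx : ∀ l : Fin 3, Measurable (fun x : E3 => x l) := fun l =>
        (EuclideanSpace.proj (𝕜 := ℝ) l : E3 →L[ℝ] ℝ).continuous.measurable
      have h0 := hx 0
      have h1 := hx 1
      have h2 := hx 2
      fun_prop
    have h2 := frmA_inv g hm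
    simp only [hg] at h2
    rw [h1] at h2
    have h3 : ∫ x : E3, (a * x 0 ^ 2 + b * x 1 ^ 2 + c * x 2 ^ 2 +
        2 * d * (x 0 * x 1) + 2 * e * (x 0 * x 2) + 2 * f * (x 1 * x 2)) ∂sig = 0 := by
      have h4 := hh.orth 0 (by norm_num) _ (Submodule.subset_span ⟨0, 0, 0, le_rfl, rfl⟩)
      rw [ip] at h4
      rw [← h4]
      refine integral_congr_ae ?_
      filter_upwards [sigA_sphere] with x hx
      rw [hq x hx]
      simp [mon]
    rw [h3] at h2
    linarith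
  -- the largest eigenvalue last
  obtain ⟨k, -, hk⟩ := Finset.exists_max_image (Finset.univ : Finset (Fin 3)) (fun i => |l i|)
    ⟨0, Finset.mem_univ _⟩
  set σ := Equiv.swap k 2 with hσ
  refine ⟨(LinearIsometryEquiv.piLpCongrLeft 2 ℝ ℝ σ : E3 ≃ₗᵢ[ℝ] E3).trans g, l (σ 0), l (σ 1),
    l (σ 2), ?_, ?_, ?_, ?_⟩
  · have h1 : ∑ i, l (σ i) = ∑ i, l i := Equiv.sum_comp σ l
    rw [Fin.sum_univ_three, Fin.sum_univ_three, htr] at h1
    exact h1
  · rw [hσ, Equiv.swap_apply_right]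
    exact hk _ (Finset.mem_univ _)
  · rw [hσ, Equiv.swap_apply_right]
    exact hk _ (Finset.mem_univ _)
  · intro x hx
    rw [LinearIsometryEquiv.trans_apply, hgx _ (by rw [LinearIsometryEquiv.norm_map, hx])]
    simp only [hσ, frmA_swap_apply]
    rw [← hσ]
    have h1 : ∑ i, l (σ i) * x i ^ 2 = ∑ i, l i * x (σ i) ^ 2 := by
      rw [← Equiv.sum_comp σ (fun i => l i * x (σ i) ^ 2)]
      refine Finset.sum_congr rfl fun i _ => ?_
      rw [hσ, Equiv.swap_apply_self]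
    rw [Fin.sum_univ_three, Fin.sum_univ_three] at h1
    rw [← h1, Q2]
    ring

end STH
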