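import Pool.Agent.Lib_helper59.STH.Defs
import Pool.Agent.Lib_helper59.STHF.momA
import Pool.Agent.Lib_helper59.STHF.valg
import Pool.Agent.Lib_helper15.STE.B.sigA
import Pool.Agent.Lib_helper15.STE.B.sigC

/-! # STH, block frmB -/

open MeasureTheory Filter Topology
open Pool.Agent.Lib_helper15.STE

namespace STH

theorem frmB_meas (i j k : ℕ) : Measurable (mon i j k) := by
  have h : ∀ l : Fin 3, Measurable (fun x : E3 => x l) := fun l =>
    (EuclideanSpace.proj (𝕜 := ℝ) l : E3 →L[ℝ] ℝ).continuous.measurable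
  exact (((h 0).pow_const i).mul ((h 1).pow_const j)).mul ((h 2).pow_const k)

theorem frmB_bound (i j k : ℕ) (x : E3) (hx : ‖x‖ = 1) : |mon i j k x| ≤ 1 := by
  have hc : ∀ l : Fin 3, |x l| ≤ 1 := by
    intro l
    have h := PiLp.norm_apply_le x l
    rw [hx, Real.norm_eq_abs] at h
    exact h
  rw [mon, abs_mul, abs_mul, abs_pow, abs_pow, abs_pow]
  have h0 := pow_le_one₀ (n := i) (abs_nonneg _) (hc 0)
  have h1 := pow_le_one₀ (n := j) (abs_nonneg _) (hc 1)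
  have h2 := pow_le_one₀ (n := k) (abs_nonneg _) (hc 2)
  have h3 := mul_le_one₀ h0 (by positivity) h1
  exact mul_le_one₀ h3 (by positivity) h2

theorem frmB_integrable (i j k : ℕ) : Integrable (mon i j k) sig :=
  (sigC_integral _ (frmB_meas i j k) 1 (frmB_bound i j k)).1

theorem frmB_norm_sq (x : E3) : ‖x‖ ^ 2 = x 0 ^ 2 + x 1 ^ 2 + x 2 ^ 2 := by
  rw [EuclideanSpace.norm_sq_eq, Fin.sum_univ_three]
  simp only [Real.norm_eq_abs, sq_abs]

/-- the exponents of the monomials of degree at most three -/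
def frmB_m : Fin 20 → ℕ × ℕ × ℕ := ![(0, 0, 0), (1, 0, 0), (0, 1, 0), (0, 0, 1), (2, 0, 0),
  (0, 2, 0), (0, 0, 2), (1, 1, 0), (1, 0, 1), (0, 1, 1), (3, 0, 0), (0, 3, 0), (0, 0, 3),
  (2, 1, 0), (2, 0, 1), (1, 2, 0), (0, 2, 1), (1, 0, 2), (0, 1, 2), (1, 1, 1)]

theorem frmB_all' : ∀ i j k : Fin 4, i.1 + j.1 + k.1 ≤ 3 →
    ∃ l : Fin 20, frmB_m l = (i.1, j.1, k.1) := by
  decide

theorem frmB_all (i : ℕ) (hi : i < 4) (j : ℕ) (hj : j < 4) (k : ℕ) (hk : k < 4)
    (h : i + j + k ≤ 3) : ∃ l : Fin 20, frmB_m l = (i, j, k) :=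
  frmB_all' ⟨i, hi⟩ ⟨j, hj⟩ ⟨k, hk⟩ h

theorem frmB_rep {p : E3 → ℝ} (hp : p ∈ V 3) : ∃ c : Fin 20 → ℝ, ∀ x,
    p x = ∑ l, c l * mon (frmB_m l).1 (frmB_m l).2.1 (frmB_m l).2.2 x := by
  unfold V at hp
  induction hp using Submodule.span_induction with
  | mem p hp =>
    obtain ⟨i, j, k, h, rfl⟩ := hp
    obtain ⟨l, hl⟩ := frmB_all i (by omega) j (by omega) k (by omega) h
    refine ⟨Pi.single l 1, fun x => ?_⟩
    rw [Finset.sum_eq_single l]
    · rw [hl]; simp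
    · intro m _ hm
      rw [Pi.single_eq_of_ne hm, zero_mul]
    · intro h; exact absurd (Finset.mem_univ _) h
  | zero => exact ⟨0, fun x => by simp⟩
  | add p q _ _ h1 h2 =>
    obtain ⟨c, hc⟩ := h1
    obtain ⟨d, hd⟩ := h2
    refine ⟨c + d, fun x => ?_⟩
    rw [Pi.add_apply, hc, hd, ← Finset.sum_add_distrib]
    refine Finset.sum_congr rfl fun l _ => ?_
    rw [Pi.add_apply]; ring
  | smul a p _ h1 =>
    obtain ⟨c, hc⟩ := h1
    refine ⟨a • c, fun x => ?_⟩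
    rw [Pi.smul_apply, hc, smul_eq_mul, Finset.mul_sum]
    refine Finset.sum_congr rfl fun l _ => ?_
    rw [Pi.smul_apply, smul_eq_mul]; ring

/-- the inner product with a monomial -/
theorem frmB_ip {p : E3 → ℝ} (c : Fin 20 → ℝ)
    (hc : ∀ x, p x = ∑ l, c l * mon (frmB_m l).1 (frmB_m l).2.1 (frmB_m l).2.2 x) (i j k : ℕ) :
    ip p (mon i j k) =
      ∑ l, c l * ∫ x, mon ((frmB_m l).1 + i) ((frmB_m l).2.1 + j) ((frmB_m l).2.2 + k) x ∂sig := by
  have h1 : ∀ x, p x * mon i j k x =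
      ∑ l, c l * mon ((frmB_m l).1 + i) ((frmB_m l).2.1 + j) ((frmB_m l).2.2 + k) x := by
    intro x
    rw [hc, Finset.sum_mul]
    refine Finset.sum_congr rfl fun l _ => ?_
    simp only [mon]; ring
  rw [ip]
  simp only [h1]
  rw [integral_finsetSum _ fun l _ => (frmB_integrable _ _ _).const_mul _]
  refine Finset.sum_congr rfl fun l _ => ?_
  rw [integral_const_mul]

theorem frmB_sum (f : Fin 20 → ℝ) : ∑ l, f l =
    f 0 + f 1 + f 2 + f 3 + f 4 + f 5 + f 6 + f 7 + f 8 + f 9 + f 10 + f 11 + f 12 + f 13 + f 14 +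
      f 15 + f 16 + f 17 + f 18 + f 19 := by
  simp only [Fin.sum_univ_succ, Finset.univ_eq_empty, Finset.sum_empty, add_zero]
  simp only [← add_assoc]
  rfl

theorem frmB_deg (l : Fin 20) : (frmB_m l).1 + (frmB_m l).2.1 + (frmB_m l).2.2 ≤ 3 := by
  revert l
  decide

theorem frmB_ip' {p : E3 → ℝ} (c : Fin 20 → ℝ)
    (hc : ∀ x, p x = ∑ l, c l * mon (frmB_m l).1 (frmB_m l).2.1 (frmB_m l).2.2 x) (i j k : ℕ)
    (h : i + j + k ≤ 2) :
    ip p (mon i j k) =
      ∑ l, c l * if Even ((frmB_m l).1 + i) ∧ Even ((frmB_m l).2.1 + j) ∧ Even ((frmB_m l).2.2 + k) then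
      ((((frmB_m l).1 + i) - 1).doubleFactorial * (((frmB_m l).2.1 + j) - 1).doubleFactorial *
        (((frmB_m l).2.2 + k) - 1).doubleFactorial : ℝ) /
        (((frmB_m l).1 + i) + ((frmB_m l).2.1 + j) + ((frmB_m l).2.2 + k) + 1).doubleFactorial
    else 0 := by
  rw [frmB_ip c hc]
  refine Finset.sum_congr rfl fun l _ => ?_
  have := frmB_deg l
  rw [mom _ _ _ (by omega)]

theorem HH3_form {h : E3 → ℝ} (hh : HH 3 h) : ∃ c : Fin 7 → ℝ,
      ∀ x : E3, ‖x‖ = 1 → h x = Q3 c x := by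
  obtain ⟨c, hc⟩ := frmB_rep hh.mem
  have ho : ∀ i j k : ℕ, i + j + k ≤ 2 → ip h (mon i j k) = 0 := fun i j k hijk =>
    hh.orth 2 (by norm_num) _ (Submodule.subset_span ⟨i, j, k, hijk, rfl⟩)
  have o000 := ho 0 0 0 (by norm_num)
  have o100 := ho 1 0 0 (by norm_num)
  have o010 := ho 0 1 0 (by norm_num)
  have o001 := ho 0 0 1 (by norm_num)
  have o200 := ho 2 0 0 (by norm_num)
  have o020 := ho 0 2 0 (by norm_num)
  have o002 := ho 0 0 2 (by norm_num)
  have o110 := ho 1 1 0 (by norm_num)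
  have o101 := ho 1 0 1 (by norm_num)
  have o011 := ho 0 1 1 (by norm_num)
  rw [frmB_ip' c hc _ _ _ (by norm_num)] at o000 o100 o010 o001 o200 o020 o002 o110 o101 o011
  simp [frmB_sum, frmB_m, Nat.even_iff, Nat.doubleFactorial] at o000
  norm_num at o000
  simp [frmB_sum, frmB_m, Nat.even_iff, Nat.doubleFactorial] at o100
  norm_num at o100
  simp [frmB_sum, frmB_m, Nat.even_iff, Nat.doubleFactorial] at o010
  norm_num at o010
  simp [frmB_sum, frmB_m, Nat.even_iff, Nat.doubleFactorial] at o001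
  norm_num at o001
  simp [frmB_sum, frmB_m, Nat.even_iff, Nat.doubleFactorial] at o200
  norm_num at o200
  simp [frmB_sum, frmB_m, Nat.even_iff, Nat.doubleFactorial] at o020
  norm_num at o020
  simp [frmB_sum, frmB_m, Nat.even_iff, Nat.doubleFactorial] at o002
  norm_num at o002
  simp [frmB_sum, frmB_m, Nat.even_iff, Nat.doubleFactorial] at o110
  simp [frmB_sum, frmB_m, Nat.even_iff, Nat.doubleFactorial] at o101
  norm_num at o101
  simp [frmB_sum, frmB_m, Nat.even_iff, Nat.doubleFactorial] at o011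
  norm_num at o011
  have e4 : c 4 = -c 0 := by linarith
  have e5 : c 5 = -c 0 := by linarith
  have e6 : c 6 = -c 0 := by linarith
  have r1 : c 15 = -(5 * c 1 + 3 * c 10 + c 17) := by linarith
  have r2 : c 13 = -(5 * c 2 + 3 * c 11 + c 18) := by linarith
  have r3 : c 16 = -(5 * c 3 + 3 * c 12 + c 14) := by linarith
  refine ⟨![(c 12 + c 3) / 2, (c 17 + c 1) / 4, (c 18 + c 2) / 4, (c 14 - c 16) / 2, c 19,
    c 10 + c 1 + (c 17 + c 1) / 4, -(c 11 + c 2) - (c 18 + c 2) / 4], fun x hx => ?_⟩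
  have hn := frmB_norm_sq x
  rw [hx] at hn
  rw [hc x]
  simp [Fin.sum_univ_succ, frmB_m, mon, Q3]
  rw [e4, e5, e6, o110, o101, o011, r1, r2, r3]
  linear_combination (c 0 + c 1 * x 0 + c 2 * x 1 + c 3 * x 2) * hn

end STH
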