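import Pool.Agent.Lib_helper59.STH.Defs
import Pool.Agent.Lib_helper59.STHF.momA
import Pool.Agent.Lib_helper59.STHF.valg
import Pool.Agent.Lib_helper15.STE.B.sigA
import Pool.Agent.Lib_helper15.STE.B.sigC

/-! # STH, block q2A -/

open MeasureTheory Filter Topology
open Pool.Agent.Lib_helper15.STE

namespace STH

theorem q2A_meas (i j k : ℕ) : Measurable (mon i j k) := by
  have h : ∀ l : Fin 3, Measurable (fun x : E3 => x l) := fun l =>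
    (EuclideanSpace.proj (𝕜 := ℝ) l : E3 →L[ℝ] ℝ).continuous.measurable
  exact (((h 0).pow_const i).mul ((h 1).pow_const j)).mul ((h 2).pow_const k)

theorem q2A_bound (i j k : ℕ) (x : E3) (hx : ‖x‖ = 1) : |mon i j k x| ≤ 1 := by
  have hc : ∀ l : Fin 3, |x l| ≤ 1 := by
    intro l
    have h := PiLp.norm_apply_le x l
    rw [hx, Real.norm_eq_abs] at h
    exact h
  rw [mon, abs_mul, abs_mul, abs_pow, abs_pow, abs_pow]
  have h0 := pow_le_one₀ (n := i) (abs_nonneg _) (hc 0)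
  have h1 := pow_le_one₀ (n := j) (abs_nonneg _) (hc 1)
  have h2 := pow_le_one₀ (n := k) (abs_nonneg _) (hc 2)
  have h3 := mul_le_one₀ h0 (by positivity) h1
  exact mul_le_one₀ h3 (by positivity) h2

theorem q2A_integrable (i j k : ℕ) : Integrable (mon i j k) sig :=
  (sigC_integral _ (q2A_meas i j k) 1 (q2A_bound i j k)).1

/-- integral of a linear combination of monomials -/
theorem q2A_sum {ι : Type*} (s : Finset ι) (c : ι → ℝ) (m : ι → ℕ × ℕ × ℕ) :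
    ∫ x, ∑ i ∈ s, c i * mon (m i).1 (m i).2.1 (m i).2.2 x ∂sig =
      ∑ i ∈ s, c i * ∫ x, mon (m i).1 (m i).2.1 (m i).2.2 x ∂sig := by
  rw [integral_finsetSum _ fun i _ => (q2A_integrable _ _ _).const_mul _]
  refine Finset.sum_congr rfl fun i _ => ?_
  rw [integral_const_mul]

/-- the exponents -/
def q2A_m : Fin 9 → ℕ × ℕ × ℕ := ![(4, 0, 0), (0, 4, 0), (0, 0, 4), (2, 2, 0), (2, 0, 2),
  (0, 2, 2), (3, 1, 0), (1, 3, 0), (1, 1, 2)]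

/-- the moments -/
noncomputable def q2A_v : Fin 9 → ℝ := ![1 / 5, 1 / 5, 1 / 5, 1 / 15, 1 / 15, 1 / 15, 0, 0, 0]

theorem q2A_mom (i : Fin 9) :
    ∫ x, mon (q2A_m i).1 (q2A_m i).2.1 (q2A_m i).2.2 x ∂sig = q2A_v i := by
  fin_cases i
  · show ∫ x, mon 4 0 0 x ∂sig = 1 / 5
    rw [mom _ _ _ (by norm_num), if_pos ⟨by decide, by decide, by decide⟩]
    norm_num [Nat.doubleFactorial]
  · show ∫ x, mon 0 4 0 x ∂sig = 1 / 5
    rw [mom _ _ _ (by norm_num), if_pos ⟨by decide, by decide, by decide⟩]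
    norm_num [Nat.doubleFactorial]
  · show ∫ x, mon 0 0 4 x ∂sig = 1 / 5
    rw [mom _ _ _ (by norm_num), if_pos ⟨by decide, by decide, by decide⟩]
    norm_num [Nat.doubleFactorial]
  · show ∫ x, mon 2 2 0 x ∂sig = 1 / 15
    rw [mom _ _ _ (by norm_num), if_pos ⟨by decide, by decide, by decide⟩]
    norm_num [Nat.doubleFactorial]
  · show ∫ x, mon 2 0 2 x ∂sig = 1 / 15
    rw [mom _ _ _ (by norm_num), if_pos ⟨by decide, by decide, by decide⟩]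
    norm_num [Nat.doubleFactorial]
  · show ∫ x, mon 0 2 2 x ∂sig = 1 / 15
    rw [mom _ _ _ (by norm_num), if_pos ⟨by decide, by decide, by decide⟩]
    norm_num [Nat.doubleFactorial]
  · show ∫ x, mon 3 1 0 x ∂sig = 0
    rw [mom _ _ _ (by norm_num), if_neg (by decide)]
  · show ∫ x, mon 1 3 0 x ∂sig = 0
    rw [mom _ _ _ (by norm_num), if_neg (by decide)]
  · show ∫ x, mon 1 1 2 x ∂sig = 0
    rw [mom _ _ _ (by norm_num), if_neg (by decide)]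

/-- the integral of a quartic form of the type that occurs -/
theorem q2A_quart {f : E3 → ℝ} (c : Fin 9 → ℝ)
    (hf : ∀ x, f x = c 0 * x 0 ^ 4 + c 1 * x 1 ^ 4 + c 2 * x 2 ^ 4 + c 3 * (x 0 ^ 2 * x 1 ^ 2) +
      c 4 * (x 0 ^ 2 * x 2 ^ 2) + c 5 * (x 1 ^ 2 * x 2 ^ 2) + c 6 * (x 0 ^ 3 * x 1) +
      c 7 * (x 0 * x 1 ^ 3) + c 8 * (x 0 * x 1 * x 2 ^ 2)) :
    ∫ x, f x ∂sig = (c 0 + c 1 + c 2) / 5 + (c 3 + c 4 + c 5) / 15 := by
  have h := q2A_sum Finset.univ c q2A_m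
  have e : ∀ x, f x = ∑ i, c i * mon (q2A_m i).1 (q2A_m i).2.1 (q2A_m i).2.2 x := by
    intro x
    rw [hf x]
    simp [Fin.sum_univ_succ, mon, q2A_m]
    ring
  simp only [← e, q2A_mom] at h
  rw [h]
  simp [Fin.sum_univ_succ, q2A_v]
  ring

theorem Q2_norm (a b c d : ℝ) (h : a + b + c = 0) :
    ip (Q2 a b c d) (Q2 a b c d) = 2 / 15 * (a ^ 2 + b ^ 2 + c ^ 2) + d ^ 2 / 15 := by
  rw [ip, q2A_quart ![a ^ 2, b ^ 2, c ^ 2, 2 * a * b + d ^ 2, 2 * a * c, 2 * b * c, 2 * a * d,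
    2 * b * d, 2 * c * d]]
  · have hc : c = -a - b := by linarith
    simp
    rw [hc]
    ring
  · intro x
    simp [Q2]
    ring

theorem q2A_fderiv (a b c d : ℝ) (x v : E3) : fderiv ℝ (Q2 a b c d) x v =
    (2 * a * x 0 + d * x 1) * v 0 + (2 * b * x 1 + d * x 0) * v 1 + 2 * c * x 2 * v 2 := by
  have h : ∀ l : Fin 3, HasFDerivAt (fun y : E3 => y l) (EuclideanSpace.proj (𝕜 := ℝ) l : E3 →L[ℝ] ℝ) x :=
    fun l => (EuclideanSpace.proj (𝕜 := ℝ) l : E3 →L[ℝ] ℝ).hasFDerivAt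
  have H := (((((h 0).pow 2).const_mul a).add (((h 1).pow 2).const_mul b)).add
    (((h 2).pow 2).const_mul c)).add (((h 0).mul (h 1)).const_mul d)
  have e := H.fderiv
  have e2 := congrArg (fun L : E3 →L[ℝ] ℝ => L v) e
  have e3 : fderiv ℝ (Q2 a b c d) x v = _ := e2
  rw [e3]
  simp
  ring

theorem q2A_XX (a b c d : ℝ) (ν : E3) (hν : ν 2 = 0) (x : E3) : XX ν (Q2 a b c d) x =
    x 2 * (x 0 * (2 * (a - c) * ν 1 - d * ν 0) + x 1 * (d * ν 1 - 2 * (b - c) * ν 0)) := by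
  rw [XX, q2A_fderiv]
  simp [cr, hν]
  ring

theorem q2A_XX_ip (a b c d : ℝ) (ν : E3) (hν : ν 2 = 0) :
    ip (XX ν (Q2 a b c d)) (XX ν (Q2 a b c d)) =
      ((2 * (a - c) * ν 1 - d * ν 0) ^ 2 + (d * ν 1 - 2 * (b - c) * ν 0) ^ 2) / 15 := by
  set P := 2 * (a - c) * ν 1 - d * ν 0 with hP
  set Q := d * ν 1 - 2 * (b - c) * ν 0 with hQ
  rw [ip, q2A_quart ![0, 0, 0, 0, P ^ 2, Q ^ 2, 0, 0, 2 * P * Q]]
  · simp
  · intro x
    rw [q2A_XX _ _ _ _ _ hν]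
    simp
    ring

theorem q2A_AA (a b c d : ℝ) (h : a + b + c = 0) (ν : E3) (hν : ν 2 = 0) :
    AA 2 ν (Q2 a b c d) =
      ((2 * (a - c) * ν 1 - d * ν 0) ^ 2 + (d * ν 1 - 2 * (b - c) * ν 0) ^ 2) / 15 -
      (2 / 15 * (a ^ 2 + b ^ 2 + c ^ 2) + d ^ 2 / 15) +
      (a * ν 0 ^ 2 + b * ν 1 ^ 2 + d * (ν 0 * ν 1)) ^ 2 / 5 := by
  rw [AA, q2A_XX_ip _ _ _ _ _ hν, Q2_norm _ _ _ _ h, Q2, hν]
  norm_num

theorem Q2_axis (a b c : ℝ) (h : a + b + c = 0) :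
    AA 2 (e 0) (Q2 a b c 0) = (b - c) ^ 2 / 5 ∧ AA 2 (e 1) (Q2 a b c 0) = (a - c) ^ 2 / 5 := by
  have hc : c = -a - b := by linarith
  constructor
  · rw [q2A_AA _ _ _ _ h _ (by simp [e])]
    have h0 : (e 0) 0 = 1 := by simp [e]
    have h1 : (e 0) 1 = 0 := by simp [e]
    rw [h0, h1, hc]
    ring
  · rw [q2A_AA _ _ _ _ h _ (by simp [e])]
    have h0 : (e 1) 0 = 0 := by simp [e]
    have h1 : (e 1) 1 = 1 := by simp [e]
    rw [h0, h1, hc]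
    ring

theorem q2A_ax0 : (ax 0) 0 = 1 ∧ (ax 0) 1 = 0 := by
  simp [ax]

theorem q2A_ax1 : (ax 1) 0 = 1 / 2 ∧ (ax 1) 1 = √3 / 2 := by
  simp [ax, Real.cos_pi_div_three, Real.sin_pi_div_three]

theorem q2A_ax2 : (ax 2) 0 = -(1 / 2) ∧ (ax 2) 1 = √3 / 2 := by
  have e1 : (2 : ℝ) * (Real.pi / 3) = Real.pi - Real.pi / 3 := by ring
  constructor
  · show Real.cos ((((2 : Fin 3) : ℕ) : ℝ) * (Real.pi / 3)) = -(1 / 2)
    rw [show (((2 : Fin 3) : ℕ) : ℝ) = 2 by norm_num, e1, Real.cos_pi_sub, Real.cos_pi_div_three]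
  · show Real.sin ((((2 : Fin 3) : ℕ) : ℝ) * (Real.pi / 3)) = √3 / 2
    rw [show (((2 : Fin 3) : ℕ) : ℝ) = 2 by norm_num, e1, Real.sin_pi_sub, Real.sin_pi_div_three]

theorem Q2_three (a b c d : ℝ) (h : a + b + c = 0) :
    ∑ k, AA 2 (ax k) (Q2 a b c d) = 27 / 20 * c ^ 2 + 3 / 40 * ((a - b) ^ 2 + d ^ 2) := by
  have h2 : ∀ k, (ax k) 2 = 0 := fun k => by simp [ax]
  rw [Fin.sum_univ_three, q2A_AA _ _ _ _ h _ (h2 0), q2A_AA _ _ _ _ h _ (h2 1),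
    q2A_AA _ _ _ _ h _ (h2 2), q2A_ax0.1, q2A_ax0.2, q2A_ax1.1, q2A_ax1.2, q2A_ax2.1, q2A_ax2.2]
  have hs : (√3 : ℝ) ^ 2 = 3 := Real.sq_sqrt (by norm_num)
  have hs4 : (√3 : ℝ) ^ 4 = 9 := by
    rw [show (√3 : ℝ) ^ 4 = ((√3 : ℝ) ^ 2) ^ 2 by ring, hs]; norm_num
  have hc : c = -a - b := by linarith
  rw [hc]
  ring_nf
  rw [hs, hs4]
  ring

end STH
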