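import Pool.Agent.Lib_helper59.STH.Defs

/-! # STH, block trnA -/

open MeasureTheory Filter Topology
open Pool.Agent.Lib_helper15.STE

namespace STH

/-- the rotation about the third axis -/
noncomputable def trnA_rot (u w : ℝ) : E3 →ₗ[ℝ] E3 where
  toFun x := !₂[u * x 0 - w * x 1, w * x 0 + u * x 1, x 2]
  map_add' x y := by
    ext i
    fin_cases i <;> simp <;> ring
  map_smul' r x := by
    ext i
    fin_cases i <;> simp <;> ring

theorem trnA_comp {u w : ℝ} (h : u ^ 2 + w ^ 2 = 1) (x : E3) :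
    trnA_rot u (-w) (trnA_rot u w x) = x := by
  ext i
  fin_cases i
  · simp [trnA_rot]
    linear_combination (x 0) * h
  · simp [trnA_rot]
    linear_combination (x 1) * h
  · simp [trnA_rot]

theorem trnA_comp' {u w : ℝ} (h : u ^ 2 + w ^ 2 = 1) (x : E3) :
    trnA_rot u w (trnA_rot u (-w) x) = x := by
  ext i
  fin_cases i
  · simp [trnA_rot]
    linear_combination (x 0) * h
  · simp [trnA_rot]
    linear_combination (x 1) * h
  · simp [trnA_rot]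

/-- the rotation as an isometry -/
noncomputable def trnA_iso (u w : ℝ) (h : u ^ 2 + w ^ 2 = 1) : E3 ≃ₗᵢ[ℝ] E3 where
  toLinearEquiv :=
    { trnA_rot u w with
      invFun := trnA_rot u (-w)
      left_inv := trnA_comp h
      right_inv := trnA_comp' h }
  norm_map' x := by
    change ‖trnA_rot u w x‖ = ‖x‖
    rw [EuclideanSpace.norm_eq, EuclideanSpace.norm_eq]
    congr 1
    simp only [Fin.sum_univ_three, Real.norm_eq_abs, sq_abs]
    simp [trnA_rot]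
    linear_combination (x 0 ^ 2 + x 1 ^ 2) * h

theorem turn (c : Fin 7 → ℝ) (l₁ l₂ l₃ : ℝ) : ∃ (ρ : E3 ≃ₗᵢ[ℝ] E3) (c' : Fin 7 → ℝ) (a b d : ℝ),
    c' 6 = 0 ∧ a + b = l₁ + l₂ ∧ (a - b) ^ 2 + d ^ 2 = (l₁ - l₂) ^ 2 ∧
      (∀ x, Q3 c (ρ x) = Q3 c' x) ∧ ∀ x, Q2 l₁ l₂ l₃ 0 (ρ x) = Q2 a b l₃ d x := by
  -- the angle
  obtain ⟨α, hα⟩ : ∃ α : ℝ, -c 5 * Real.sin (3 * α) + c 6 * Real.cos (3 * α) = 0 := by
    set z : ℂ := ⟨c 5, c 6⟩ with hz
    refine ⟨Complex.arg z / 3, ?_⟩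
    have h3 : 3 * (Complex.arg z / 3) = Complex.arg z := by ring
    rw [h3]
    have h1 : ‖z‖ * Real.cos (Complex.arg z) = c 5 := Complex.norm_mul_cos_arg z
    have h2 : ‖z‖ * Real.sin (Complex.arg z) = c 6 := Complex.norm_mul_sin_arg z
    rw [← h1, ← h2]
    ring
  set u := Real.cos α with hu
  set w := Real.sin α with hw
  have h : u ^ 2 + w ^ 2 = 1 := Real.cos_sq_add_sin_sq α
  have hc3 : Real.cos (3 * α) = u ^ 3 - 3 * u * w ^ 2 := by
    rw [Real.cos_three_mul, ← hu]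
    linear_combination (3 * u) * h
  have hs3 : Real.sin (3 * α) = 3 * u ^ 2 * w - w ^ 3 := by
    rw [Real.sin_three_mul, ← hw]
    linear_combination (-3 * w) * h
  rw [hc3, hs3] at hα
  have happ : ∀ x, trnA_iso u w h x = !₂[u * x 0 - w * x 1, w * x 0 + u * x 1, x 2] := fun x => rfl
  refine ⟨trnA_iso u w h, ![c 0, c 1 * u + c 2 * w, -c 1 * w + c 2 * u,
    c 3 * (u ^ 2 - w ^ 2) + c 4 * (u * w), -4 * (u * w) * c 3 + (u ^ 2 - w ^ 2) * c 4,
    c 5 * (u ^ 3 - 3 * u * w ^ 2) + c 6 * (3 * u ^ 2 * w - w ^ 3), 0],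
    l₁ * u ^ 2 + l₂ * w ^ 2, l₁ * w ^ 2 + l₂ * u ^ 2, 2 * (l₂ - l₁) * (u * w), ?_, ?_, ?_, ?_, ?_⟩
  · simp
  · linear_combination (l₁ + l₂) * h
  · linear_combination ((l₁ - l₂) ^ 2 * (u ^ 2 + w ^ 2 + 1)) * h
  · intro x
    rw [happ]
    simp only [Q3]
    simp
    linear_combination (-3 * c 0 * x 2 * (x 0 ^ 2 + x 1 ^ 2) -
      (c 1 * (u * x 0 - w * x 1) + c 2 * (w * x 0 + u * x 1)) * (x 0 ^ 2 + x 1 ^ 2)) * h +
      (3 * x 0 ^ 2 * x 1 - x 1 ^ 3) * hα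
  · intro x
    rw [happ]
    simp only [Q2]
    simp
    ring

end STH
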