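import Pool.Agent.Lib_helper59.STH.Defs

/-! # STH, block xxA -/

open MeasureTheory Filter Topology
open Pool.Agent.Lib_helper15.STE

namespace STH

theorem xxA_cr0 (ν x : E3) : cr ν x 0 = ν 1 * x 2 - ν 2 * x 1 := rfl
theorem xxA_cr1 (ν x : E3) : cr ν x 1 = ν 2 * x 0 - ν 0 * x 2 := rfl
theorem xxA_cr2 (ν x : E3) : cr ν x 2 = ν 0 * x 1 - ν 1 * x 0 := rfl

/-- the cross product as a continuous linear map -/
noncomputable def xxA_L (ν : E3) : E3 →L[ℝ] E3 := LinearMap.toContinuousLinearMap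
  { toFun := fun x => cr ν x
    map_add' := by
      intro x y
      ext i
      fin_cases i <;> simp [cr] <;> ring
    map_smul' := by
      intro c x
      ext i
      fin_cases i <;> simp [cr] <;> ring }

theorem xxA_L_apply (ν x : E3) : xxA_L ν x = cr ν x := rfl

theorem xxA_smul (c : ℝ) (ν x : E3) : cr (c • ν) x = c • cr ν x := by
  ext i
  fin_cases i <;> simp [cr] <;> ring

theorem xxA_normsq (x : E3) : ‖x‖ ^ 2 = x 0 ^ 2 + x 1 ^ 2 + x 2 ^ 2 := by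
  rw [EuclideanSpace.real_norm_sq_eq, Fin.sum_univ_three]

theorem xxA_crnorm (ν x : E3) (hν : ‖ν‖ = 1) : ‖cr ν x‖ ≤ ‖x‖ := by
  refine le_of_sq_le_sq ?_ (norm_nonneg _)
  have h1 := xxA_normsq ν
  rw [hν] at h1
  rw [xxA_normsq, xxA_normsq, xxA_cr0, xxA_cr1, xxA_cr2]
  nlinarith [sq_nonneg (ν 0 * x 0 + ν 1 * x 1 + ν 2 * x 2)]

theorem xxA_exists (ν : E3) (hν : ‖ν‖ = 1) (t : ℝ) : ∃ R : E3 ≃ₗᵢ[ℝ] E3, ∀ x : E3,
    R x = Real.cos t • x + Real.sin t • cr ν x +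
      ((1 - Real.cos t) * (ν 0 * x 0 + ν 1 * x 1 + ν 2 * x 2)) • ν := by
  let L : E3 →ₗ[ℝ] E3 :=
    { toFun := fun x => Real.cos t • x + Real.sin t • cr ν x +
        ((1 - Real.cos t) * (ν 0 * x 0 + ν 1 * x 1 + ν 2 * x 2)) • ν
      map_add' := by
        intro x y
        ext i
        fin_cases i <;> simp [cr] <;> ring
      map_smul' := by
        intro c x
        ext i
        fin_cases i <;> simp [cr] <;> ring }
  have h1 := xxA_normsq ν
  rw [hν] at h1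
  have h2 := Real.sin_sq_add_cos_sq t
  have hL : ∀ x, ‖L x‖ = ‖x‖ := by
    intro x
    have hsq : ‖L x‖ ^ 2 = ‖x‖ ^ 2 := by
      rw [xxA_normsq, xxA_normsq]
      have e0 : L x 0 = Real.cos t * x 0 + Real.sin t * (ν 1 * x 2 - ν 2 * x 1) +
        (1 - Real.cos t) * (ν 0 * x 0 + ν 1 * x 1 + ν 2 * x 2) * ν 0 := rfl
      have e1 : L x 1 = Real.cos t * x 1 + Real.sin t * (ν 2 * x 0 - ν 0 * x 2) +
        (1 - Real.cos t) * (ν 0 * x 0 + ν 1 * x 1 + ν 2 * x 2) * ν 1 := rfl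
      have e2 : L x 2 = Real.cos t * x 2 + Real.sin t * (ν 0 * x 1 - ν 1 * x 0) +
        (1 - Real.cos t) * (ν 0 * x 0 + ν 1 * x 1 + ν 2 * x 2) * ν 2 := rfl
      rw [e0, e1, e2]
      have h1' : ν 0 ^ 2 + ν 1 ^ 2 + ν 2 ^ 2 = 1 := by rw [← h1]; norm_num
      generalize Real.cos t = c at *
      generalize Real.sin t = s at *
      linear_combination (x 0 ^ 2 + x 1 ^ 2 + x 2 ^ 2 - (ν 0 * x 0 + ν 1 * x 1 + ν 2 * x 2) ^ 2) *
        h2 + (s ^ 2 * (x 0 ^ 2 + x 1 ^ 2 + x 2 ^ 2) +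
          (1 - c) ^ 2 * (ν 0 * x 0 + ν 1 * x 1 + ν 2 * x 2) ^ 2) * h1'
    exact (pow_left_inj₀ (norm_nonneg _) (norm_nonneg _) two_ne_zero).mp hsq
  exact ⟨LinearIsometry.toLinearIsometryEquiv ⟨L, hL⟩ rfl, fun x => rfl⟩

theorem rotz_exists (ν : E3) (hν : ‖ν‖ = 1) : ∃ R : ℝ → (E3 ≃ₗᵢ[ℝ] E3), R 0 = LinearIsometryEquiv.refl ℝ E3 ∧
    (∀ (x : E3) (t : ℝ), HasDerivAt (fun s => R s x) (cr ν (R t x)) t) ∧
    ∀ (x : E3) (s t : ℝ), ‖R s x - R t x‖ ≤ |s - t| * ‖x‖ := by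
  choose R hR using xxA_exists ν hν
  have hder : ∀ (x : E3) (t : ℝ), HasDerivAt (fun s => R s x) (cr ν (R t x)) t := by
    intro x t
    have h1 : (fun s => R s x) = fun s => Real.cos s • x + Real.sin s • cr ν x +
      ((1 - Real.cos s) * (ν 0 * x 0 + ν 1 * x 1 + ν 2 * x 2)) • ν := by
      funext s
      exact hR s x
    rw [h1]
    have h2 := (((Real.hasDerivAt_cos t).smul_const x).add
      ((Real.hasDerivAt_sin t).smul_const (cr ν x))).add
      ((((Real.hasDerivAt_cos t).const_sub 1).mul_const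
        (ν 0 * x 0 + ν 1 * x 1 + ν 2 * x 2)).smul_const ν)
    have hN := xxA_normsq ν
    rw [hν] at hN
    have hN' : ν 0 ^ 2 + ν 1 ^ 2 + ν 2 ^ 2 = 1 := by rw [← hN]; norm_num
    have h3 : cr ν (R t x) = -Real.sin t • x + Real.cos t • cr ν x +
      (- -Real.sin t * (ν 0 * x 0 + ν 1 * x 1 + ν 2 * x 2)) • ν := ?_
    · rw [h3]
      exact h2
    rw [hR]
    ext i
    fin_cases i
    · simp [cr]
      linear_combination (-Real.sin t * x 0) * hN'
    · simp [cr]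
      linear_combination (-Real.sin t * x 1) * hN'
    · simp [cr]
      linear_combination (-Real.sin t * x 2) * hN'
  refine ⟨R, ?_, hder, ?_⟩
  · ext1 x
    rw [hR]
    simp
  · intro x s t
    have h1 := Convex.norm_image_sub_le_of_norm_hasDerivWithin_le (f := fun s => R s x)
      (f' := fun s => cr ν (R s x)) (s := Set.univ) (x := t) (y := s) (C := ‖x‖)
      (fun r _ => (hder x r).hasDerivWithinAt) (fun r _ => by
        refine (xxA_crnorm ν (R r x) hν).trans ?_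
        rw [LinearIsometryEquiv.norm_map]) convex_univ (Set.mem_univ _) (Set.mem_univ _)
    rw [mul_comm, ← Real.norm_eq_abs]
    exact h1

theorem XX_meas (F : E3 → ℝ) (ν : E3) : Measurable (XX ν F) := by
  have h1 : Measurable (fderiv ℝ F) := measurable_fderiv ℝ F
  have h2 : Measurable (fun x : E3 => cr ν x) := (xxA_L ν).continuous.measurable
  have h3 : Measurable (fun p : (E3 →L[ℝ] ℝ) × E3 => p.1 p.2) :=
    (isBoundedBilinearMap_apply (𝕜 := ℝ) (E := E3) (F := ℝ)).continuous.measurable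
  exact h3.comp (h1.prodMk h2)

/-- derivative along the rotation -/
theorem xxA_deriv (F : E3 → ℝ) (ν x : E3) (R : ℝ → (E3 ≃ₗᵢ[ℝ] E3))
    (h0 : R 0 = LinearIsometryEquiv.refl ℝ E3)
    (hR : ∀ (x : E3) (t : ℝ), HasDerivAt (fun s => R s x) (cr ν (R t x)) t)
    (hF : DifferentiableAt ℝ F x) : HasDerivAt (fun t => F (R t x)) (XX ν F x) 0 := by
  have h1 := hR x 0
  have hx : R 0 x = x := by rw [h0]; rfl
  rw [hx] at h1
  have h2 : HasFDerivAt F (fderiv ℝ F x) (R 0 x) := by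
    rw [hx]
    exact hF.hasFDerivAt
  exact h2.comp_hasDerivAt 0 h1

theorem xxA_XXsmul (F : E3 → ℝ) (c : ℝ) (ν x : E3) : XX (c • ν) F x = c * XX ν F x := by
  unfold XX
  rw [xxA_smul, map_smul, smul_eq_mul]

theorem xxA_scale (ν : E3) (hν : ν ≠ 0) : ∃ ν' : E3, ‖ν'‖ = 1 ∧ ν = ‖ν‖ • ν' := by
  have h : ‖ν‖ ≠ 0 := norm_ne_zero_iff.mpr hν
  refine ⟨‖ν‖⁻¹ • ν, ?_, ?_⟩
  · rw [norm_smul, norm_inv, norm_norm, inv_mul_cancel₀ h]
  · rw [smul_smul, mul_inv_cancel₀ h, one_smul]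

theorem xxA_zero (F : E3 → ℝ) (x : E3) : XX 0 F x = 0 := by
  have := xxA_XXsmul F 0 0 x
  rw [zero_smul, zero_mul] at this
  exact this

theorem XX_bdd {F : E3 → ℝ} (hF : Good F) (ν : E3) :
    ∃ C, ∀ x : E3, ‖x‖ = 1 → |XX ν F x| ≤ C := by
  by_cases hν : ν = 0
  · refine ⟨0, fun x _ => ?_⟩
    rw [hν, xxA_zero, abs_zero]
  obtain ⟨ν', hν', hνν'⟩ := xxA_scale ν hν
  obtain ⟨R, h0, hR, hLip⟩ := rotz_exists ν' hν'
  obtain ⟨C, hC⟩ := hF.lip
  have hC0 : 0 ≤ C := by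
    have h1 := hC (e 0) (-(e 0)) (by simp [e]) (by simp [e])
    have h2 : ‖e 0 - -(e 0)‖ = 2 := by
      have : e 0 - -(e 0) = (2:ℝ) • e 0 := by
        rw [sub_neg_eq_add, two_smul]
      rw [this, norm_smul]
      simp [e]
    rw [h2] at h1
    have := abs_nonneg (F (e 0) - F (-(e 0)))
    linarith
  refine ⟨‖ν‖ * C, fun x hx => ?_⟩
  rw [hνν', xxA_XXsmul, abs_mul, norm_smul, norm_norm, hν', mul_one, abs_of_nonneg (norm_nonneg ν)]
  refine mul_le_mul_of_nonneg_left ?_ (norm_nonneg ν)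
  by_cases hd : DifferentiableAt ℝ F x
  · have h1 := xxA_deriv F ν' x R h0 hR hd
    have h2 := h1.hasFDerivAt.le_of_lip' hC0 (Filter.Eventually.of_forall fun t => by
      have hx0 : R 0 x = x := by rw [h0]; rfl
      rw [Real.norm_eq_abs]
      calc |F (R t x) - F (R 0 x)| ≤ C * ‖R t x - R 0 x‖ :=
            hC _ _ (by rw [LinearIsometryEquiv.norm_map, hx]) (by rw [hx0, hx])
        _ ≤ C * (|t - 0| * ‖x‖) := by
            gcongr
            exact hLip x t 0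
        _ = C * ‖t - 0‖ := by rw [hx, mul_one, Real.norm_eq_abs])
    simpa using h2
  · have : XX ν' F x = 0 := by
      unfold XX
      rw [fderiv_zero_of_not_differentiableAt hd]
      rfl
    rw [this, abs_zero]
    exact hC0

theorem XX_congr {F G : E3 → ℝ} (x : E3) (hx : ‖x‖ = 1) (hF : DifferentiableAt ℝ F x)
    (hG : DifferentiableAt ℝ G x) (h : ∀ y : E3, ‖y‖ = 1 → F y = G y) (ν : E3) :
    XX ν F x = XX ν G x := by
  by_cases hν : ν = 0
  · rw [hν, xxA_zero, xxA_zero]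
  obtain ⟨ν', hν', hνν'⟩ := xxA_scale ν hν
  obtain ⟨R, h0, hR, -⟩ := rotz_exists ν' hν'
  rw [hνν', xxA_XXsmul, xxA_XXsmul]
  have h1 := xxA_deriv F ν' x R h0 hR hF
  have h2 := xxA_deriv G ν' x R h0 hR hG
  have h3 : (fun t => F (R t x)) = fun t => G (R t x) := by
    funext t
    exact h _ (by rw [LinearIsometryEquiv.norm_map, hx])
  rw [h3] at h1
  rw [h1.unique h2]

end STH
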