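import Pool.Agent.Lib_helper59.STH.Defs
import Pool.Agent.Lib_helper59.STHF.xxA
import Pool.Agent.Lib_helper59.STHF.xxB
import Pool.Agent.Lib_helper59.STHF.valg
import Pool.Agent.Lib_helper59.STHF.gooA
import Pool.Agent.Lib_helper59.STHF.cmpA
import Pool.Agent.Lib_helper59.STHF.frmA
import Pool.Agent.Lib_helper59.STHF.frmB
import Pool.Agent.Lib_helper59.STHF.trnA
import Pool.Agent.Lib_helper59.STHF.q2A
import Pool.Agent.Lib_helper59.STHF.q3A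
import Pool.Agent.Lib_helper15.STE.B.sigA

/-! # STH, block axsA: the choice of the axes for the harmonics of degree 2 and 3 -/

open MeasureTheory Filter Topology
open Pool.Agent.Lib_helper15.STE

namespace STH

theorem axsA_coord (i : Fin 3) : Differentiable ℝ (fun x : E3 => x i) :=
  (EuclideanSpace.proj (𝕜 := ℝ) i).differentiable

theorem axsA_Q2_diff (a b c d : ℝ) : Differentiable ℝ (Q2 a b c d) := by
  have h0 := axsA_coord 0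
  have h1 := axsA_coord 1
  have h2 := axsA_coord 2
  unfold Q2
  exact ((((h0.pow 2).const_mul a).add ((h1.pow 2).const_mul b)).add ((h2.pow 2).const_mul c)).add
    ((h0.mul h1).const_mul d)

theorem axsA_Q3_diff (c : Fin 7 → ℝ) : Differentiable ℝ (Q3 c) := by
  have h0 := axsA_coord 0
  have h1 := axsA_coord 1
  have h2 := axsA_coord 2
  unfold Q3
  fun_prop

theorem axsA_ip_congr {p q p' q' : E3 → ℝ} (h : ∀ x : E3, ‖x‖ = 1 → p x = p' x)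
    (h' : ∀ x : E3, ‖x‖ = 1 → q x = q' x) : ip p q = ip p' q' := by
  unfold ip
  refine integral_congr_ae ?_
  filter_upwards [sigA_sphere] with x hx
  rw [h x hx, h' x hx]

theorem axsA_AA_congr {n : ℕ} {F G : E3 → ℝ} (hF : Differentiable ℝ F) (hG : Differentiable ℝ G)
    (h : ∀ x : E3, ‖x‖ = 1 → F x = G x) {ν : E3} (hν : ‖ν‖ = 1) : AA n ν F = AA n ν G := by
  unfold AA
  rw [axsA_ip_congr (p' := XX ν G) (q' := XX ν G)
      (fun x hx => XX_congr x hx (hF x) (hG x) h ν)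
      (fun x hx => XX_congr x hx (hF x) (hG x) h ν),
    axsA_ip_congr (p := F) (q := F) h h, h ν hν]

theorem axsA_HH_diff {n : ℕ} {h : E3 → ℝ} (hh : HH n h) : Differentiable ℝ h :=
  (V_smooth hh.mem).differentiable (by norm_num)

theorem axsA_norm_e (i : Fin 3) : ‖e i‖ = 1 := by
  unfold e
  simp

theorem axsA_norm_ax (k : Fin 3) : ‖ax k‖ = 1 := by
  unfold ax
  rw [EuclideanSpace.norm_eq]
  simp [Fin.sum_univ_three]

/-- the arithmetic of the first case -/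
theorem axsA_arith1 {s t : ℝ} (hs : 0 ≤ s) (h1 : 16 / 100 * s ≤ t) (h2 : t ≤ s) :
    2.4752 * ((3 * s ^ 2 + t ^ 2) / 15) ≤ (3 * s + t) ^ 2 / 20 := by
  nlinarith [mul_nonneg (sub_nonneg.2 h1) (sub_nonneg.2 h2), mul_nonneg hs (sub_nonneg.2 h1)]

theorem axsA_arith2 {s t : ℝ} (ht : 0 ≤ t) (h1 : t ≤ 16 / 100 * s) :
    3 * 2.2341 * ((3 * s ^ 2 + t ^ 2) / 15) ≤ 27 / 20 * s ^ 2 + 3 / 40 * t ^ 2 := by
  have h : t ^ 2 ≤ (16 / 100 * s) ^ 2 := pow_le_pow_left₀ ht h1 2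
  nlinarith [sq_nonneg s]

theorem axsA_dist {l₁ l₂ l₃ : ℝ} (h0 : l₁ + l₂ + l₃ = 0) (h1 : |l₁| ≤ |l₃|) (h2 : |l₂| ≤ |l₃|) :
    |l₁ - l₂| ≤ |l₃| := by
  rcases abs_cases l₁ with ⟨a1, b1⟩ | ⟨a1, b1⟩ <;> rcases abs_cases l₂ with ⟨a2, b2⟩ | ⟨a2, b2⟩ <;>
    rcases abs_cases l₃ with ⟨a3, b3⟩ | ⟨a3, b3⟩ <;>
    rcases abs_cases (l₁ - l₂) with ⟨a4, b4⟩ | ⟨a4, b4⟩ <;> linarith

theorem axes {p q : E3 → ℝ} (hp : HH 2 p) (hq : HH 3 q) :
    (∃ g : E3 ≃ₗᵢ[ℝ] E3, 2.4752 * ip p p ≤ AA 2 (e 2) (p ∘ g)) ∨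
    (∃ g : Fin 3 → (E3 ≃ₗᵢ[ℝ] E3), 3 * 2.2341 * ip p p ≤ ∑ k, AA 2 (e 2) (p ∘ g k) ∧
      27 / 8 * ip q q ≤ ∑ k, AA 3 (e 2) (q ∘ g k)) := by
  obtain ⟨g, l₁, l₂, l₃, h0, h1, h2, hform⟩ := HH2_form hp
  have hd := axsA_dist h0 h1 h2
  have hpg : HH 2 (p ∘ g) := HH_comp hp g
  have hnorm : ip p p = (3 * |l₃| ^ 2 + |l₁ - l₂| ^ 2) / 15 := by
    have e0 : ip (p ∘ g) (p ∘ g) = ip (Q2 l₁ l₂ l₃ 0) (Q2 l₁ l₂ l₃ 0) :=
      axsA_ip_congr hform hform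
    rw [← ip_comp p p g, e0, Q2_norm _ _ _ _ h0, sq_abs, sq_abs]
    have h3 : l₃ = -(l₁ + l₂) := by linarith
    rw [h3]
    ring
  rcases le_total (16 / 100 * |l₃|) |l₁ - l₂| with hc | hc
  · left
    have key : ∀ i : Fin 3, AA 2 (e i) (Q2 l₁ l₂ l₃ 0) = (3 * |l₃| + |l₁ - l₂|) ^ 2 / 20 →
        ∃ g : E3 ≃ₗᵢ[ℝ] E3, 2.4752 * ip p p ≤ AA 2 (e 2) (p ∘ g) := by
      intro i hi
      obtain ⟨σ, hσ⟩ := exists_iso (e i) (axsA_norm_e i)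
      refine ⟨σ.trans g, ?_⟩
      have e1 : p ∘ (σ.trans g) = (p ∘ g) ∘ σ := rfl
      rw [e1, AA_comp hpg σ (e 2), hσ,
        axsA_AA_congr (axsA_HH_diff hpg) (axsA_Q2_diff l₁ l₂ l₃ 0) (fun x hx => hform x hx)
          (axsA_norm_e i), hi, hnorm]
      exact axsA_arith1 (abs_nonneg _) hc hd
    obtain ⟨ha, hb⟩ := Q2_axis l₁ l₂ l₃ h0
    rcases le_total 0 (l₃ * (l₁ - l₂)) with hs | hs
    · refine key 0 ?_
      rw [ha]
      have hab : |l₃| * |l₁ - l₂| = l₃ * (l₁ - l₂) := by rw [← abs_mul, abs_of_nonneg hs]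
      have h3 : l₂ - l₃ = -(3 * l₃ + (l₁ - l₂)) / 2 := by linarith
      rw [h3]
      have : (3 * |l₃| + |l₁ - l₂|) ^ 2 = 9 * |l₃| ^ 2 + 6 * (|l₃| * |l₁ - l₂|) + |l₁ - l₂| ^ 2 := by
        ring
      rw [this, hab, sq_abs, sq_abs]
      ring
    · refine key 1 ?_
      rw [hb]
      have hab : |l₃| * |l₁ - l₂| = -(l₃ * (l₁ - l₂)) := by rw [← abs_mul, abs_of_nonpos hs]
      have h3 : l₁ - l₃ = -(3 * l₃ - (l₁ - l₂)) / 2 := by linarith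
      rw [h3]
      have : (3 * |l₃| + |l₁ - l₂|) ^ 2 = 9 * |l₃| ^ 2 + 6 * (|l₃| * |l₁ - l₂|) + |l₁ - l₂| ^ 2 := by
        ring
      rw [this, hab, sq_abs, sq_abs]
      ring
  · right
    obtain ⟨c, hc3⟩ := HH3_form (HH_comp hq g)
    obtain ⟨ρ, c', a, b, d, hc6, hab, hsq, hQ3, hQ2⟩ := turn c l₁ l₂ l₃
    have hax : ∀ k : Fin 3, ∃ σ : E3 ≃ₗᵢ[ℝ] E3, σ (e 2) = ax k := fun k =>
      exists_iso (ax k) (axsA_norm_ax k)
    choose σ hσ using hax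
    have hP : HH 2 (p ∘ (ρ.trans g)) := HH_comp hp _
    have hQ : HH 3 (q ∘ (ρ.trans g)) := HH_comp hq _
    have hPf : ∀ x : E3, ‖x‖ = 1 → (p ∘ (ρ.trans g)) x = Q2 a b l₃ d x := by
      intro x hx
      have : (p ∘ (ρ.trans g)) x = p (g (ρ x)) := rfl
      rw [this, hform (ρ x) (by rw [ρ.norm_map, hx]), hQ2]
    have hQf : ∀ x : E3, ‖x‖ = 1 → (q ∘ (ρ.trans g)) x = Q3 c' x := by
      intro x hx
      have : (q ∘ (ρ.trans g)) x = (q ∘ g) (ρ x) := rfl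
      rw [this, hc3 (ρ x) (by rw [ρ.norm_map, hx]), hQ3]
    refine ⟨fun k => (σ k).trans (ρ.trans g), ?_, ?_⟩
    · have e1 : ∀ k : Fin 3, AA 2 (e 2) (p ∘ ((σ k).trans (ρ.trans g))) =
          AA 2 (ax k) (Q2 a b l₃ d) := by
        intro k
        have e2 : p ∘ ((σ k).trans (ρ.trans g)) = (p ∘ (ρ.trans g)) ∘ (σ k) := rfl
        rw [e2, AA_comp hP (σ k) (e 2), hσ,
          axsA_AA_congr (axsA_HH_diff hP) (axsA_Q2_diff a b l₃ d) hPf (axsA_norm_ax k)]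
      rw [Finset.sum_congr rfl (fun k _ => e1 k), Q2_three a b l₃ d (by linarith), hsq, hnorm,
        ← sq_abs l₃, ← sq_abs (l₁ - l₂)]
      exact axsA_arith2 (abs_nonneg _) hc
    · have e1 : ∀ k : Fin 3, AA 3 (e 2) (q ∘ ((σ k).trans (ρ.trans g))) =
          AA 3 (ax k) (Q3 c') := by
        intro k
        have e2 : q ∘ ((σ k).trans (ρ.trans g)) = (q ∘ (ρ.trans g)) ∘ (σ k) := rfl
        rw [e2, AA_comp hQ (σ k) (e 2), hσ,
          axsA_AA_congr (axsA_HH_diff hQ) (axsA_Q3_diff c') hQf (axsA_norm_ax k)]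
      rw [Finset.sum_congr rfl (fun k _ => e1 k), ← ip_comp q q (ρ.trans g),
        axsA_ip_congr hQf hQf]
      exact Q3_three c' hc6

end STH
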