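import Pool.Agent.Lib_helper59.STH.Defs
import Pool.Agent.Lib_helper59.STHF.valg

/-! # STH, block vxx -/

open MeasureTheory Filter Topology
open Pool.Agent.Lib_helper15.STE

namespace STH

theorem vxx_mem {n i j k : ℕ} (h : i + j + k ≤ n) : mon i j k ∈ V n :=
  Submodule.subset_span ⟨i, j, k, h, rfl⟩

/-- the derivative of a monomial -/
theorem vxx_hfd (i j k : ℕ) (x : E3) : ∃ L : E3 →L[ℝ] ℝ, HasFDerivAt (mon i j k) L x ∧
    ∀ y : E3, L y = (i:ℝ) * x 0 ^ (i - 1) * y 0 * x 1 ^ j * x 2 ^ k +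
      (j:ℝ) * x 1 ^ (j - 1) * y 1 * x 0 ^ i * x 2 ^ k +
      (k:ℝ) * x 2 ^ (k - 1) * y 2 * x 0 ^ i * x 1 ^ j := by
  have h0 : HasFDerivAt (fun z : E3 => z 0) (EuclideanSpace.proj (𝕜 := ℝ) (0 : Fin 3)) x :=
    (EuclideanSpace.proj (𝕜 := ℝ) (0 : Fin 3)).hasFDerivAt
  have h1 : HasFDerivAt (fun z : E3 => z 1) (EuclideanSpace.proj (𝕜 := ℝ) (1 : Fin 3)) x :=
    (EuclideanSpace.proj (𝕜 := ℝ) (1 : Fin 3)).hasFDerivAt
  have h2 : HasFDerivAt (fun z : E3 => z 2) (EuclideanSpace.proj (𝕜 := ℝ) (2 : Fin 3)) x :=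
    (EuclideanSpace.proj (𝕜 := ℝ) (2 : Fin 3)).hasFDerivAt
  refine ⟨_, ((h0.pow i).mul (h1.pow j)).mul (h2.pow k), fun y => ?_⟩
  simp
  ring

theorem vxx_diff (i j k : ℕ) : Differentiable ℝ (mon i j k) := fun x => by
  obtain ⟨L, hL, -⟩ := vxx_hfd i j k x
  exact hL.differentiableAt

theorem vxx_XXmon (i j k : ℕ) (ν : E3) (x : E3) : XX ν (mon i j k) x =
    ν 0 * ((k:ℝ) * mon i (j + 1) (k - 1) x - (j:ℝ) * mon i (j - 1) (k + 1) x) +
    ν 1 * ((i:ℝ) * mon (i - 1) j (k + 1) x - (k:ℝ) * mon (i + 1) j (k - 1) x) +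
    ν 2 * ((j:ℝ) * mon (i + 1) (j - 1) k x - (i:ℝ) * mon (i - 1) (j + 1) k x) := by
  obtain ⟨L, hL, hy⟩ := vxx_hfd i j k x
  unfold XX
  rw [hL.fderiv, hy]
  simp only [cr, mon, PiLp.toLp_apply, Matrix.cons_val_zero, Matrix.cons_val_one,
    Matrix.cons_val]
  ring

/-- linearity -/
theorem vxx_add {p q : E3 → ℝ} (hp : Differentiable ℝ p) (hq : Differentiable ℝ q) (ν : E3) :
    XX ν (p + q) = XX ν p + XX ν q := by
  funext x
  unfold XX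
  rw [fderiv_add (hp x) (hq x)]
  rfl

theorem vxx_smul {p : E3 → ℝ} (hp : Differentiable ℝ p) (c : ℝ) (ν : E3) :
    XX ν (c • p) = c • XX ν p := by
  funext x
  unfold XX
  rw [fderiv_const_smul (hp x)]
  rfl

theorem vxx_zero (ν : E3) : XX ν (0 : E3 → ℝ) = 0 := by
  funext x
  unfold XX
  simp

theorem vxx_cmem {n i j k : ℕ} (c : ℕ) (h : c ≠ 0 → i + j + k ≤ n) :
    (fun x => (c:ℝ) * mon i j k x) ∈ V n := by
  by_cases hc : c = 0
  · subst hc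
    have : (fun x : E3 => ((0:ℕ):ℝ) * mon i j k x) = 0 := by
      funext x; simp
    rw [this]
    exact Submodule.zero_mem _
  · have : (fun x : E3 => (c:ℝ) * mon i j k x) = (c:ℝ) • mon i j k := rfl
    rw [this]
    exact Submodule.smul_mem _ _ (vxx_mem (h hc))

theorem vxx_XXmem {n i j k : ℕ} (h : i + j + k ≤ n) (ν : E3) : XX ν (mon i j k) ∈ V n := by
  have e1 : XX ν (mon i j k) =
      ν 0 • ((fun x => (k:ℝ) * mon i (j + 1) (k - 1) x) - (fun x => (j:ℝ) * mon i (j - 1) (k + 1) x)) +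
      ν 1 • ((fun x => (i:ℝ) * mon (i - 1) j (k + 1) x) - (fun x => (k:ℝ) * mon (i + 1) j (k - 1) x)) +
      ν 2 • ((fun x => (j:ℝ) * mon (i + 1) (j - 1) k x) -
        (fun x => (i:ℝ) * mon (i - 1) (j + 1) k x)) := by
    funext x
    rw [vxx_XXmon]
    rfl
  rw [e1]
  refine Submodule.add_mem _ (Submodule.add_mem _ ?_ ?_) ?_ <;>
    refine Submodule.smul_mem _ _ (Submodule.sub_mem _ ?_ ?_) <;>
    exact vxx_cmem _ (fun _ => by omega)

theorem V_XX {n : ℕ} {p : E3 → ℝ} (hp : p ∈ V n) (ν : E3) : XX ν p ∈ V n := by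
  have key : Differentiable ℝ p ∧ XX ν p ∈ V n := by
    unfold V at hp
    refine Submodule.span_induction
      (p := fun q _ => Differentiable ℝ q ∧ XX ν q ∈ V n) ?_ ?_ ?_ ?_ hp
    · rintro q ⟨i, j, k, h, rfl⟩
      exact ⟨vxx_diff i j k, vxx_XXmem h ν⟩
    · refine ⟨differentiable_const _, ?_⟩
      rw [vxx_zero]
      exact Submodule.zero_mem _
    · rintro q r - - ⟨h1, h2⟩ ⟨h3, h4⟩
      refine ⟨h1.add h3, ?_⟩
      rw [vxx_add h1 h3]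
      exact Submodule.add_mem _ h2 h4
    · rintro c q - ⟨h1, h2⟩
      refine ⟨h1.const_smul c, ?_⟩
      rw [vxx_smul h1]
      exact Submodule.smul_mem _ _ h2
  exact key.2

theorem vxx_Vdiff {n : ℕ} {p : E3 → ℝ} (hp : p ∈ V n) : Differentiable ℝ p :=
  (V_smooth hp).differentiable (by norm_num)

/-- second derivatives, linearity -/
theorem vxx_add2 {n : ℕ} {p q : E3 → ℝ} (hp : p ∈ V n) (hq : q ∈ V n) (ν : E3) :
    XX ν (XX ν (p + q)) = XX ν (XX ν p) + XX ν (XX ν q) := by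
  rw [vxx_add (vxx_Vdiff hp) (vxx_Vdiff hq),
    vxx_add (vxx_Vdiff (V_XX hp ν)) (vxx_Vdiff (V_XX hq ν))]

theorem vxx_smul2 {n : ℕ} {p : E3 → ℝ} (hp : p ∈ V n) (c : ℝ) (ν : E3) :
    XX ν (XX ν (c • p)) = c • XX ν (XX ν p) := by
  rw [vxx_smul (vxx_Vdiff hp), vxx_smul (vxx_Vdiff (V_XX hp ν))]

/-- a two term combination -/
theorem vxx_two (a b : ℝ) (i j k i' j' k' : ℕ) (ν : E3) (x : E3) :
    XX ν (fun x => a * mon i j k x - b * mon i' j' k' x) x =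
      a * XX ν (mon i j k) x - b * XX ν (mon i' j' k') x := by
  have e1 : (fun x => a * mon i j k x - b * mon i' j' k' x) =
      a • mon i j k + (-b) • mon i' j' k' := by
    funext y
    show a * mon i j k y - b * mon i' j' k' y = a * mon i j k y + (-b) * mon i' j' k' y
    ring
  rw [e1, vxx_add ((vxx_diff i j k).const_smul a) ((vxx_diff i' j' k').const_smul (-b)),
    vxx_smul (vxx_diff i j k), vxx_smul (vxx_diff i' j' k')]
  show a * XX ν (mon i j k) x + (-b) * XX ν (mon i' j' k') x = _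
  ring

theorem vxx_e (i l : Fin 3) : (e i : E3) l = if l = i then 1 else 0 := by
  unfold e
  rw [EuclideanSpace.single, PiLp.single_apply]

theorem vxx_X0 (i j k : ℕ) : XX (e 0) (mon i j k) =
    fun x => (k:ℝ) * mon i (j + 1) (k - 1) x - (j:ℝ) * mon i (j - 1) (k + 1) x := by
  funext x
  rw [vxx_XXmon, vxx_e, vxx_e, vxx_e]
  simp

theorem vxx_X1 (i j k : ℕ) : XX (e 1) (mon i j k) =
    fun x => (i:ℝ) * mon (i - 1) j (k + 1) x - (k:ℝ) * mon (i + 1) j (k - 1) x := by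
  funext x
  rw [vxx_XXmon, vxx_e, vxx_e, vxx_e]
  simp

theorem vxx_X2 (i j k : ℕ) : XX (e 2) (mon i j k) =
    fun x => (j:ℝ) * mon (i + 1) (j - 1) k x - (i:ℝ) * mon (i - 1) (j + 1) k x := by
  funext x
  rw [vxx_XXmon, vxx_e, vxx_e, vxx_e]
  simp

/-- `k t^(k-1+1) = k t^k` -/
theorem vxx_pow1 (k : ℕ) (t : ℝ) : (k:ℝ) * t ^ (k - 1 + 1) = (k:ℝ) * t ^ k := by
  rcases k with _ | k
  · simp
  · simp

theorem vxx_pow2 (k : ℕ) (t : ℝ) :
    (k:ℝ) * ((k - 1 : ℕ) : ℝ) * t ^ (k - 1 - 1) * t ^ 2 = (k:ℝ) * ((k:ℝ) - 1) * t ^ k := by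
  rcases k with _ | _ | k
  · simp
  · simp
  · simp only [Nat.add_sub_cancel]
    push_cast
    ring

/-- the Laplacian of a monomial -/
noncomputable def vxx_lp (i j k : ℕ) (x : E3) : ℝ :=
  (i:ℝ) * ((i - 1 : ℕ) : ℝ) * mon (i - 1 - 1) j k x +
  (j:ℝ) * ((j - 1 : ℕ) : ℝ) * mon i (j - 1 - 1) k x +
  (k:ℝ) * ((k - 1 : ℕ) : ℝ) * mon i j (k - 1 - 1) x

theorem vxx_sec (i j k : ℕ) (x : E3) (hx : ‖x‖ = 1) :
    ∑ l, XX (e l) (XX (e l) (mon i j k)) x =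
      -(((i + j + k : ℕ):ℝ) * (((i + j + k : ℕ):ℝ) + 1)) * mon i j k x + vxx_lp i j k x := by
  have h1 : x 0 ^ 2 + x 1 ^ 2 + x 2 ^ 2 = 1 := by
    have := EuclideanSpace.norm_sq_eq x
    rw [hx, Fin.sum_univ_three] at this
    simp only [Real.norm_eq_abs, sq_abs] at this
    linarith
  rw [Fin.sum_univ_three, vxx_X0, vxx_X1, vxx_X2, vxx_two, vxx_two, vxx_two,
    vxx_X0, vxx_X0, vxx_X1, vxx_X1, vxx_X2, vxx_X2]
  simp only [vxx_lp, mon, Nat.add_sub_cancel]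
  have a1 := vxx_pow1 i (x 0)
  have a2 := vxx_pow2 i (x 0)
  have b1 := vxx_pow1 j (x 1)
  have b2 := vxx_pow2 j (x 1)
  have c1 := vxx_pow1 k (x 2)
  have c2 := vxx_pow2 k (x 2)
  push_cast
  linear_combination ((k:ℝ) * ((k - 1 : ℕ) : ℝ) * x 2 ^ (k - 1 - 1) * x 0 ^ i * x 1 ^ j +
      (j:ℝ) * ((j - 1 : ℕ) : ℝ) * x 1 ^ (j - 1 - 1) * x 0 ^ i * x 2 ^ k +
      (i:ℝ) * ((i - 1 : ℕ) : ℝ) * x 0 ^ (i - 1 - 1) * x 1 ^ j * x 2 ^ k) * h1
    - x 0 ^ i * x 1 ^ j * c2 - x 0 ^ i * x 2 ^ k * b2 - x 1 ^ j * x 2 ^ k * a2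
    - ((j:ℝ) + k + 2) * x 1 ^ j * x 2 ^ k * a1 - ((i:ℝ) + k + 2) * x 0 ^ i * x 2 ^ k * b1
    - ((i:ℝ) + j + 2) * x 0 ^ i * x 1 ^ j * c1

theorem vxx_lpmem {n i j k : ℕ} (h : i + j + k ≤ n + 1) : vxx_lp i j k ∈ V n := by
  have e1 : vxx_lp i j k = (fun x => ((i * (i - 1) : ℕ) : ℝ) * mon (i - 1 - 1) j k x) +
      (fun x => ((j * (j - 1) : ℕ) : ℝ) * mon i (j - 1 - 1) k x) +
      (fun x => ((k * (k - 1) : ℕ) : ℝ) * mon i j (k - 1 - 1) x) := by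
    funext x
    simp only [vxx_lp, Pi.add_apply, Nat.cast_mul]
  rw [e1]
  have h0 : ∀ t : ℕ, t * (t - 1) ≠ 0 → 2 ≤ t := by
    intro t ht
    by_contra h1
    apply ht
    interval_cases t <;> rfl
  refine Submodule.add_mem _ (Submodule.add_mem _ ?_ ?_) ?_ <;> apply vxx_cmem <;>
    intro h2 <;> have h3 := h0 _ h2 <;> omega

/-- the statement for monomials -/
theorem vxx_lapmon {n i j k : ℕ} (h : i + j + k ≤ n + 1) :
    ∃ r ∈ V n, ∀ x : E3, ‖x‖ = 1 →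
      ∑ l, XX (e l) (XX (e l) (mon i j k)) x =
        -(((n:ℝ) + 1) * (n + 2)) * mon i j k x + r x := by
  rcases Nat.lt_or_ge n (i + j + k) with h1 | h1
  · have h2 : i + j + k = n + 1 := by omega
    refine ⟨vxx_lp i j k, vxx_lpmem h, fun x hx => ?_⟩
    rw [vxx_sec i j k x hx, h2]
    push_cast
    ring
  · refine ⟨(((n:ℝ) + 1) * (n + 2) - ((i + j + k : ℕ):ℝ) * (((i + j + k : ℕ):ℝ) + 1)) •
      mon i j k + vxx_lp i j k, Submodule.add_mem _ (Submodule.smul_mem _ _ (vxx_mem h1))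
        (vxx_lpmem h), fun x hx => ?_⟩
    rw [vxx_sec i j k x hx]
    simp only [Pi.add_apply, Pi.smul_apply, smul_eq_mul]
    ring

theorem V_lap {n : ℕ} {p : E3 → ℝ} (hp : p ∈ V (n + 1)) :
    ∃ r ∈ V n, ∀ x : E3, ‖x‖ = 1 →
      ∑ i, XX (e i) (XX (e i) p) x = -(((n:ℝ) + 1) * (n + 2)) * p x + r x := by
  have key : p ∈ V (n + 1) ∧ ∃ r ∈ V n, ∀ x : E3, ‖x‖ = 1 →
      ∑ i, XX (e i) (XX (e i) p) x = -(((n:ℝ) + 1) * (n + 2)) * p x + r x := by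
    have hp' := hp
    unfold V at hp'
    refine Submodule.span_induction
      (p := fun q _ => q ∈ V (n + 1) ∧ ∃ r ∈ V n, ∀ x : E3, ‖x‖ = 1 →
        ∑ i, XX (e i) (XX (e i) q) x = -(((n:ℝ) + 1) * (n + 2)) * q x + r x) ?_ ?_ ?_ ?_ hp'
    · rintro q ⟨i, j, k, h, rfl⟩
      exact ⟨vxx_mem h, vxx_lapmon h⟩
    · refine ⟨Submodule.zero_mem _, 0, Submodule.zero_mem _, fun x _ => ?_⟩
      simp only [vxx_zero, Pi.zero_apply, Finset.sum_const_zero, mul_zero, add_zero]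
    · rintro q s - - ⟨h1, r, hr, h2⟩ ⟨h3, t, ht, h4⟩
      refine ⟨Submodule.add_mem _ h1 h3, r + t, Submodule.add_mem _ hr ht, fun x hx => ?_⟩
      have e1 : ∑ i, XX (e i) (XX (e i) (q + s)) x =
          ∑ i, XX (e i) (XX (e i) q) x + ∑ i, XX (e i) (XX (e i) s) x := by
        rw [← Finset.sum_add_distrib]
        exact Finset.sum_congr rfl (fun i _ => by rw [vxx_add2 h1 h3]; rfl)
      rw [e1, h2 x hx, h4 x hx]
      simp only [Pi.add_apply]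
      ring
    · rintro c q - ⟨h1, r, hr, h2⟩
      refine ⟨Submodule.smul_mem _ _ h1, c • r, Submodule.smul_mem _ _ hr, fun x hx => ?_⟩
      have e1 : ∑ i, XX (e i) (XX (e i) (c • q)) x = c * ∑ i, XX (e i) (XX (e i) q) x := by
        rw [Finset.mul_sum]
        exact Finset.sum_congr rfl (fun i _ => by rw [vxx_smul2 h1]; rfl)
      rw [e1, h2 x hx]
      simp only [Pi.smul_apply, smul_eq_mul]
      ring
  exact key.2

end STH
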