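import Pool.Agent.Lib_helper59.STH.Defs
import Pool.Agent.Lib_helper59.STHF.gooA
import Pool.Agent.Lib_helper59.STHF.xxA
import Pool.Agent.Lib_helper59.STHF.valg
import Pool.Agent.Lib_helper59.STHF.vxx
import Pool.Agent.Lib_helper15.STE.B.sigA

/-! # STH, block ibpA : integration by parts for rotation fields -/

open MeasureTheory Filter Topology
open Pool.Agent.Lib_helper15.STE

namespace STH

theorem ibpA_cr_smul (r : ℝ) (ν x : E3) : cr (r • ν) x = r • cr ν x := by
  ext i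
  fin_cases i <;> simp [cr] <;> ring

theorem ibpA_cr_zero (x : E3) : cr 0 x = 0 := by
  ext i
  fin_cases i <;> simp [cr]

theorem ibpA_XX_smul (r : ℝ) (ν : E3) (F : E3 → ℝ) (x : E3) :
    XX (r • ν) F x = r * XX ν F x := by
  unfold XX
  rw [ibpA_cr_smul, map_smul, smul_eq_mul]

theorem ibpA_bdd_int {f : E3 → ℝ} (hf : Measurable f) (h : ∃ C, ∀ x : E3, ‖x‖ = 1 → |f x| ≤ C) :
    Integrable f sig := by
  have := sigA_prob
  obtain ⟨C, hC⟩ := h
  refine Integrable.of_bound hf.aestronglyMeasurable C ?_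
  filter_upwards [sigA_sphere] with x hx
  exact hC x hx

theorem ibpA_int_unit {F : E3 → ℝ} (hF : Good F) (ν : E3) (hν : ‖ν‖ = 1) :
    ∫ x, XX ν F x ∂sig = 0 := by
  have := sigA_prob
  obtain ⟨R, hR0, hRd, hRl⟩ := rotz_exists ν hν
  obtain ⟨C, hC⟩ := hF.lip
  have hJ : ∀ t : ℝ, ∫ x, F (R t x) ∂sig = ∫ x, F x ∂sig := by
    intro t
    have h1 : ∫ x, F x ∂(sig.map (R t)) = ∫ x, F (R t x) ∂sig :=
      integral_map (R t).continuous.measurable.aemeasurable hF.meas.aestronglyMeasurable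
    rw [← h1, sigA_map]
  have hR0x : ∀ x : E3, R 0 x = x := by
    intro x
    rw [hR0]
    rfl
  have key := hasDerivAt_integral_of_dominated_loc_of_lip (μ := sig) (𝕜 := ℝ)
    (F := fun t x => F (R t x)) (x₀ := (0 : ℝ)) (s := Set.univ) univ_mem
    (bound := fun _ => |C|) (F' := XX ν F)
    (Filter.Eventually.of_forall fun t =>
      (hF.meas.comp (R t).continuous.measurable).aestronglyMeasurable)
    (ibpA_bdd_int (hF.meas.comp (R 0).continuous.measurable) (by
      obtain ⟨B, hB⟩ := hF.bdd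
      exact ⟨B, fun x hx => hB _ (by rw [LinearIsometryEquiv.norm_map]; exact hx)⟩))
    (XX_meas F ν).aestronglyMeasurable
    (by
      filter_upwards [sigA_sphere] with x hx
      refine LipschitzOnWith.of_dist_le_mul fun s _ t _ => ?_
      rw [Real.dist_eq, Real.dist_eq]
      have h1 := hC (R s x) (R t x) (by rw [LinearIsometryEquiv.norm_map]; exact hx)
        (by rw [LinearIsometryEquiv.norm_map]; exact hx)
      have h2 := hRl x s t
      rw [hx, mul_one] at h2
      calc |F (R s x) - F (R t x)| ≤ C * ‖R s x - R t x‖ := h1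
        _ ≤ |C| * ‖R s x - R t x‖ := mul_le_mul_of_nonneg_right (le_abs_self C) (norm_nonneg _)
        _ ≤ |C| * |s - t| := mul_le_mul_of_nonneg_left h2 (abs_nonneg C)
        _ = ↑(Real.nnabs |C|) * |s - t| := by simp)
    (integrable_const _)
    (by
      filter_upwards [hF.diff] with x hx
      have h1 : HasDerivAt (fun s => R s x) (cr ν (R 0 x)) 0 := hRd x 0
      have h2 : HasFDerivAt F (fderiv ℝ F (R 0 x)) (R 0 x) := by
        rw [hR0x]
        exact hx.hasFDerivAt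
      have h3 := h2.comp_hasDerivAt (0 : ℝ) h1
      rw [hR0x] at h3
      exact h3)
  have h2 : HasDerivAt (fun _ : ℝ => ∫ x, F x ∂sig) (∫ x, XX ν F x ∂sig) 0 := by
    have h3 := key.2
    have h4 : (fun t : ℝ => ∫ x, F (R t x) ∂sig) = fun _ : ℝ => ∫ x, F x ∂sig := by
      funext t
      exact hJ t
    rw [h4] at h3
    exact h3
  exact h2.unique (hasDerivAt_const _ _)

theorem int_XX {F : E3 → ℝ} (hF : Good F) (ν : E3) : ∫ x, XX ν F x ∂sig = 0 := by
  by_cases h0 : ν = 0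
  · have : ∀ x, XX ν F x = 0 := by
      intro x
      rw [h0]
      unfold XX
      rw [ibpA_cr_zero, map_zero]
    simp [this]
  · have h1 : ν = ‖ν‖ • (‖ν‖⁻¹ • ν) := by
      rw [smul_smul, mul_inv_cancel₀ (norm_ne_zero_iff.mpr h0), one_smul]
    have h2 : ‖‖ν‖⁻¹ • ν‖ = 1 := by
      rw [norm_smul, norm_inv, norm_norm, inv_mul_cancel₀ (norm_ne_zero_iff.mpr h0)]
    have h3 : ∀ x, XX ν F x = ‖ν‖ * XX (‖ν‖⁻¹ • ν) F x := by
      intro x
      rw [← ibpA_XX_smul, ← h1]
    simp_rw [h3]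
    rw [integral_const_mul, ibpA_int_unit hF _ h2, mul_zero]

theorem ibp {F G : E3 → ℝ} (hF : Good F) (hG : Good G) (ν : E3) :
    ip (XX ν F) G = - ip F (XX ν G) := by
  have h1 := int_XX (hF.mul hG) ν
  obtain ⟨BF, hBF⟩ := hF.bdd
  obtain ⟨BG, hBG⟩ := hG.bdd
  obtain ⟨CF, hCF⟩ := XX_bdd hF ν
  obtain ⟨CG, hCG⟩ := XX_bdd hG ν
  have i1 : Integrable (fun x => XX ν F x * G x) sig := by
    refine ibpA_bdd_int ((XX_meas F ν).mul hG.meas) ⟨CF * BG, fun x hx => ?_⟩
    rw [abs_mul]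
    exact mul_le_mul (hCF x hx) (hBG x hx) (abs_nonneg _) ((abs_nonneg _).trans (hCF x hx))
  have i2 : Integrable (fun x => F x * XX ν G x) sig := by
    refine ibpA_bdd_int (hF.meas.mul (XX_meas G ν)) ⟨BF * CG, fun x hx => ?_⟩
    rw [abs_mul]
    exact mul_le_mul (hBF x hx) (hCG x hx) (abs_nonneg _) ((abs_nonneg _).trans (hBF x hx))
  have h2 : ∫ x, XX ν (fun x => F x * G x) x ∂sig =
      ∫ x, (XX ν F x * G x + F x * XX ν G x) ∂sig := by
    refine integral_congr_ae ?_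
    filter_upwards [hF.diff, hG.diff] with x hx hy
    unfold XX
    have h3 : fderiv ℝ (fun x => F x * G x) x = F x • fderiv ℝ G x + G x • fderiv ℝ F x :=
      fderiv_fun_mul hx hy
    rw [h3]
    simp only [add_apply, smul_apply, smul_eq_mul]
    ring
  rw [h2, integral_add i1 i2] at h1
  unfold ip
  linarith

theorem HH_XX {n : ℕ} {h : E3 → ℝ} (hh : HH n h) (ν : E3) : HH n (XX ν h) := by
  refine ⟨V_XX hh.mem ν, fun m hm q hq => ?_⟩
  rw [ibp (good_V hh.mem) (good_V hq) ν, hh.orth m hm _ (V_XX hq ν), neg_zero]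

end STH
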