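import Pool.Agent.Lib_helper59.STH.Defs
import Pool.Agent.Lib_helper59.STHF.valg
import Pool.Agent.Lib_helper59.STHF.vxx
import Pool.Agent.Lib_helper59.STHF.ibpA
import Pool.Agent.Lib_helper59.STHF.parA
import Pool.Agent.Lib_helper59.STHF.gooA
import Pool.Agent.Lib_helper59.STHF.xxA
import Pool.Agent.Lib_helper15.STE.B.sigA
import Pool.Agent.Lib_helper15.STE.B.admA

/-! # STH, block besA -/

open MeasureTheory Filter Topology
open Pool.Agent.Lib_helper15.STE

namespace STH

/-- bounded on the sphere and measurable -/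
def besA_B (f : E3 → ℝ) : Prop := Measurable f ∧ ∃ C, ∀ x : E3, ‖x‖ = 1 → |f x| ≤ C

theorem besA_good {F : E3 → ℝ} (h : Good F) : besA_B F := ⟨h.meas, h.bdd⟩

theorem besA_V {n : ℕ} {p : E3 → ℝ} (h : p ∈ V n) : besA_B p := besA_good (good_V h)

theorem besA_add {f g : E3 → ℝ} (hf : besA_B f) (hg : besA_B g) : besA_B (fun x => f x + g x) := by
  obtain ⟨h1, C, h2⟩ := hf
  obtain ⟨h3, D, h4⟩ := hg
  exact ⟨h1.add h3, C + D, fun x hx => (abs_add_le _ _).trans (add_le_add (h2 x hx) (h4 x hx))⟩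

theorem besA_sub {f g : E3 → ℝ} (hf : besA_B f) (hg : besA_B g) : besA_B (fun x => f x - g x) := by
  obtain ⟨h1, C, h2⟩ := hf
  obtain ⟨h3, D, h4⟩ := hg
  exact ⟨h1.sub h3, C + D, fun x hx => (abs_sub _ _).trans (add_le_add (h2 x hx) (h4 x hx))⟩

theorem besA_mul {f g : E3 → ℝ} (hf : besA_B f) (hg : besA_B g) : besA_B (fun x => f x * g x) := by
  obtain ⟨h1, C, h2⟩ := hf
  obtain ⟨h3, D, h4⟩ := hg
  refine ⟨h1.mul h3, C * D, fun x hx => ?_⟩
  rw [abs_mul]
  exact mul_le_mul (h2 x hx) (h4 x hx) (abs_nonneg _) ((abs_nonneg _).trans (h2 x hx))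

theorem besA_sum {ι : Type} (s : Finset ι) {f : ι → E3 → ℝ} (hf : ∀ i, besA_B (f i)) :
    besA_B (fun x => ∑ i ∈ s, f i x) := by
  classical
  induction s using Finset.induction_on with
  | empty => exact ⟨by simp, 0, fun x _ => by simp⟩
  | insert a s ha ih =>
    simp only [Finset.sum_insert ha]
    exact besA_add (hf a) ih

theorem besA_int {f : E3 → ℝ} (hf : besA_B f) : Integrable f sig := by
  have := sigA_prob
  obtain ⟨h1, C, h2⟩ := hf
  refine Integrable.of_bound h1.aestronglyMeasurable C ?_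
  filter_upwards [sigA_sphere] with x hx
  exact h2 x hx

theorem besA_comm (f g : E3 → ℝ) : ip f g = ip g f := by
  unfold ip
  simp only [mul_comm]

theorem besA_ip_add {f g q : E3 → ℝ} (hf : besA_B f) (hg : besA_B g) (hq : besA_B q) :
    ip (fun x => f x + g x) q = ip f q + ip g q := by
  unfold ip
  rw [← integral_add (besA_int (besA_mul hf hq)) (besA_int (besA_mul hg hq))]
  simp only [add_mul]

theorem besA_ip_sub {f g q : E3 → ℝ} (hf : besA_B f) (hg : besA_B g) (hq : besA_B q) :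
    ip (fun x => f x - g x) q = ip f q - ip g q := by
  unfold ip
  rw [← integral_sub (besA_int (besA_mul hf hq)) (besA_int (besA_mul hg hq))]
  simp only [sub_mul]

theorem besA_ip_sum {ι : Type} (s : Finset ι) {f : ι → E3 → ℝ} {q : E3 → ℝ}
    (hf : ∀ i, besA_B (f i)) (hq : besA_B q) :
    ip (fun x => ∑ i ∈ s, f i x) q = ∑ i ∈ s, ip (f i) q := by
  unfold ip
  rw [← integral_finsetSum s (fun i _ => besA_int (besA_mul (hf i) hq))]
  simp only [Finset.sum_mul]

theorem besA_nonneg (f : E3 → ℝ) : 0 ≤ ip f f := by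
  unfold ip
  exact integral_nonneg fun x => mul_self_nonneg _

theorem besA_sumV (f : ℕ → E3 → ℝ) (hf : ∀ k, HH k (f k)) (n : ℕ) :
    (fun x => ∑ k ∈ Finset.range (n + 1), f k x) ∈ V n := by
  have h1 : (fun x => ∑ k ∈ Finset.range (n + 1), f k x) = ∑ k ∈ Finset.range (n + 1), f k := by
    funext x
    rw [Finset.sum_apply]
  rw [h1]
  refine Submodule.sum_mem _ fun k hk => V_mono ?_ (hf k).mem
  have := Finset.mem_range.1 hk
  omega

theorem eig {n : ℕ} {h q : E3 → ℝ} (hh : HH n h) (hq : q ∈ V n) :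
    ∑ i, ip (XX (e i) h) (XX (e i) q) = (n:ℝ) * (n + 1) * ip h q := by
  cases n with
  | zero =>
    obtain ⟨c, rfl⟩ := V_zero hq
    have h1 : ∀ i, XX (e i) (fun _ : E3 => c) = fun _ => 0 := by
      intro i
      funext x
      simp [XX]
    simp only [h1, CharP.cast_eq_zero, zero_mul]
    refine Finset.sum_eq_zero fun i _ => ?_
    unfold ip
    simp
  | succ m =>
    obtain ⟨r, hr, hx⟩ := V_lap hq
    have hgh : Good h := good_V hh.mem
    have h1 : ∀ i, ip (XX (e i) h) (XX (e i) q) = - ip h (XX (e i) (XX (e i) q)) :=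
      fun i => ibp hgh (good_V (V_XX hq _)) _
    have h2 : ∑ i, ip h (XX (e i) (XX (e i) q)) = ip h (fun x => ∑ i, XX (e i) (XX (e i) q) x) := by
      rw [besA_comm h (fun x => ∑ i, XX (e i) (XX (e i) q) x),
        besA_ip_sum _ (fun i => besA_V (V_XX (V_XX hq _) _)) (besA_good hgh)]
      exact Finset.sum_congr rfl fun i _ => besA_comm _ _
    have h3 : ip h (fun x => ∑ i, XX (e i) (XX (e i) q) x)
        = ip h (fun x => -(((m:ℝ) + 1) * (m + 2)) * q x + r x) := by
      unfold ip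
      refine integral_congr_ae ?_
      filter_upwards [sigA_sphere] with x hx'
      rw [hx x hx']
    have h4 : ip h r = 0 := hh.orth m (Nat.lt_succ_self m) r hr
    have h5 : ip h (fun x => -(((m:ℝ) + 1) * (m + 2)) * q x + r x)
        = -(((m:ℝ) + 1) * (m + 2)) * ip h q := by
      have hcq : besA_B (fun x => -(((m:ℝ) + 1) * (m + 2)) * q x) :=
        besA_mul ⟨measurable_const, _, fun _ _ => le_rfl⟩ (besA_V hq)
      rw [besA_comm, besA_ip_add hcq (besA_V hr) (besA_good hgh), besA_comm r, h4, add_zero]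
      unfold ip
      rw [← integral_const_mul]
      refine integral_congr_ae (Filter.Eventually.of_forall fun x => ?_)
      show -(((m:ℝ) + 1) * (m + 2)) * q x * h x = -(((m:ℝ) + 1) * (m + 2)) * (h x * q x)
      ring
    simp only [h1, Finset.sum_neg_distrib, h2, h3, h5]
    push_cast
    ring

theorem besA_XXB {F : E3 → ℝ} (hF : Good F) (ν : E3) : besA_B (XX ν F) :=
  ⟨XX_meas F ν, XX_bdd hF ν⟩

theorem bessel_X {F : E3 → ℝ} (hF : Good F) {f : ℕ → E3 → ℝ} (hf : Dec F f) (n : ℕ) (ν : E3) :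
    ip (XX ν (fun x => ∑ k ∈ Finset.range (n + 1), f k x))
      (XX ν (fun x => ∑ k ∈ Finset.range (n + 1), f k x)) ≤ ip (XX ν F) (XX ν F) := by
  have hPV := besA_sumV f hf.hh n
  set P : E3 → ℝ := fun x => ∑ k ∈ Finset.range (n + 1), f k x with hP
  have hPg : Good P := good_V hPV
  have h1 : ip (XX ν F) (XX ν P) = ip (XX ν P) (XX ν P) := by
    rw [ibp hF (good_V (V_XX hPV ν)), ibp hPg (good_V (V_XX hPV ν))]
    have h2 := hf.proj n _ (V_XX (V_XX hPV ν) ν)
    rw [besA_ip_sub (besA_good hF) (besA_V hPV) (besA_V (V_XX (V_XX hPV ν) ν))] at h2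
    rw [neg_inj]
    exact sub_eq_zero.1 h2
  have h3 := besA_nonneg (fun x => XX ν F x - XX ν P x)
  have hB1 := besA_XXB hF ν
  have hB2 := besA_XXB hPg ν
  rw [besA_ip_sub hB1 hB2 (besA_sub hB1 hB2), besA_comm (XX ν F), besA_comm (XX ν P),
    besA_ip_sub hB1 hB2 hB1, besA_ip_sub hB1 hB2 hB2, besA_comm (XX ν P) (XX ν F), h1] at h3
  linarith

theorem besA_XXsum {f : ℕ → E3 → ℝ} (hf : ∀ k, HH k (f k)) (n : ℕ) (ν : E3) :
    XX ν (fun x => ∑ k ∈ Finset.range (n + 1), f k x)
      = fun x => ∑ k ∈ Finset.range (n + 1), XX ν (f k) x := by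
  funext x
  unfold XX
  rw [fderiv_fun_sum]
  · simp
  · intro k _
    exact ((V_smooth (hf k).mem).differentiable (by norm_num)) x

theorem besA_eigsum {f : ℕ → E3 → ℝ} (hf : ∀ k, HH k (f k)) (n : ℕ) :
    ∑ i, ip (XX (e i) (fun x => ∑ k ∈ Finset.range (n + 1), f k x))
      (XX (e i) (fun x => ∑ k ∈ Finset.range (n + 1), f k x))
      = ∑ k ∈ Finset.range (n + 1), ((k:ℝ) * (k + 1)) * ip (f k) (f k) := by
  have hB : ∀ i k, besA_B (XX (e i) (f k)) := fun i k => besA_XXB (good_V (hf k).mem) _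
  have h1 : ∀ i, ip (XX (e i) (fun x => ∑ k ∈ Finset.range (n + 1), f k x))
      (XX (e i) (fun x => ∑ k ∈ Finset.range (n + 1), f k x))
      = ∑ k ∈ Finset.range (n + 1), ∑ j ∈ Finset.range (n + 1),
        ip (XX (e i) (f j)) (XX (e i) (f k)) := by
    intro i
    rw [besA_XXsum hf, besA_ip_sum _ (hB i) (besA_sum _ (hB i))]
    refine Finset.sum_congr rfl fun k _ => ?_
    rw [besA_comm, besA_ip_sum _ (hB i) (hB i k)]
  simp only [h1]
  rw [Finset.sum_comm]
  refine Finset.sum_congr rfl fun k hk => ?_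
  rw [Finset.sum_comm]
  have h2 : ∀ j ∈ Finset.range (n + 1), ∑ i, ip (XX (e i) (f j)) (XX (e i) (f k))
      = if j = k then ((k:ℝ) * (k + 1)) * ip (f k) (f k) else 0 := by
    intro j _
    rcases lt_trichotomy j k with hjk | hjk | hjk
    · rw [if_neg (by omega)]
      have h3 := eig (hf k) (V_mono hjk.le (hf j).mem)
      rw [ip_orth (by omega) (hf k) (hf j), mul_zero] at h3
      rw [← h3]
      exact Finset.sum_congr rfl fun i _ => besA_comm _ _
    · subst hjk
      rw [if_pos rfl]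
      exact eig (hf j) (hf j).mem
    · rw [if_neg (by omega)]
      have h3 := eig (hf j) (V_mono hjk.le (hf k).mem)
      rw [ip_orth (by omega) (hf j) (hf k), mul_zero] at h3
      exact h3
  rw [Finset.sum_congr rfl h2, Finset.sum_ite_eq' _ k, if_pos hk]

theorem bessel_GG {F : E3 → ℝ} (hF : Adm F) {f : ℕ → E3 → ℝ} (hf : Dec F f) (n : ℕ) :
    ∑ k ∈ Finset.range n, ((k:ℝ) * (k + 1)) * ip (f k) (f k) ≤ GG F := by
  have hg := good_adm F hF
  have h1 : GG F = ∑ i, ip (XX (e i) F) (XX (e i) F) := by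
    unfold GG ip
    rw [← integral_finsetSum _ (fun i _ => besA_int (besA_mul (besA_XXB hg _) (besA_XXB hg _)))]
    refine integral_congr_ae ?_
    filter_upwards [sigA_sphere] with x hx
    rw [admA_GG F hF x hx]
    simp only [pow_two]
  have h2 : ∑ k ∈ Finset.range n, ((k:ℝ) * (k + 1)) * ip (f k) (f k)
      ≤ ∑ k ∈ Finset.range (n + 1), ((k:ℝ) * (k + 1)) * ip (f k) (f k) := by
    rw [Finset.sum_range_succ]
    have h3 := besA_nonneg (f n)
    have h4 : 0 ≤ ((n:ℝ) * (n + 1)) * ip (f n) (f n) := by positivity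
    linarith
  rw [h1]
  refine h2.trans ?_
  rw [← besA_eigsum hf.hh n]
  exact Finset.sum_le_sum fun i _ => bessel_X hg hf n (e i)

end STH
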