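import Pool.Agent.Lib_helper59.STH.Defs
import Pool.Agent.Lib_helper59.STHF.gooA
import Pool.Agent.Lib_helper59.STHF.xxA
import Pool.Agent.Lib_helper15.STE.B.sigA
import Pool.Agent.Lib_helper15.STE.B.sigC
import Pool.Agent.Lib_helper15.STE.B.admA

/-! # STH, block capA (helper99) -/

open MeasureTheory Filter Topology
open Pool.Agent.Lib_helper15.STE

namespace STH

theorem capA_ii (g : ℝ → ℝ) (hg : Measurable g) (C : ℝ) (hC : ∀ τ, |τ| ≤ 1 → |g τ| ≤ C)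
    (a b : ℝ) (ha : -1 ≤ a) (hab : a ≤ b) (hb : b ≤ 1) : IntervalIntegrable g volume a b := by
  rw [intervalIntegrable_iff_integrableOn_Icc_of_le hab]
  apply Measure.integrableOn_of_bounded (M := C)
  · simp
  · exact hg.aestronglyMeasurable
  · rw [ae_restrict_iff' measurableSet_Icc]
    refine Filter.Eventually.of_forall fun τ hτ => ?_
    rw [Real.norm_eq_abs]
    exact hC τ (abs_le.2 ⟨ha.trans hτ.1, hτ.2.trans hb⟩)

theorem capA_pt (τ φ : ℝ) : (pt τ φ) 2 = τ := by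
  simp [pt]

theorem capA_cm (F : E3 → ℝ) (τ : ℝ) :
    cm (fun x => (1 - x 2 ^ 2) * F x) τ = (1 - τ ^ 2) * cm F τ := by
  unfold cm av
  simp only [capA_pt]
  rw [intervalIntegral.integral_const_mul]
  ring

theorem caps (F : E3 → ℝ) (hF : Adm F) (ε : ℝ) (hε : 0 < ε) (hε1 : ε ≤ 1) :
    Der F (-1) 1 ≤ Der F (-1 + ε) (1 - ε) + 4 * ε * GG F := by
  obtain ⟨hm1, hm2⟩ := admA_meas_fderiv F
  obtain ⟨C, hC⟩ := admA_bound F hF
  have hC0 : ∀ x, ‖x‖ = 1 → |‖fderiv ℝ F x‖ ^ 2| ≤ C ^ 2 := by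
    intro x hx
    rw [abs_of_nonneg (by positivity)]
    exact pow_le_pow_left₀ (norm_nonneg _) (hC x hx).2 2
  have hx2 : ∀ x : E3, ‖x‖ = 1 → 0 ≤ 1 - x 2 ^ 2 ∧ 1 - x 2 ^ 2 ≤ 1 := by
    intro x hx
    have h1 : |x 2| ≤ ‖x‖ := by
      have := EuclideanSpace.norm_eq x
      rw [← Real.norm_eq_abs]
      exact PiLp.norm_apply_le x 2
    rw [hx] at h1
    have := abs_le.1 h1
    constructor <;> nlinarith
  have hX : ∀ x : E3, ‖x‖ = 1 → XX (e 2) F x ^ 2 ≤ (1 - x 2 ^ 2) * ‖fderiv ℝ F x‖ ^ 2 :=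
    fun x hx => admA_XX F x hx
  have hC1 : ∀ x, ‖x‖ = 1 → |XX (e 2) F x ^ 2| ≤ C ^ 2 := by
    intro x hx
    rw [abs_of_nonneg (sq_nonneg _)]
    refine (hX x hx).trans ?_
    have h2 := hC0 x hx
    rw [abs_of_nonneg (by positivity)] at h2
    have h3 := hx2 x hx
    nlinarith [sq_nonneg ‖fderiv ℝ F x‖]
  have hC2 : ∀ x : E3, ‖x‖ = 1 → |(1 - x 2 ^ 2) * ‖fderiv ℝ F x‖ ^ 2| ≤ C ^ 2 := by
    intro x hx
    have h2 := hC0 x hx
    rw [abs_of_nonneg (by positivity)] at h2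
    have h3 := hx2 x hx
    rw [abs_of_nonneg (mul_nonneg h3.1 (by positivity))]
    nlinarith [sq_nonneg ‖fderiv ℝ F x‖]
  have hmg : Measurable (fun x : E3 => (1 - x 2 ^ 2) * ‖fderiv ℝ F x‖ ^ 2) := by
    apply Measurable.mul _ hm1
    have : Measurable (fun x : E3 => x 2) := by fun_prop
    exact measurable_const.sub (this.pow_const 2)
  set D : ℝ → ℝ := fun τ => cm (fun x => XX (e 2) F x ^ 2) τ with hD
  set N : ℝ → ℝ := fun τ => cm (fun x => ‖fderiv ℝ F x‖ ^ 2) τ with hN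
  have hDm : Measurable D := sigC_cm_meas _ (hm2 _)
  have hNm : Measurable N := sigC_cm_meas _ hm1
  have hDb : ∀ τ, |τ| ≤ 1 → |D τ| ≤ C ^ 2 := fun τ hτ => sigC_cm_bound _ _ hC1 τ hτ
  have hNb : ∀ τ, |τ| ≤ 1 → |N τ| ≤ C ^ 2 := fun τ hτ => sigC_cm_bound _ _ hC0 τ hτ
  have hDN : ∀ τ, |τ| ≤ 1 → D τ ≤ (1 - τ ^ 2) * N τ := by
    intro τ hτ
    have := sigC_cm_mono _ _ (hm2 (e 2)) hmg (C ^ 2) hC1 hC2 hX τ hτ
    rw [capA_cm] at this
    exact this
  have hN0 : ∀ τ, |τ| ≤ 1 → 0 ≤ N τ := by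
    intro τ hτ
    have h0 : cm (fun _ : E3 => (0:ℝ)) τ = 0 := by simp [cm, av]
    have h1 : ∀ x : E3, ‖x‖ = 1 → |(0:ℝ)| ≤ C ^ 2 := by
      intro x _
      rw [abs_zero]; positivity
    have := sigC_cm_mono (fun _ => 0) _ measurable_const hm1 (C ^ 2) h1 hC0
      (fun x _ => by positivity) τ hτ
    rw [h0] at this
    exact this
  have hGG : GG F = 1 / 2 * ∫ τ in (-1:ℝ)..1, N τ := (sigC_integral _ hm1 (C ^ 2) hC0).2
  have iD : ∀ a b : ℝ, -1 ≤ a → a ≤ b → b ≤ 1 → IntervalIntegrable D volume a b :=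
    fun a b ha hab hb => capA_ii D hDm _ hDb a b ha hab hb
  have iN : ∀ a b : ℝ, -1 ≤ a → a ≤ b → b ≤ 1 → IntervalIntegrable N volume a b :=
    fun a b ha hab hb => capA_ii N hNm _ hNb a b ha hab hb
  have part : ∀ a b : ℝ, -1 ≤ a → a ≤ b → b ≤ 1 → (∀ τ ∈ Set.Icc a b, 1 - τ ^ 2 ≤ 2 * ε) →
      ∫ τ in a..b, D τ ≤ 2 * ε * ∫ τ in a..b, N τ := by
    intro a b ha hab hb h
    rw [← intervalIntegral.integral_const_mul]
    apply intervalIntegral.integral_mono_on hab (iD a b ha hab hb)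
      ((iN a b ha hab hb).const_mul _)
    intro τ hτ
    have hτ1 : |τ| ≤ 1 := abs_le.2 ⟨ha.trans hτ.1, hτ.2.trans hb⟩
    have := hDN τ hτ1
    have := hN0 τ hτ1
    have := h τ hτ
    nlinarith
  have p1 := part (-1) (-1 + ε) le_rfl (by linarith) (by linarith) (by
    intro τ hτ
    have h1 := hτ.1
    have h2 := hτ.2
    nlinarith)
  have p2 := part (1 - ε) 1 (by linarith) (by linarith) le_rfl (by
    intro τ hτ
    have h1 := hτ.1
    have h2 := hτ.2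
    nlinarith)
  have s1 : (∫ τ in (-1:ℝ)..1, D τ) = (∫ τ in (-1:ℝ)..(-1 + ε), D τ) +
      (∫ τ in (-1 + ε)..(1 - ε), D τ) + ∫ τ in (1 - ε)..1, D τ := by
    rw [intervalIntegral.integral_add_adjacent_intervals (iD _ _ le_rfl (by linarith)
      (by linarith)) (iD _ _ (by linarith) (by linarith) (by linarith)),
      intervalIntegral.integral_add_adjacent_intervals (iD _ _ le_rfl (by linarith)
      (by linarith)) (iD _ _ (by linarith) (by linarith) (by linarith))]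
  have s2 : (∫ τ in (-1:ℝ)..1, N τ) = (∫ τ in (-1:ℝ)..(-1 + ε), N τ) +
      (∫ τ in (-1 + ε)..(1 - ε), N τ) + ∫ τ in (1 - ε)..1, N τ := by
    rw [intervalIntegral.integral_add_adjacent_intervals (iN _ _ le_rfl (by linarith)
      (by linarith)) (iN _ _ (by linarith) (by linarith) (by linarith)),
      intervalIntegral.integral_add_adjacent_intervals (iN _ _ le_rfl (by linarith)
      (by linarith)) (iN _ _ (by linarith) (by linarith) (by linarith))]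
  have s3 : 0 ≤ ∫ τ in (-1 + ε)..(1 - ε), N τ := by
    apply intervalIntegral.integral_nonneg (by linarith)
    intro τ hτ
    have h1 := hτ.1
    have h2 := hτ.2
    exact hN0 τ (abs_le.2 ⟨by linarith, by linarith⟩)
  have hDer1 : Der F (-1) 1 = ∫ τ in (-1:ℝ)..1, D τ := rfl
  have hDer2 : Der F (-1 + ε) (1 - ε) = ∫ τ in (-1 + ε)..(1 - ε), D τ := rfl
  rw [hDer1, hDer2, hGG, s1]
  have := mul_nonneg hε.le s3
  rw [s2]
  nlinarith

theorem var_mono (F : E3 → ℝ) (hF : Good F) (a b : ℝ) (ha : -1 ≤ a) (hab : a ≤ b) (hb : b ≤ 1) :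
    Var F a b ≤ Var F (-1) 1 := by
  obtain ⟨C, hC⟩ := hF.bdd
  have hC2 : ∀ x : E3, ‖x‖ = 1 → |F x ^ 2| ≤ C ^ 2 := by
    intro x hx
    rw [abs_pow]
    exact pow_le_pow_left₀ (abs_nonneg _) (hC x hx) 2
  have hm : Measurable (fun x : E3 => F x ^ 2) := hF.meas.pow_const 2
  set G : ℝ → ℝ := fun τ => cm (fun x => F x ^ 2) τ - cm F τ ^ 2 with hG
  have hGm : Measurable G := (sigC_cm_meas _ hm).sub ((sigC_cm_meas _ hF.meas).pow_const 2)
  have hG0 : ∀ τ, |τ| ≤ 1 → 0 ≤ G τ := by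
    intro τ hτ
    have := sigC_cm_sq F hF.meas C hC τ hτ
    simp only [hG]
    linarith
  have hGb : ∀ τ, |τ| ≤ 1 → |G τ| ≤ C ^ 2 := by
    intro τ hτ
    rw [abs_of_nonneg (hG0 τ hτ)]
    have := sigC_cm_bound _ _ hC2 τ hτ
    have h2 := (abs_le.1 this).2
    have h3 := sq_nonneg (cm F τ)
    simp only [hG]
    linarith
  have hV : ∀ a b : ℝ, Var F a b = ∫ τ in a..b, G τ := fun a b => rfl
  rw [hV, hV]
  apply intervalIntegral.integral_mono_interval ha hab hb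
  · rw [Filter.EventuallyLE, ae_restrict_iff' measurableSet_Ioc]
    refine Filter.Eventually.of_forall fun τ hτ => ?_
    exact hG0 τ (abs_le.2 ⟨hτ.1.le, hτ.2⟩)
  · exact capA_ii G hGm _ hGb _ _ le_rfl (by norm_num) le_rfl

end STH
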