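import Pool.Agent.Lib_helper59.STH.Defs
import Pool.Agent.Lib_helper59.STHF.valg

/-! # STH, block vden -/

open MeasureTheory Filter Topology
open Pool.Agent.Lib_helper15.STE

namespace STH

/-- the algebra of restrictions of polynomials to the sphere -/
def vden_A : Subalgebra ℝ C(Metric.sphere (0 : E3) 1, ℝ) where
  carrier := {f | ∃ n, ∃ q ∈ V n, ∀ x : Metric.sphere (0 : E3) 1, f x = q x.1}
  mul_mem' := by
    rintro f g ⟨m, p, hp, h1⟩ ⟨n, q, hq, h2⟩
    refine ⟨m + n, fun x => p x * q x, V_mul hp hq, ?_⟩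
    intro x
    rw [ContinuousMap.mul_apply, h1, h2]
  add_mem' := by
    rintro f g ⟨m, p, hp, h1⟩ ⟨n, q, hq, h2⟩
    refine ⟨max m n, p + q, (V _).add_mem (V_mono (le_max_left _ _) hp)
      (V_mono (le_max_right _ _) hq), ?_⟩
    intro x
    rw [ContinuousMap.add_apply, h1, h2]
    rfl
  algebraMap_mem' := by
    intro r
    refine ⟨0, r • (fun _ => (1:ℝ)), (V 0).smul_mem r V_one, ?_⟩
    intro x
    simp

theorem vden_sep : vden_A.SeparatesPoints := by
  intro x y hxy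
  have h1 : ∃ i : Fin 3, x.1 i ≠ y.1 i := by
    by_contra hcon
    push Not at hcon
    apply hxy
    ext i
    exact hcon i
  obtain ⟨i, hi⟩ := h1
  have hc : Continuous (fun z : Metric.sphere (0 : E3) 1 => z.1 i) := by fun_prop
  refine ⟨fun z => z.1 i, ⟨⟨fun z => z.1 i, hc⟩, ?_, rfl⟩, hi⟩
  exact ⟨1, fun z => z i, V_coord i, fun _ => rfl⟩

theorem V_dense (F : E3 → ℝ) (C : ℝ)
    (hF : ∀ x y : E3, ‖x‖ = 1 → ‖y‖ = 1 → |F x - F y| ≤ C * ‖x - y‖) (ε : ℝ) (hε : 0 < ε) :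
    ∃ n, ∃ q ∈ V n, ∀ x : E3, ‖x‖ = 1 → |F x - q x| ≤ ε := by
  have hn : ∀ x : Metric.sphere (0 : E3) 1, ‖x.1‖ = 1 := fun x => by
    simp
  have hcont : Continuous (fun x : Metric.sphere (0 : E3) 1 => F x.1) := by
    have hL : LipschitzWith (Real.toNNReal |C|) (fun x : Metric.sphere (0 : E3) 1 => F x.1) := by
      refine LipschitzWith.of_dist_le_mul ?_
      intro x y
      rw [Real.coe_toNNReal _ (abs_nonneg C), Real.dist_eq, Subtype.dist_eq, dist_eq_norm]
      refine (hF x.1 y.1 (hn x) (hn y)).trans ?_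
      exact mul_le_mul_of_nonneg_right (le_abs_self C) (norm_nonneg _)
    exact hL.continuous
  obtain ⟨g, hg⟩ := ContinuousMap.exists_mem_subalgebra_near_continuous_of_separatesPoints
    vden_A vden_sep (fun x : Metric.sphere (0 : E3) 1 => F x.1) hcont ε hε
  obtain ⟨n, q, hq, h1⟩ := g.2
  refine ⟨n, q, hq, ?_⟩
  intro x hx
  have hx' : x ∈ Metric.sphere (0 : E3) 1 := by simpa using hx
  have h2 := hg ⟨x, hx'⟩
  have h3 := h1 ⟨x, hx'⟩
  rw [Real.norm_eq_abs] at h2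
  have h4 : |(g.1 ⟨x, hx'⟩ : ℝ) - F x| < ε := h2
  rw [h3, abs_sub_comm] at h4
  exact h4.le

end STH
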