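import Pool.Agent.Lib_helper59.STH.Defs
import Pool.Agent.Lib_helper59.STHF.valg
import Pool.Agent.Lib_helper15.STE.B.sigA

/-! # STH, block vprj -/

open MeasureTheory Filter Topology
open Pool.Agent.Lib_helper15.STE

namespace STH

theorem vprj_fin (n : ℕ) : FiniteDimensional ℝ (V n) := by
  classical
  have h1 : {p : E3 → ℝ | ∃ i j k : ℕ, i + j + k ≤ n ∧ p = mon i j k}.Finite := by
    refine (((Finset.range (n + 1)) ×ˢ (Finset.range (n + 1)) ×ˢ (Finset.range (n + 1))).image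
      (fun t : ℕ × ℕ × ℕ => mon t.1 t.2.1 t.2.2)).finite_toSet.subset ?_
    rintro p ⟨i, j, k, h, rfl⟩
    simp only [Finset.coe_image, Set.mem_image, Finset.mem_coe, Finset.mem_product,
      Finset.mem_range]
    refine ⟨(i, j, k), ⟨?_, ?_, ?_⟩, rfl⟩
    · show i < n + 1
      omega
    · show j < n + 1
      omega
    · show k < n + 1
      omega
  exact FiniteDimensional.span_of_finite ℝ h1

theorem vprj_mem (F : E3 → ℝ) (hm : Measurable F) (C : ℝ) (hF : ∀ x : E3, ‖x‖ = 1 → |F x| ≤ C) :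
    MemLp F 2 sig := by
  have := sigA_prob
  refine MemLp.of_bound hm.aestronglyMeasurable C ?_
  filter_upwards [sigA_sphere] with x hx
  exact hF x hx

theorem vprj_bdd {n : ℕ} {p : E3 → ℝ} (hp : p ∈ V n) :
    ∃ C, ∀ x : E3, ‖x‖ = 1 → |p x| ≤ C := by
  have h1 : Continuous p := (V_smooth hp).continuous
  obtain ⟨C, hC⟩ := (isCompact_sphere (0 : E3) 1).exists_bound_of_continuousOn h1.continuousOn
  exact ⟨C, fun x hx => hC x (by simpa using hx)⟩

theorem vprj_memV {n : ℕ} {p : E3 → ℝ} (hp : p ∈ V n) : MemLp p 2 sig := by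
  obtain ⟨C, hC⟩ := vprj_bdd hp
  exact vprj_mem p (V_smooth hp).continuous.measurable C hC

theorem V_proj (F : E3 → ℝ) (hm : Measurable F) (C : ℝ) (hF : ∀ x : E3, ‖x‖ = 1 → |F x| ≤ C)
    (n : ℕ) : ∃ p ∈ V n, ∀ q ∈ V n, ip (fun x => F x - p x) q = 0 := by
  have hfin := vprj_fin n
  let T : V n →ₗ[ℝ] Lp ℝ 2 sig :=
    { toFun := fun p => MemLp.toLp p.1 (vprj_memV p.2)
      map_add' := fun p q => rfl
      map_smul' := fun c p => rfl }
  have hF' := vprj_mem F hm C hF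
  obtain ⟨p, hp⟩ : (LinearMap.range T).starProjection (hF'.toLp F) ∈ LinearMap.range T :=
    Submodule.starProjection_apply_mem _ _
  refine ⟨p.1, p.2, fun q hq => ?_⟩
  have h1 := Submodule.sub_starProjection_mem_orthogonal (K := LinearMap.range T) (hF'.toLp F)
  rw [← hp] at h1
  have h2 := (Submodule.mem_orthogonal' _ _).1 h1 (T ⟨q, hq⟩) ⟨_, rfl⟩
  rw [L2.inner_def] at h2
  have h3 : ∀ᵐ x ∂sig, (hF'.toLp F - T p : Lp ℝ 2 sig) x = F x - p.1 x := by
    have h4 : (hF'.toLp F - T p : Lp ℝ 2 sig) = (hF'.sub (vprj_memV p.2)).toLp (F - p.1) := rfl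
    rw [h4]
    exact MemLp.coeFn_toLp _
  have h5 : ∀ᵐ x ∂sig, (T ⟨q, hq⟩ : Lp ℝ 2 sig) x = q x := MemLp.coeFn_toLp (vprj_memV hq)
  rw [← h2]
  refine integral_congr_ae ?_
  filter_upwards [h3, h5] with x h3 h5
  rw [h3, h5]
  simp [mul_comm]

end STH
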