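import Pool.Agent.Lib_helper59.STH.Defs
import Pool.Agent.Lib_helper59.STHF.valg
import Pool.Agent.Lib_helper59.STHF.vden
import Pool.Agent.Lib_helper59.STHF.vprj
import Pool.Agent.Lib_helper59.STHF.gooA
import Pool.Agent.Lib_helper15.STE.B.sigA

/-! # STH, block dece -/

open MeasureTheory Filter Topology
open Pool.Agent.Lib_helper15.STE

namespace STH

theorem dece_sub {F G : E3 → ℝ} (hF : Good F) (hG : Good G) : Good (fun x => F x - G x) := by
  have h1 : (fun _ : E3 => (-1 : ℝ)) ∈ V 0 := by
    have := (V 0).smul_mem (-1 : ℝ) V_one
    convert this using 1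
    ext x
    simp
  have h2 := hF.add ((good_V h1).mul hG)
  convert h2 using 1
  ext x
  ring

theorem dece_int {F : E3 → ℝ} (hF : Good F) : Integrable F sig := by
  obtain ⟨C, hC⟩ := hF.bdd
  have := sigA_prob
  refine Integrable.of_bound hF.meas.aestronglyMeasurable C ?_
  filter_upwards [sigA_sphere] with x hx
  exact hC x hx

theorem dec_exists (F : E3 → ℝ) (hF : Good F) : ∃ f, Dec F f := by
  have := sigA_prob
  obtain ⟨C, hC⟩ := hF.bdd
  choose p hpV hp using V_proj F hF.meas C hC
  have hpG : ∀ n, Good (p n) := fun n => good_V (hpV n)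
  have hsubG : ∀ n, Good (fun x => F x - p n x) := fun n => dece_sub hF (hpG n)
  refine ⟨fun n => Nat.casesOn n (p 0) (fun n x => p (n + 1) x - p n x), ?_, ?_, ?_⟩
  · intro n
    cases n with
    | zero =>
      exact ⟨hpV 0, fun m hm => absurd hm (Nat.not_lt_zero m)⟩
    | succ n =>
      refine ⟨?_, ?_⟩
      · have := (V (n + 1)).sub_mem (hpV (n + 1)) (V_mono (Nat.le_succ n) (hpV n))
        exact this
      · intro m hm q hq
        have hqn : q ∈ V n := V_mono (Nat.lt_succ_iff.1 hm) hq
        have hqn1 : q ∈ V (n + 1) := V_mono (Nat.le_succ n) hqn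
        have h1 := hp n q hqn
        have h2 := hp (n + 1) q hqn1
        have hqG : Good q := good_V hq
        unfold ip at h1 h2 ⊢
        have h3 : (fun x => (p (n + 1) x - p n x) * q x) =
            fun x => (F x - p n x) * q x - (F x - p (n + 1) x) * q x := by
          ext x
          ring
        have h4 : ∫ x, (p (n + 1) x - p n x) * q x ∂sig = 0 := by
          rw [h3, integral_sub (dece_int ((hsubG n).mul hqG)) (dece_int ((hsubG (n + 1)).mul hqG)),
            h1, h2, sub_zero]
        exact h4
  all_goals
    have hsum : ∀ n x, ∑ k ∈ Finset.range (n + 1),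
        (Nat.casesOn k (p 0) (fun n x => p (n + 1) x - p n x) : E3 → ℝ) x = p n x := by
      intro n x
      induction n with
      | zero => simp
      | succ n ih =>
        rw [Finset.sum_range_succ, ih]
        simp
  · intro n q hq
    have h1 := hp n q hq
    simp only [hsum]
    exact h1
  · simp only [hsum]
    rw [Metric.tendsto_atTop]
    intro ε hε
    obtain ⟨L, hL⟩ := hF.lip
    set δ : ℝ := min 1 (ε / 2) with hδ
    have hδ0 : 0 < δ := lt_min one_pos (by positivity)
    obtain ⟨N, q, hqV, hq⟩ := V_dense F L hL δ hδ0
    refine ⟨N, fun n hn => ?_⟩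
    have hqn : q ∈ V n := V_mono hn hqV
    have hqG : Good q := good_V hqV
    have hd : (fun x => p n x - q x) ∈ V n := (V n).sub_mem (hpV n) hqn
    have hdG : Good (fun x => p n x - q x) := good_V hd
    have h1 := hp n _ hd
    have h0 : 0 ≤ ip (fun x => F x - p n x) (fun x => F x - p n x) := by
      unfold ip
      exact integral_nonneg fun x => mul_self_nonneg _
    have h00 : 0 ≤ ip (fun x => p n x - q x) (fun x => p n x - q x) := by
      unfold ip
      exact integral_nonneg fun x => mul_self_nonneg _
    have h2 : ip (fun x => F x - q x) (fun x => F x - q x) =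
        ip (fun x => F x - p n x) (fun x => F x - p n x) +
          2 * ip (fun x => F x - p n x) (fun x => p n x - q x) +
          ip (fun x => p n x - q x) (fun x => p n x - q x) := by
      have i1 : Integrable (fun x => (F x - p n x) * (F x - p n x)) sig :=
        dece_int ((hsubG n).mul (hsubG n))
      have i2 : Integrable (fun x => 2 * ((F x - p n x) * (p n x - q x))) sig :=
        (dece_int ((hsubG n).mul hdG)).const_mul 2
      have i3 : Integrable (fun x => (p n x - q x) * (p n x - q x)) sig := dece_int (hdG.mul hdG)
      have i12 : Integrable (fun x => (F x - p n x) * (F x - p n x) +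
          2 * ((F x - p n x) * (p n x - q x))) sig := i1.add i2
      have e1 := integral_add i12 i3
      have e2 := integral_add i1 i2
      have e3 : ∫ x, 2 * ((F x - p n x) * (p n x - q x)) ∂sig =
          2 * ∫ x, (F x - p n x) * (p n x - q x) ∂sig := integral_const_mul _ _
      rw [e2, e3] at e1
      unfold ip
      rw [← e1]
      congr 1
      ext x
      ring
    have h3 : ip (fun x => F x - q x) (fun x => F x - q x) ≤ δ ^ 2 := by
      unfold ip
      have h4 : ∫ x, (F x - q x) * (F x - q x) ∂sig ≤ ∫ _, δ ^ 2 ∂sig := by
        apply integral_mono_ae (dece_int ((dece_sub hF hqG).mul (dece_sub hF hqG)))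
          (integrable_const _)
        filter_upwards [sigA_sphere] with x hx
        have h5 := abs_le.1 (hq x hx)
        nlinarith [h5.1, h5.2]
      rw [integral_const] at h4
      simpa using h4
    rw [Real.dist_eq, sub_zero, abs_of_nonneg h0]
    have h6 : δ ≤ 1 := min_le_left _ _
    have h7 : δ ≤ ε / 2 := min_le_right _ _
    nlinarith

end STH
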