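import Pool.Agent.Lib_helper59.STH.Defs

/-! # STH, block wirA: Wirtinger's inequality -/

open MeasureTheory Filter Topology
open Pool.Agent.Lib_helper15.STE

namespace STH

theorem wirA_ab : (-Real.pi) < Real.pi := by
  have := Real.pi_pos
  linarith

theorem wirA_parseval (g : ℝ → ℝ) (hg : Continuous g) :
    HasSum (fun n : ℤ => ‖fourierCoeffOn wirA_ab (fun t => (g t : ℂ)) n‖ ^ 2)
      (av (fun t => g t ^ 2)) := by
  have hc : Continuous (fun t : ℝ => (g t : ℂ)) := Complex.continuous_ofReal.comp hg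
  have h2 : MemLp (fun t : ℝ => (g t : ℂ)) 2 (volume.restrict (Set.Ioc (-Real.pi) Real.pi)) := by
    obtain ⟨C, hC⟩ := isCompact_Icc.exists_bound_of_continuousOn
      (hc.continuousOn (s := Set.Icc (-Real.pi) Real.pi))
    refine MemLp.of_bound hc.aestronglyMeasurable C ?_
    rw [ae_restrict_iff' measurableSet_Ioc]
    exact ae_of_all _ fun t ht => hC t (Set.Ioc_subset_Icc_self ht)
  have h := hasSum_sq_fourierCoeffOn wirA_ab h2
  convert h using 1
  unfold av
  rw [smul_eq_mul]
  congr 1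
  · ring
  · refine intervalIntegral.integral_congr fun t _ => ?_
    simp

theorem wirtinger (h : ℝ → ℝ) (hd : ContDiff ℝ 1 h) (hp : ∀ t, h (t + 2 * Real.pi) = h t) :
    av (fun t => h t ^ 2) - av h ^ 2 ≤ av (fun t => deriv h t ^ 2) := by
  have hπ := Real.pi_pos
  have hdc : Continuous (deriv h) := hd.continuous_deriv le_rfl
  have hdiff : Differentiable ℝ h := hd.differentiable (by norm_num)
  have s1 := wirA_parseval h hd.continuous
  have s2 := wirA_parseval (deriv h) hdc
  have h0 : ‖fourierCoeffOn wirA_ab (fun t => (h t : ℂ)) 0‖ ^ 2 = av h ^ 2 := by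
    rw [fourierCoeffOn_eq_integral]
    have e1 : (∫ x in (-Real.pi)..Real.pi, (fourier (-0 : ℤ)) (x : AddCircle (Real.pi - -Real.pi)) •
        (h x : ℂ)) = ((∫ x in (-Real.pi)..Real.pi, h x : ℝ) : ℂ) := by
      rw [← intervalIntegral.integral_ofReal]
      refine intervalIntegral.integral_congr fun t _ => ?_
      simp
    rw [e1]
    unfold av
    rw [show (1 / (Real.pi - -Real.pi)) = (2 * Real.pi)⁻¹ by rw [one_div]; congr 1; ring]
    rw [← Complex.coe_smul, smul_eq_mul, ← Complex.ofReal_mul, Complex.norm_real,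
      Real.norm_eq_abs, sq_abs]
  have hn : ∀ n : ℤ, n ≠ 0 → ‖fourierCoeffOn wirA_ab (fun t => (h t : ℂ)) n‖ ^ 2 ≤
      ‖fourierCoeffOn wirA_ab (fun t => ((deriv h t : ℝ) : ℂ)) n‖ ^ 2 := by
    intro n hn0
    have hper : h Real.pi = h (-Real.pi) := by
      have := hp (-Real.pi)
      rw [← this]
      congr 1
      ring
    have e1 := fourierCoeffOn_of_hasDerivAt wirA_ab (f := fun t => (h t : ℂ))
      (f' := fun t => ((deriv h t : ℝ) : ℂ)) hn0
      (fun x _ => (hdiff x).hasDerivAt.ofReal_comp)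
      ((Complex.continuous_ofReal.comp hdc).intervalIntegrable _ _)
    rw [e1, hper, sub_self, mul_zero, zero_sub]
    have hnn : (1 : ℝ) ≤ |(n : ℝ)| := by
      have := Int.one_le_abs hn0
      exact_mod_cast this
    have e2 : ‖1 / (-2 * (Real.pi : ℂ) * Complex.I * (n : ℂ)) *
        -(((Real.pi : ℂ) - ((-Real.pi : ℝ) : ℂ)) *
          fourierCoeffOn wirA_ab (fun t => ((deriv h t : ℝ) : ℂ)) n)‖ =
        ‖fourierCoeffOn wirA_ab (fun t => ((deriv h t : ℝ) : ℂ)) n‖ / |(n : ℝ)| := by
      rw [norm_mul, norm_neg, norm_mul, norm_div, norm_one, norm_mul, norm_mul, norm_mul, norm_neg,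
        Complex.norm_I, Complex.norm_real, Complex.norm_intCast]
      rw [show ((Real.pi : ℂ) - ((-Real.pi : ℝ) : ℂ)) = ((2 * Real.pi : ℝ) : ℂ) by
        push_cast; ring, Complex.norm_real]
      rw [Real.norm_of_nonneg hπ.le, Real.norm_of_nonneg (by positivity : 0 ≤ 2 * Real.pi)]
      have : |(n : ℝ)| ≠ 0 := by positivity
      simp
      field_simp
    rw [e2]
    refine pow_le_pow_left₀ (by positivity) ?_ 2
    exact div_le_self (norm_nonneg _) hnn
  have s3 : HasSum (fun n : ℤ => if n = 0 then av h ^ 2 else 0) (av h ^ 2) := hasSum_ite_eq 0 _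
  have s4 := s2.add s3
  have := hasSum_le (fun n => ?_) s1 s4
  · linarith
  · by_cases hn0 : n = 0
    · subst hn0
      rw [h0]
      simp
    · simp only [if_neg hn0, add_zero]
      exact hn n hn0

end STH
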