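import Pool.Agent.Lib_helper59.STH.Defs
import Pool.Agent.Lib_helper59.STHF.wirA
import Pool.Agent.Lib_helper59.STHF.valg
import Pool.Agent.Lib_helper59.STHF.vxx
import Pool.Agent.Lib_helper59.STHF.zonA
import Pool.Agent.Lib_helper59.STHF.gooA
import Pool.Agent.Lib_helper15.STE.B.sigA
import Pool.Agent.Lib_helper15.STE.B.sigC

/-! # STH, block wirV -/

open MeasureTheory Filter Topology
open Pool.Agent.Lib_helper15.STE

namespace STH

/-- the derivative of the parametrised circle is the infinitesimal rotation -/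
theorem wirV_deriv_pt (τ φ : ℝ) : HasDerivAt (fun φ => pt τ φ) (cr (e 2) (pt τ φ)) φ := by
  have hg : HasDerivAt (fun φ : ℝ => (fun i => pt τ φ i : Fin 3 → ℝ))
      (fun i => cr (e 2) (pt τ φ) i) φ := by
    rw [hasDerivAt_pi]
    intro i
    fin_cases i
    · have h : HasDerivAt (fun φ => √(1 - τ ^ 2) * Real.cos φ) (√(1 - τ ^ 2) * -Real.sin φ) φ :=
        (Real.hasDerivAt_cos φ).const_mul _
      refine (h.congr_deriv ?_)
      simp [cr, e, pt]
    · have h : HasDerivAt (fun φ => √(1 - τ ^ 2) * Real.sin φ) (√(1 - τ ^ 2) * Real.cos φ) φ :=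
        (Real.hasDerivAt_sin φ).const_mul _
      refine (h.congr_deriv ?_)
      simp [cr, e, pt]
    · have h : HasDerivAt (fun _ : ℝ => τ) 0 φ := hasDerivAt_const φ τ
      refine (h.congr_deriv ?_)
      simp [cr, e]
  exact ((EuclideanSpace.equiv (Fin 3) ℝ).symm.hasFDerivAt).comp_hasDerivAt φ hg

theorem wirV_pt_smooth (τ : ℝ) : ContDiff ℝ 1 (fun φ => pt τ φ) := by
  rw [contDiff_euclidean]
  intro i
  fin_cases i
  · exact contDiff_const.mul Real.contDiff_cos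
  · exact contDiff_const.mul Real.contDiff_sin
  · exact contDiff_const

theorem wirV_pt_per (τ φ : ℝ) : pt τ (φ + 2 * Real.pi) = pt τ φ := by
  simp [pt, Real.cos_add_two_pi, Real.sin_add_two_pi]

theorem wirt_V {n : ℕ} {p : E3 → ℝ} (hp : p ∈ V n) (τ : ℝ) (hτ : |τ| ≤ 1) :
    cm (fun x => p x ^ 2) τ - cm p τ ^ 2 ≤ cm (fun x => XX (e 2) p x ^ 2) τ := by
  have _ := hτ
  have hs := V_smooth hp
  have hd : ∀ φ, HasDerivAt (fun φ => p (pt τ φ)) (XX (e 2) p (pt τ φ)) φ := by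
    intro φ
    have h1 : HasFDerivAt p (fderiv ℝ p (pt τ φ)) (pt τ φ) :=
      ((hs.differentiable (by norm_num)) _).hasFDerivAt
    exact h1.comp_hasDerivAt φ (wirV_deriv_pt τ φ)
  have h := wirtinger (fun φ => p (pt τ φ))
    ((hs.of_le (by norm_num)).comp (wirV_pt_smooth τ))
    (fun t => by simp only [wirV_pt_per])
  have h2 : deriv (fun φ => p (pt τ φ)) = fun φ => XX (e 2) p (pt τ φ) :=
    funext fun φ => (hd φ).deriv
  rw [h2] at h
  exact h

theorem wirV_ii (f : E3 → ℝ) (hf : Measurable f) (C : ℝ) (hC : ∀ x, ‖x‖ = 1 → |f x| ≤ C) :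
    IntervalIntegrable (cm f) volume (-1) 1 := by
  refine (intervalIntegrable_const (c := C)).mono_fun'
    (sigC_cm_meas f hf).aestronglyMeasurable ?_
  refine (ae_restrict_iff' measurableSet_uIoc).2 (Eventually.of_forall ?_)
  intro τ hτ
  rw [Set.uIoc_of_le (by norm_num)] at hτ
  exact sigC_cm_bound f C hC τ (abs_le.2 ⟨hτ.1.le, hτ.2⟩)

theorem wirV_ii2 (f : E3 → ℝ) (hf : Measurable f) (C : ℝ) (hC : ∀ x, ‖x‖ = 1 → |f x| ≤ C) :
    IntervalIntegrable (fun τ => cm f τ ^ 2) volume (-1) 1 := by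
  refine (intervalIntegrable_const (c := C ^ 2)).mono_fun'
    ((sigC_cm_meas f hf).pow_const 2).aestronglyMeasurable ?_
  refine (ae_restrict_iff' measurableSet_uIoc).2 (Eventually.of_forall ?_)
  intro τ hτ
  rw [Set.uIoc_of_le (by norm_num)] at hτ
  have h := sigC_cm_bound f C hC τ (abs_le.2 ⟨hτ.1.le, hτ.2⟩)
  show |cm f τ ^ 2| ≤ C ^ 2
  rw [abs_pow]
  exact pow_le_pow_left₀ (abs_nonneg _) h 2

theorem A1_nonneg {n : ℕ} {p : E3 → ℝ} (hp : p ∈ V n) : 0 ≤ A1 p := by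
  have hX := V_XX hp (e 2)
  have gp := good_V hp
  have gX := good_V hX
  have gpp := gp.mul gp
  have gXX := gX.mul gX
  obtain ⟨C1, hC1⟩ := gp.bdd
  obtain ⟨C2, hC2⟩ := gpp.bdd
  obtain ⟨C3, hC3⟩ := gXX.bdd
  have i1 := (sigC_integral _ gpp.meas C2 hC2).2
  have i2 := (sigC_integral _ gXX.meas C3 hC3).2
  have j1 := wirV_ii _ gpp.meas C2 hC2
  have j2 := wirV_ii _ gXX.meas C3 hC3
  have j3 := wirV_ii2 _ gp.meas C1 hC1
  unfold A1 ip
  rw [i1, i2]
  rw [← mul_sub, ← mul_add, ← intervalIntegral.integral_sub j2 j1,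
    ← intervalIntegral.integral_add (j2.sub j1) j3]
  refine mul_nonneg (by norm_num) (intervalIntegral.integral_nonneg (by norm_num) ?_)
  intro τ hτ
  have h := wirt_V hp τ (abs_le.2 ⟨hτ.1, hτ.2⟩)
  simp only [pow_two] at h ⊢
  linarith

theorem AA3_nonneg {h : E3 → ℝ} (hh : HH 3 h) : 0 ≤ AA 3 (e 2) h := by
  rw [AA_A1 (Or.inr rfl) hh]
  exact A1_nonneg hh.mem

end STH
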