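import Pool.Agent.Lib_helper59.STH.Defs
import Pool.Agent.Lib_helper59.STHF.valg
import Pool.Agent.Lib_helper59.STHF.vxx
import Pool.Agent.Lib_helper59.STHF.ibpA
import Pool.Agent.Lib_helper59.STHF.parA
import Pool.Agent.Lib_helper59.STHF.zonA
import Pool.Agent.Lib_helper59.STHF.wirV
import Pool.Agent.Lib_helper59.STHF.gooA
import Pool.Agent.Lib_helper15.STE.B.sigA
import Pool.Agent.Lib_helper15.STE.B.sigC

/-! # STH, block fulA -/

open MeasureTheory Filter Topology
open Pool.Agent.Lib_helper15.STE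

namespace STH

/-- measurable and bounded on the sphere -/
def fulA_B (p : E3 → ℝ) : Prop := Measurable p ∧ ∃ C, ∀ x : E3, ‖x‖ = 1 → |p x| ≤ C

theorem fulA_BV {n : ℕ} {p : E3 → ℝ} (hp : p ∈ V n) : fulA_B p :=
  ⟨(good_V hp).meas, (good_V hp).bdd⟩

theorem fulA_mul {p q : E3 → ℝ} (hp : fulA_B p) (hq : fulA_B q) : fulA_B (fun x => p x * q x) := by
  obtain ⟨hp1, C, hC⟩ := hp
  obtain ⟨hq1, D, hD⟩ := hq
  refine ⟨hp1.mul hq1, C * D, fun x hx => ?_⟩
  rw [abs_mul]
  exact mul_le_mul (hC x hx) (hD x hx) (abs_nonneg _) ((abs_nonneg _).trans (hC x hx))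

theorem fulA_int {p : E3 → ℝ} (hp : fulA_B p) : Integrable p sig := by
  obtain ⟨hp1, C, hC⟩ := hp
  exact (sigC_integral p hp1 C hC).1

theorem fulA_cmint {p q : E3 → ℝ} (hp : fulA_B p) (hq : fulA_B q) :
    IntervalIntegrable (fun τ => cm p τ * cm q τ) volume (-1) 1 := by
  obtain ⟨hp1, C, hC⟩ := hp
  obtain ⟨hq1, D, hD⟩ := hq
  rw [intervalIntegrable_iff_integrableOn_Icc_of_le (by norm_num)]
  refine Measure.integrableOn_of_bounded (M := C * D) (by simp)
    ((sigC_cm_meas p hp1).mul (sigC_cm_meas q hq1)).aestronglyMeasurable ?_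
  refine (ae_restrict_mem measurableSet_Icc).mono fun τ hτ => ?_
  have hτ' : |τ| ≤ 1 := abs_le.mpr ⟨hτ.1, hτ.2⟩
  rw [norm_mul]
  exact mul_le_mul (sigC_cm_bound p C hC τ hτ') (sigC_cm_bound q D hD τ hτ') (norm_nonneg _)
    ((abs_nonneg _).trans (sigC_cm_bound p C hC τ hτ'))

theorem fulA_cmadd {m n : ℕ} {p q : E3 → ℝ} (hp : p ∈ V m) (hq : q ∈ V n) (τ : ℝ) :
    cm (fun x => p x + q x) τ = cm p τ + cm q τ := by
  unfold cm av
  have hc : Continuous fun φ : ℝ => pt τ φ :=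
    sigC_pt_cont.comp (Continuous.prodMk continuous_const continuous_id)
  have h1 : IntervalIntegrable (fun φ => p (pt τ φ)) volume (-Real.pi) Real.pi :=
    ((V_smooth hp).continuous.comp hc).intervalIntegrable _ _
  have h2 : IntervalIntegrable (fun φ => q (pt τ φ)) volume (-Real.pi) Real.pi :=
    ((V_smooth hq).continuous.comp hc).intervalIntegrable _ _
  rw [intervalIntegral.integral_add h1 h2, mul_add]

theorem fulA_Xadd {m n : ℕ} {p q : E3 → ℝ} (hp : p ∈ V m) (hq : q ∈ V n) (ν : E3) :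
    XX ν (fun x => p x + q x) = fun x => XX ν p x + XX ν q x := by
  funext x
  unfold XX
  have h1 : DifferentiableAt ℝ p x := (V_smooth hp).differentiable (by norm_num) x
  have h2 : DifferentiableAt ℝ q x := (V_smooth hq).differentiable (by norm_num) x
  rw [fderiv_fun_add h1 h2]
  rfl

theorem fulA_ipadd {p q : E3 → ℝ} (hp : fulA_B p) (hq : fulA_B q) :
    ip (fun x => p x + q x) (fun x => p x + q x) = ip p p + 2 * ip p q + ip q q := by
  unfold ip
  have h1 := fulA_int (fulA_mul hp hp)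
  have h2 := fulA_int (fulA_mul hp hq)
  have h3 := fulA_int (fulA_mul hq hq)
  have e1 := integral_add h1 (h2.const_mul 2)
  have e2 := integral_add (h1.add (h2.const_mul 2)) h3
  rw [integral_const_mul] at e1
  rw [← e1]
  refine Eq.trans ?_ e2
  refine integral_congr_ae (Eventually.of_forall fun x => ?_)
  simp only [Pi.add_apply]
  ring

theorem fulA_ipsum {r : E3 → ℝ} (hr : fulA_B r) (f : ℕ → E3 → ℝ) (hf : ∀ k, fulA_B (f k))
    (S : Finset ℕ) : ip r (fun x => ∑ k ∈ S, f k x) = ∑ k ∈ S, ip r (f k) := by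
  unfold ip
  rw [← integral_finsetSum S (fun k _ => fulA_int (fulA_mul hr (hf k)))]
  refine integral_congr_ae (Eventually.of_forall fun x => ?_)
  simp only
  rw [Finset.mul_sum]

/-- the polar form vanishes -/
theorem fulA_cross {n m : ℕ} (hn : n ≤ 6) {h R : E3 → ℝ} (hh : HH n h) (hR : R ∈ V m)
    (ho : ∀ h', HH n h' → ip h' R = 0) :
    A1 (fun x => h x + R x) = A1 h + A1 R := by
  unfold A1
  have hX1 : XX (e 2) h ∈ V n := V_XX hh.mem _
  have hX2 : XX (e 2) R ∈ V m := V_XX hR _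
  rw [fulA_Xadd hh.mem hR, fulA_ipadd (fulA_BV hX1) (fulA_BV hX2),
    fulA_ipadd (fulA_BV hh.mem) (fulA_BV hR)]
  have c1 : ip (XX (e 2) h) (XX (e 2) R) = 0 := by
    have h1 := ibp (good_V hX1) (good_V hR) (e 2)
    rw [ho _ (HH_XX (HH_XX hh _) _)] at h1
    linarith
  have c2 : ip h R = 0 := ho h hh
  have c3 : ∫ τ in (-1:ℝ)..1, cm h τ * cm R τ = 0 := by
    have hz := zonal_HH n hn
    obtain ⟨hm, C, hC⟩ := fulA_mul (fulA_BV hz.mem) (fulA_BV hR)
    have h1 := (sigC_integral _ hm C hC).2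
    have h2 : ip (fun x => LP n (x 2)) R = 0 := ho _ hz
    unfold ip at h2
    rw [h2] at h1
    have h3 : ∫ τ in (-1:ℝ)..1, cm h τ * cm R τ =
        h (e 2) * ∫ τ in (-1:ℝ)..1, cm (fun x => LP n (x 2) * R x) τ := by
      rw [← intervalIntegral.integral_const_mul]
      refine intervalIntegral.integral_congr fun τ hτ => ?_
      rw [Set.uIcc_of_le (by norm_num)] at hτ
      have hτ' : |τ| ≤ 1 := abs_le.mpr ⟨hτ.1, hτ.2⟩
      have h4 : cm (fun x => LP n (x 2) * R x) τ = LP n τ * cm R τ := by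
        unfold cm av
        have h5 : ∀ φ, (pt τ φ) 2 = τ := fun φ => rfl
        simp only [h5]
        rw [intervalIntegral.integral_const_mul]
        ring
      simp only
      rw [h4, zonal hn hh τ hτ']
      ring
    rw [h3]
    have h6 : ∫ τ in (-1:ℝ)..1, cm (fun x => LP n (x 2) * R x) τ = 0 := by linarith
    rw [h6, mul_zero]
  have c4 : ∫ τ in (-1:ℝ)..1, cm (fun x => h x + R x) τ ^ 2 =
      (∫ τ in (-1:ℝ)..1, cm h τ ^ 2) + ∫ τ in (-1:ℝ)..1, cm R τ ^ 2 := by
    have i1 := fulA_cmint (fulA_BV hh.mem) (fulA_BV hh.mem)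
    have i2 := fulA_cmint (fulA_BV hR) (fulA_BV hR)
    have i3 := fulA_cmint (fulA_BV hh.mem) (fulA_BV hR)
    have h1 : (fun τ => cm (fun x => h x + R x) τ ^ 2) =
        fun τ => (cm h τ * cm h τ + cm R τ * cm R τ) + 2 * (cm h τ * cm R τ) := by
      funext τ
      rw [fulA_cmadd hh.mem hR]
      ring
    rw [h1, intervalIntegral.integral_add (i1.add i2) (i3.const_mul 2),
      intervalIntegral.integral_const_mul, c3, intervalIntegral.integral_add i1 i2]
    simp only [sq]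
    ring
  rw [c1, c2, c4]
  ring

theorem A1_poly {f : ℕ → E3 → ℝ} (hf : ∀ n, HH n (f n)) (M : ℕ) (hM : 3 ≤ M) :
    AA 2 (e 2) (f 2) + AA 3 (e 2) (f 3) ≤ A1 (fun x => ∑ k ∈ Finset.range (M + 1), f k x) := by
  classical
  let S : Finset ℕ := ((Finset.range (M + 1)).erase 2).erase 3
  have hB : ∀ k, fulA_B (f k) := fun k => fulA_BV (hf k).mem
  have hQ : (fun x => ∑ k ∈ S, f k x) ∈ V M := by
    have h1 : (fun x => ∑ k ∈ S, f k x) = ∑ k ∈ S, f k := by
      funext x
      rw [Finset.sum_apply]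
    rw [h1]
    refine Submodule.sum_mem _ fun k hk => ?_
    have h2 : k < M + 1 := Finset.mem_range.mp (Finset.mem_of_mem_erase (Finset.mem_of_mem_erase hk))
    exact V_mono (by omega) (hf k).mem
  have hsplit : (fun x => ∑ k ∈ Finset.range (M + 1), f k x) =
      fun x => f 2 x + (f 3 x + ∑ k ∈ S, f k x) := by
    funext x
    have h2 : 2 ∈ Finset.range (M + 1) := Finset.mem_range.mpr (by omega)
    have h3 : 3 ∈ (Finset.range (M + 1)).erase 2 :=
      Finset.mem_erase.mpr ⟨by norm_num, Finset.mem_range.mpr (by omega)⟩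
    rw [← Finset.add_sum_erase _ _ h2, ← Finset.add_sum_erase _ _ h3]
  have hno2 : 2 ∉ S := by simp [S]
  have hno3 : 3 ∉ S := by simp [S]
  have o3 : ∀ h', HH 3 h' → ip h' (fun x => ∑ k ∈ S, f k x) = 0 := by
    intro h' hh'
    rw [fulA_ipsum (fulA_BV hh'.mem) f hB S]
    refine Finset.sum_eq_zero fun k hk => ?_
    exact ip_orth (fun h => hno3 (by rw [h]; exact hk)) hh' (hf k)
  have o2 : ∀ h', HH 2 h' → ip h' (fun x => ∑ k ∈ S, f k x) = 0 := by
    intro h' hh'
    rw [fulA_ipsum (fulA_BV hh'.mem) f hB S]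
    refine Finset.sum_eq_zero fun k hk => ?_
    exact ip_orth (fun h => hno2 (by rw [h]; exact hk)) hh' (hf k)
  have hR : (fun x => f 3 x + ∑ k ∈ S, f k x) ∈ V M :=
    Submodule.add_mem _ (V_mono hM (hf 3).mem) hQ
  have o2' : ∀ h', HH 2 h' → ip h' (fun x => f 3 x + ∑ k ∈ S, f k x) = 0 := by
    intro h' hh'
    have h1 := o2 h' hh'
    have h2 : ip h' (f 3) = 0 := ip_orth (by norm_num) hh' (hf 3)
    unfold ip at h1 h2 ⊢
    have i1 := fulA_int (fulA_mul (fulA_BV hh'.mem) (hB 3))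
    have i2 := fulA_int (fulA_mul (fulA_BV hh'.mem) (fulA_BV hQ))
    have h3 := integral_add i1 i2
    rw [h1, h2] at h3
    rw [← add_zero (0:ℝ), ← h3]
    refine integral_congr_ae (Eventually.of_forall fun x => ?_)
    simp only
    ring
  rw [hsplit, fulA_cross (by norm_num) (hf 2) hR o2', fulA_cross (by norm_num) (hf 3) hQ o3,
    AA_A1 (Or.inl rfl) (hf 2), AA_A1 (Or.inr rfl) (hf 3)]
  have := A1_nonneg hQ
  linarith

end STH
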