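import Pool.Agent.Lib_helper59.STH.Defs
import Pool.Agent.Lib_helper59.STHF.fulA
import Pool.Agent.Lib_helper59.STHF.parA
import Pool.Agent.Lib_helper59.STHF.besA
import Pool.Agent.Lib_helper59.STHF.gooA
import Pool.Agent.Lib_helper59.STHF.xxA
import Pool.Agent.Lib_helper59.STHF.valg
import Pool.Agent.Lib_helper15.STE.B.sigA
import Pool.Agent.Lib_helper15.STE.B.sigC

/-! # STH, block fulB (helper97) -/

open MeasureTheory Filter Topology
open Pool.Agent.Lib_helper15.STE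

namespace STH

theorem fulB_ii (g : ℝ → ℝ) (hg : Measurable g) (C : ℝ) (hC : ∀ τ : ℝ, |τ| ≤ 1 → |g τ| ≤ C) :
    IntervalIntegrable g volume (-1) 1 := by
  rw [intervalIntegrable_iff_integrableOn_Ioc_of_le (by norm_num)]
  have : IsFiniteMeasure (volume.restrict (Set.Ioc (-1:ℝ) 1)) := by
    constructor
    simp
  refine Integrable.of_bound hg.aestronglyMeasurable C ?_
  refine (ae_restrict_iff' measurableSet_Ioc).2 (Eventually.of_forall fun τ hτ => ?_)
  exact hC τ (abs_le.2 ⟨hτ.1.le, hτ.2⟩)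

/-- integrals of bounded measurable functions by circles -/
theorem fulB_cm_ii (f : E3 → ℝ) (hf : Measurable f) (C : ℝ) (hC : ∀ x, ‖x‖ = 1 → |f x| ≤ C) :
    IntervalIntegrable (cm f) volume (-1) 1 ∧
    IntervalIntegrable (fun τ => cm f τ ^ 2) volume (-1) 1 := by
  refine ⟨fulB_ii _ (sigC_cm_meas f hf) C fun τ hτ => sigC_cm_bound f C hC τ hτ, ?_⟩
  refine fulB_ii _ ((sigC_cm_meas f hf).pow_const 2) (C ^ 2) fun τ hτ => ?_
  rw [abs_pow]
  exact pow_le_pow_left₀ (abs_nonneg _) (sigC_cm_bound f C hC τ hτ) 2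

theorem fulB_int (f : E3 → ℝ) (hf : Measurable f) (C : ℝ) (hC : ∀ x, ‖x‖ = 1 → |f x| ≤ C) :
    ∫ τ in (-1:ℝ)..1, cm f τ = 2 * ∫ x, f x ∂sig := by
  rw [(sigC_integral f hf C hC).2]
  ring

theorem fulB_ii_av (f : E3 → ℝ) (hf : Measurable f) (C : ℝ) (hC : ∀ x, ‖x‖ = 1 → |f x| ≤ C)
    (τ : ℝ) (hτ : |τ| ≤ 1) :
    IntervalIntegrable (fun φ => f (pt τ φ)) volume (-Real.pi) Real.pi := by
  rw [intervalIntegrable_iff_integrableOn_Ioc_of_le (by linarith [Real.pi_pos])]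
  have : IsFiniteMeasure (volume.restrict (Set.Ioc (-Real.pi) Real.pi)) := by
    constructor
    simp
  have hm : Measurable fun φ => f (pt τ φ) :=
    hf.comp (sigC_pt_cont.comp (Continuous.prodMk continuous_const continuous_id)).measurable
  refine Integrable.of_bound hm.aestronglyMeasurable C ?_
  exact Eventually.of_forall fun φ => hC _ (sigC_pt_norm τ φ hτ)

theorem fulB_cm_sub (f g : E3 → ℝ) (hf : Measurable f) (hg : Measurable g) (C D : ℝ)
    (hC : ∀ x, ‖x‖ = 1 → |f x| ≤ C) (hD : ∀ x, ‖x‖ = 1 → |g x| ≤ D) (τ : ℝ) (hτ : |τ| ≤ 1) :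
    cm (fun x => f x - g x) τ = cm f τ - cm g τ := by
  unfold cm av
  rw [intervalIntegral.integral_sub (fulB_ii_av f hf C hC τ hτ) (fulB_ii_av g hg D hD τ hτ)]
  ring

/-- the left side in terms of integrals over the sphere -/
theorem fulB_lhs {F : E3 → ℝ} (hF : Good F) : Der F (-1) 1 - Var F (-1) 1 =
    2 * ip (XX (e 2) F) (XX (e 2) F) - 2 * ff F + ∫ τ in (-1:ℝ)..1, cm F τ ^ 2 := by
  obtain ⟨C, hC⟩ := hF.bdd
  obtain ⟨D, hD⟩ := XX_bdd hF (e 2)
  have sq : ∀ (f : E3 → ℝ) (C : ℝ), (∀ x, ‖x‖ = 1 → |f x| ≤ C) →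
      ∀ x, ‖x‖ = 1 → |f x ^ 2| ≤ C ^ 2 := fun f C h x hx => by
    rw [abs_pow]
    exact pow_le_pow_left₀ (abs_nonneg _) (h x hx) 2
  have h1 : Der F (-1) 1 = 2 * ip (XX (e 2) F) (XX (e 2) F) := by
    unfold Der ip
    rw [fulB_int _ ((XX_meas F (e 2)).pow_const 2) (D ^ 2) (sq _ D hD)]
    simp only [pow_two]
  have h2 : Var F (-1) 1 = 2 * ff F - ∫ τ in (-1:ℝ)..1, cm F τ ^ 2 := by
    unfold Var
    rw [intervalIntegral.integral_sub
      (fulB_cm_ii _ (hF.meas.pow_const 2) (C ^ 2) (sq _ C hC)).1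
      (fulB_cm_ii F hF.meas C hC).2,
      fulB_int _ (hF.meas.pow_const 2) (C ^ 2) (sq _ C hC)]
    rfl
  rw [h1, h2]
  ring

theorem full_lower {F : E3 → ℝ} (hF : Good F) {f : ℕ → E3 → ℝ} (hf : Dec F f) :
    2 * (AA 2 (e 2) (f 2) + AA 3 (e 2) (f 3)) ≤ Der F (-1) 1 - Var F (-1) 1 := by
  rw [fulB_lhs hF]
  -- the partial sums
  set P : ℕ → E3 → ℝ := fun M x => ∑ k ∈ Finset.range (M + 1), f k x with hPdef
  set R : ℕ → E3 → ℝ := fun M x => F x - P M x with hRdef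
  have hPV : ∀ M, P M ∈ V M := fun M => by
    have : P M = ∑ k ∈ Finset.range (M + 1), f k := by
      funext x
      simp [hPdef]
    rw [this]
    exact Submodule.sum_mem _ fun k hk =>
      V_mono (by simpa [Nat.lt_succ_iff] using hk) (hf.hh k).mem
  have hPG : ∀ M, Good (P M) := fun M => good_V (hPV M)
  have hRm : ∀ M, Measurable (R M) := fun M => hF.meas.sub (hPG M).meas
  obtain ⟨C, hC⟩ := hF.bdd
  have hpar : ∀ M, ip (P M) (P M) = ff F - ip (R M) (R M) := fun M => by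
    obtain ⟨D, hD⟩ := (hPG M).bdd
    have hR : ∀ x, ‖x‖ = 1 → |R M x| ≤ C + D := fun x hx =>
      (abs_sub _ _).trans (add_le_add (hC x hx) (hD x hx))
    have hRP : ip (R M) (P M) = 0 := hf.proj M (P M) (hPV M)
    have i1 : Integrable (fun x => R M x * R M x) sig :=
      (sigC_integral _ ((hRm M).mul (hRm M)) ((C + D) * (C + D)) fun x hx => by
        rw [Pi.mul_apply, abs_mul]
        exact mul_le_mul (hR x hx) (hR x hx) (abs_nonneg _) ((abs_nonneg _).trans (hR x hx))).1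
    have i2 : Integrable (fun x => R M x * P M x) sig :=
      (sigC_integral _ ((hRm M).mul (hPG M).meas) ((C + D) * D) fun x hx => by
        rw [Pi.mul_apply, abs_mul]
        exact mul_le_mul (hR x hx) (hD x hx) (abs_nonneg _) ((abs_nonneg _).trans (hR x hx))).1
    have i3 : Integrable (fun x => P M x * P M x) sig :=
      (sigC_integral _ ((hPG M).meas.mul (hPG M).meas) (D * D) fun x hx => by
        rw [Pi.mul_apply, abs_mul]
        exact mul_le_mul (hD x hx) (hD x hx) (abs_nonneg _) ((abs_nonneg _).trans (hD x hx))).1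
    have h : ff F = ∫ x, (R M x * R M x + 2 * (R M x * P M x)) + P M x * P M x ∂sig := by
      unfold ff
      refine integral_congr_ae (Eventually.of_forall fun x => ?_)
      simp only [hRdef]
      ring
    have i12 : Integrable (fun x => R M x * R M x + 2 * (R M x * P M x)) sig :=
      i1.add (i2.const_mul 2)
    rw [h, integral_add i12 i3, integral_add i1 (i2.const_mul 2), integral_const_mul]
    unfold ip at hRP ⊢
    rw [hRP]
    ring
  have hlim : Tendsto (fun M => ip (R M) (R M)) atTop (𝓝 0) := hf.lim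
  -- the circle means
  have hcm : ∀ (M : ℕ) (δ : ℝ), 0 < δ → ∫ τ in (-1:ℝ)..1, cm (P M) τ ^ 2 ≤
      (1 + δ) * (∫ τ in (-1:ℝ)..1, cm F τ ^ 2) + (1 + 1 / δ) * (2 * ip (R M) (R M)) :=
    fun M δ hδ => by
    obtain ⟨D, hD⟩ := (hPG M).bdd
    have hR : ∀ x, ‖x‖ = 1 → |R M x| ≤ C + D := fun x hx =>
      (abs_sub _ _).trans (add_le_add (hC x hx) (hD x hx))
    have hR2 : ∀ x, ‖x‖ = 1 → |R M x ^ 2| ≤ (C + D) ^ 2 := fun x hx => by
      rw [abs_pow]
      exact pow_le_pow_left₀ (abs_nonneg _) (hR x hx) 2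
    have e1 : 2 * ip (R M) (R M) = ∫ τ in (-1:ℝ)..1, cm (fun x => R M x ^ 2) τ := by
      rw [fulB_int _ ((hRm M).pow_const 2) _ hR2]
      unfold ip
      simp only [pow_two]
    rw [e1, ← intervalIntegral.integral_const_mul, ← intervalIntegral.integral_const_mul,
      ← intervalIntegral.integral_add ((fulB_cm_ii F hF.meas C hC).2.const_mul _)
        ((fulB_cm_ii _ ((hRm M).pow_const 2) _ hR2).1.const_mul _)]
    refine intervalIntegral.integral_mono_on (by norm_num)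
      (fulB_cm_ii (P M) (hPG M).meas D hD).2
      (((fulB_cm_ii F hF.meas C hC).2.const_mul _).add
        ((fulB_cm_ii _ ((hRm M).pow_const 2) _ hR2).1.const_mul _)) fun τ hτ => ?_
    have hτ' : |τ| ≤ 1 := abs_le.2 hτ
    have e2 : cm (P M) τ = cm F τ - cm (R M) τ := by
      rw [← fulB_cm_sub F (R M) hF.meas (hRm M) C (C + D) hC hR τ hτ']
      congr 1
      funext x
      simp [hRdef]
    have e3 := sigC_cm_sq (R M) (hRm M) (C + D) hR τ hτ'
    have e4 : (cm F τ - cm (R M) τ) ^ 2 ≤ (1 + δ) * cm F τ ^ 2 + (1 + 1 / δ) * cm (R M) τ ^ 2 := by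
      have h0 : (1 + δ) * cm F τ ^ 2 + (1 + 1 / δ) * cm (R M) τ ^ 2 -
          (cm F τ - cm (R M) τ) ^ 2 = (δ * cm F τ + cm (R M) τ) ^ 2 / δ := by
        field_simp
        ring
      have : 0 ≤ (δ * cm F τ + cm (R M) τ) ^ 2 / δ := by positivity
      linarith
    rw [e2]
    have : (1 + 1 / δ) * cm (R M) τ ^ 2 ≤ (1 + 1 / δ) * cm (fun x => R M x ^ 2) τ :=
      mul_le_mul_of_nonneg_left e3 (by positivity)
    linarith
  -- the limit
  refine le_of_forall_pos_le_add fun ε hε => ?_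
  have hI : 0 ≤ ∫ τ in (-1:ℝ)..1, cm F τ ^ 2 :=
    intervalIntegral.integral_nonneg (by norm_num) fun τ _ => sq_nonneg _
  set I := ∫ τ in (-1:ℝ)..1, cm F τ ^ 2 with hIdef
  obtain ⟨δ, hδ, hδI⟩ : ∃ δ : ℝ, 0 < δ ∧ δ * I ≤ ε := by
    refine ⟨ε / (I + 1), by positivity, ?_⟩
    rw [div_mul_eq_mul_div, div_le_iff₀ (by positivity)]
    nlinarith
  have hfin : ∀ᶠ M in atTop, 2 * (AA 2 (e 2) (f 2) + AA 3 (e 2) (f 3)) ≤
      (2 * ip (XX (e 2) F) (XX (e 2) F) - 2 * ff F + (1 + δ) * I) +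
        (2 + (1 + 1 / δ) * 2) * ip (R M) (R M) := by
    filter_upwards [eventually_ge_atTop 3] with M hM
    have h1 := A1_poly hf.hh M hM
    have h2 := bessel_X hF hf M (e 2)
    have h3 := hcm M δ hδ
    have h4 := hpar M
    unfold A1 at h1
    change AA 2 (e 2) (f 2) + AA 3 (e 2) (f 3) ≤ ip (XX (e 2) (P M)) (XX (e 2) (P M)) -
      ip (P M) (P M) + 1 / 2 * ∫ τ in (-1:ℝ)..1, cm (P M) τ ^ 2 at h1
    change ip (XX (e 2) (P M)) (XX (e 2) (P M)) ≤ _ at h2
    nlinarith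
  have hlim2 : Tendsto (fun M => (2 * ip (XX (e 2) F) (XX (e 2) F) - 2 * ff F + (1 + δ) * I) +
      (2 + (1 + 1 / δ) * 2) * ip (R M) (R M)) atTop
      (𝓝 ((2 * ip (XX (e 2) F) (XX (e 2) F) - 2 * ff F + (1 + δ) * I) +
        (2 + (1 + 1 / δ) * 2) * 0)) := tendsto_const_nhds.add (hlim.const_mul _)
  have := ge_of_tendsto hlim2 hfin
  nlinarith

end STH
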