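import Pool.Agent.Lib_helper59.STH.Defs

/-! # STH, block haaA: an invariant probability measure on the orthogonal group -/

open MeasureTheory Filter Topology
open Pool.Agent.Lib_helper15.STE

namespace STH

/-- the orthogonal group -/
abbrev haaA_G : Type := unitary (E3 →L[ℝ] E3)

instance haaA_star : ContinuousStar (E3 →L[ℝ] E3) := by
  constructor
  exact (ContinuousLinearMap.adjoint (𝕜 := ℝ) (E := E3) (F := E3)).continuous

theorem haaA_norm (g : haaA_G) : ‖(g : E3 →L[ℝ] E3)‖ ≤ 1 := by
  refine ContinuousLinearMap.opNorm_le_bound _ zero_le_one fun x => ?_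
  rw [one_mul]
  have := (Unitary.linearIsometryEquiv g).norm_map x
  exact le_of_eq this

instance haaA_compact : CompactSpace haaA_G := by
  refine isCompact_iff_compactSpace.1 ?_
  refine Metric.isCompact_of_isClosed_isBounded ?_ ?_
  · have : (unitary (E3 →L[ℝ] E3) : Set (E3 →L[ℝ] E3)) =
        {U | star U * U = 1} ∩ {U | U * star U = 1} := by
      ext U
      exact Unitary.mem_iff
    rw [this]
    exact (isClosed_eq (continuous_star.mul continuous_id) continuous_const).inter
      (isClosed_eq (continuous_id.mul continuous_star) continuous_const)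
  · refine (Metric.isBounded_closedBall (x := (0 : E3 →L[ℝ] E3)) (r := 1)).subset ?_
    intro U hU
    rw [mem_closedBall_zero_iff]
    exact haaA_norm ⟨U, hU⟩

theorem haaA_cont : Continuous fun p : haaA_G × E3 =>
    ((p.1⁻¹ : haaA_G) : E3 →L[ℝ] E3) p.2 := by
  have h0 : Continuous fun p : haaA_G × E3 => p.1⁻¹ := continuous_inv.comp continuous_fst
  have h1 : Continuous fun p : haaA_G × E3 => ((p.1⁻¹ : haaA_G) : E3 →L[ℝ] E3) :=
    continuous_subtype_val.comp h0
  exact h1.clm_apply continuous_snd

theorem haaA_cont1 (x : E3) : Continuous fun g : haaA_G =>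
    ((g⁻¹ : haaA_G) : E3 →L[ℝ] E3) x := by
  have h0 : Continuous fun g : haaA_G => g⁻¹ := continuous_inv
  have h1 : Continuous fun g : haaA_G => ((g⁻¹ : haaA_G) : E3 →L[ℝ] E3) :=
    continuous_subtype_val.comp h0
  exact h1.clm_apply continuous_const

theorem haar_exists : ∃ (Γ : Type) (_ : MeasurableSpace Γ) (H : Measure Γ)
    (γ : Γ → (E3 ≃ₗᵢ[ℝ] E3)), Haar H γ := by
  let _ : MeasurableSpace haaA_G := borel haaA_G
  have : BorelSpace haaA_G := ⟨rfl⟩
  let H : Measure haaA_G := Measure.haarMeasure ⊤
  let γ : haaA_G → (E3 ≃ₗᵢ[ℝ] E3) := fun g => Unitary.linearIsometryEquiv g⁻¹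
  have hγ : ∀ (g : haaA_G) (x : E3), γ g x = ((g⁻¹ : haaA_G) : E3 →L[ℝ] E3) x := fun g x => rfl
  have hc : Continuous fun p : haaA_G × E3 => γ p.1 p.2 := by
    exact haaA_cont
  have hc1 : ∀ x : E3, Continuous fun g : haaA_G => γ g x := fun x => haaA_cont1 x
  refine ⟨haaA_G, inferInstance, H, γ, ?_, ?_, ?_⟩
  · constructor
    have h := Measure.haarMeasure_self (K₀ := (⊤ : TopologicalSpace.PositiveCompacts haaA_G))
    rw [TopologicalSpace.PositiveCompacts.coe_top] at h
    exact h
  · exact hc.measurable
  · intro k x y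
    let h : haaA_G := Unitary.linearIsometryEquiv.symm k⁻¹
    have hk : ∀ (g : haaA_G) (z : E3), γ g (k z) = γ (h * g) z := by
      intro g z
      simp only [γ]
      rw [mul_inv_rev, map_mul, map_inv Unitary.linearIsometryEquiv h]
      simp only [h, MulEquiv.apply_symm_apply, inv_inv]
      rfl
    have hm : Measurable fun g : haaA_G => (γ g x, γ g y) :=
      ((hc1 x).measurable.prodMk (hc1 y).measurable)
    have e1 : (fun g : haaA_G => (γ g (k x), γ g (k y))) =
        (fun g : haaA_G => (γ g x, γ g y)) ∘ fun g => h * g := by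
      funext g
      simp only [Function.comp]
      rw [hk, hk]
    rw [e1, ← Measure.map_map hm (measurable_const_mul h), map_mul_left_eq_self]

end STH
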