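import Pool.Agent.Lib_helper59.STH.Defs
import Pool.Agent.Lib_helper59.STHF.haaB
import Pool.Agent.Lib_helper59.STHF.gooA
import Pool.Agent.Lib_helper59.STHF.xxA
import Pool.Agent.Lib_helper15.STE.B.sigA
import Pool.Agent.Lib_helper15.STE.B.sigC
import Pool.Agent.Lib_helper15.STE.B.admA

/-! # STH, block haaD -/

open MeasureTheory Filter Topology
open Pool.Agent.Lib_helper15.STE
open scoped InnerProductSpace

namespace STH

theorem haaD_inner (i : Fin 3) (x : E3) : ⟪e i, x⟫_ℝ = x i := by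
  unfold e
  rw [EuclideanSpace.inner_single_left]
  simp

theorem haaD_norm_e (i : Fin 3) : ‖e i‖ = 1 := by
  unfold e
  simp

theorem haaD_abs {x : E3} (hx : ‖x‖ = 1) (i : Fin 3) : |x i| ≤ 1 := by
  have h1 := abs_real_inner_le_norm (e i) x
  rwa [haaD_inner, haaD_norm_e, hx, mul_one] at h1

theorem haaD_expand (v : E3) : v = ∑ i, v i • e i := by
  ext j
  simp [e, Fin.sum_univ_three]
  fin_cases j <;> simp

theorem haaD_XX {Γ : Type} {γ : Γ → (E3 ≃ₗᵢ[ℝ] E3)} (F : E3 → ℝ) (g : Γ) (x : E3) :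
    XX (e 2) (F ∘ γ g) x = fderiv ℝ F (γ g x) (γ g (cr (e 2) x)) := by
  unfold XX
  have h1 := (γ g).toContinuousLinearEquiv.comp_right_fderiv (f := F) (x := x)
  have h2 : fderiv ℝ (F ∘ γ g) x = (fderiv ℝ F (γ g x)).comp
      ((γ g).toContinuousLinearEquiv : E3 →L[ℝ] E3) := h1
  rw [h2]
  rfl

theorem haaD_cr_cont : Continuous (fun x : E3 => cr (e 2) x) := by
  unfold cr
  fun_prop

theorem haaD_meas {Γ : Type} [MeasurableSpace Γ] {H : Measure Γ} {γ : Γ → (E3 ≃ₗᵢ[ℝ] E3)}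
    (hH : Haar H γ) (F : E3 → ℝ) :
    Measurable (fun p : Γ × E3 => XX (e 2) (F ∘ γ p.1) p.2) := by
  have h1 : ∀ p : Γ × E3, XX (e 2) (F ∘ γ p.1) p.2 =
      ∑ i, (γ p.1 (cr (e 2) p.2)) i * fderiv ℝ F (γ p.1 p.2) (e i) := by
    intro p
    rw [haaD_XX]
    conv_lhs => rw [haaD_expand (γ p.1 (cr (e 2) p.2))]
    rw [map_sum]
    simp only [map_smul, smul_eq_mul]
  simp only [h1]
  apply Finset.measurable_sum
  intro i _
  apply Measurable.mul
  · have h2 : Measurable (fun p : Γ × E3 => γ p.1 (cr (e 2) p.2)) :=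
      hH.meas.comp (measurable_fst.prodMk (haaD_cr_cont.measurable.comp measurable_snd))
    have h3 : Measurable (fun v : E3 => v i) := by
      have : Continuous (fun v : E3 => v i) := by fun_prop
      exact this.measurable
    exact h3.comp h2
  · exact (measurable_fderiv_apply_const ℝ F (e i)).comp hH.meas

theorem haaD_cr {x : E3} (hx : ‖x‖ = 1) : ‖cr (e 2) x‖ ≤ 1 := by
  have h1 : ‖x‖ ^ 2 = x 0 ^ 2 + x 1 ^ 2 + x 2 ^ 2 := by
    rw [EuclideanSpace.norm_sq_eq, Fin.sum_univ_three]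
    simp
  have h2 : ‖cr (e 2) x‖ ^ 2 = x 0 ^ 2 + x 1 ^ 2 := by
    rw [EuclideanSpace.norm_sq_eq, Fin.sum_univ_three]
    simp [cr, e]
    ring
  have h3 : ‖cr (e 2) x‖ ^ 2 ≤ 1 ^ 2 := by
    rw [h2]
    rw [hx] at h1
    nlinarith [sq_nonneg (x 2)]
  exact (pow_le_pow_iff_left₀ (norm_nonneg _) zero_le_one two_ne_zero).1 h3

theorem haaD_bound {Γ : Type} {γ : Γ → (E3 ≃ₗᵢ[ℝ] E3)} (F : E3 → ℝ) (C : ℝ)
    (hC : ∀ x, ‖x‖ = 1 → ‖fderiv ℝ F x‖ ≤ C) (g : Γ) (x : E3) (hx : ‖x‖ = 1) :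
    ‖XX (e 2) (F ∘ γ g) x ^ 2‖ ≤ C ^ 2 := by
  rw [haaD_XX, norm_pow]
  have h1 : ‖γ g x‖ = 1 := by rw [LinearIsometryEquiv.norm_map, hx]
  have h2 : ‖fderiv ℝ F (γ g x) (γ g (cr (e 2) x))‖ ≤ C := by
    calc ‖fderiv ℝ F (γ g x) (γ g (cr (e 2) x))‖
        ≤ ‖fderiv ℝ F (γ g x)‖ * ‖γ g (cr (e 2) x)‖ := ContinuousLinearMap.le_opNorm _ _
      _ ≤ ‖fderiv ℝ F (γ g x)‖ * 1 := by
          rw [LinearIsometryEquiv.norm_map]
          exact mul_le_mul_of_nonneg_left (haaD_cr hx) (norm_nonneg _)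
      _ ≤ C := by rw [mul_one]; exact hC _ h1
  exact pow_le_pow_left₀ (norm_nonneg _) h2 2

/-- the height, cut to `[-1, 1]` -/
noncomputable def haaD_c (τ : ℝ) : ℝ := max (-1) (min 1 τ)

theorem haaD_c_abs (τ : ℝ) : |haaD_c τ| ≤ 1 := by
  rw [abs_le]
  exact ⟨le_max_left _ _, max_le (by norm_num) (min_le_left _ _)⟩

theorem haaD_c_eq {τ : ℝ} (h1 : -1 ≤ τ) (h2 : τ ≤ 1) : haaD_c τ = τ := by
  unfold haaD_c
  rw [min_eq_right h2, max_eq_right h1]

theorem haaD_c_cont : Continuous haaD_c := by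
  unfold haaD_c
  fun_prop

theorem avg_Der {Γ : Type} [MeasurableSpace Γ] {H : Measure Γ} {γ : Γ → (E3 ≃ₗᵢ[ℝ] E3)}
    (hH : Haar H γ) (F : E3 → ℝ) (hF : Adm F) (a b : ℝ) (ha : -1 ≤ a) (hab : a ≤ b) (hb : b ≤ 1) :
    Integrable (fun g => Der (F ∘ γ g) a b) H ∧
      ∫ g, Der (F ∘ γ g) a b ∂H = (∫ τ in a..b, (1 - τ ^ 2) / 2) * GG F := by
  have hprob := hH.prob
  obtain ⟨C, hC⟩ := admA_bound F hF
  set ν : Measure ℝ := volume.restrict (Set.Ioc a b) with hν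
  set μ : Measure ℝ := volume.restrict (Set.Ioc (-Real.pi) Real.pi) with hμ
  have hle : -Real.pi ≤ Real.pi := by linarith [Real.pi_pos]
  set Ψ : Γ → ℝ × ℝ → ℝ := fun g z => XX (e 2) (F ∘ γ g) (pt (haaD_c z.1) z.2) ^ 2 with hΨ
  have hpt : ∀ z : ℝ × ℝ, ‖pt (haaD_c z.1) z.2‖ = 1 := fun z =>
    sigC_pt_norm _ _ (haaD_c_abs z.1)
  have hΨb : ∀ g z, ‖Ψ g z‖ ≤ C ^ 2 := fun g z =>
    haaD_bound F C (fun x hx => (hC x hx).2) g _ (hpt z)
  have hptm : Measurable (fun z : ℝ × ℝ => pt (haaD_c z.1) z.2) := by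
    have h1 : Continuous (fun z : ℝ × ℝ => (haaD_c z.1, z.2)) :=
      (haaD_c_cont.comp continuous_fst).prodMk continuous_snd
    exact (sigC_pt_cont.comp h1).measurable
  have hΨm : Measurable (fun p : Γ × (ℝ × ℝ) => Ψ p.1 p.2) := by
    have h1 : Measurable (fun p : Γ × (ℝ × ℝ) => (p.1, pt (haaD_c p.2.1) p.2.2)) :=
      measurable_fst.prodMk (hptm.comp measurable_snd)
    exact ((haaD_meas hH F).comp h1).pow_const 2
  have hint : Integrable (fun p : Γ × (ℝ × ℝ) => Ψ p.1 p.2) (H.prod (ν.prod μ)) :=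
    Integrable.of_bound hΨm.aestronglyMeasurable (C ^ 2) (Eventually.of_forall fun p => hΨb _ _)
  have hintg : ∀ g, Integrable (Ψ g) (ν.prod μ) := fun g =>
    Integrable.of_bound (hΨm.comp (measurable_const.prodMk measurable_id)).aestronglyMeasurable
      (C ^ 2) (Eventually.of_forall fun p => hΨb _ _)
  have hDer : ∀ g, Der (F ∘ γ g) a b = (2 * Real.pi)⁻¹ * ∫ z, Ψ g z ∂(ν.prod μ) := by
    intro g
    unfold Der cm av
    rw [integral_prod _ (hintg g), intervalIntegral.integral_of_le hab, ← integral_const_mul]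
    apply setIntegral_congr_fun measurableSet_Ioc
    intro τ hτ
    simp only [hΨ]
    rw [haaD_c_eq (by linarith [hτ.1]) (by linarith [hτ.2]), intervalIntegral.integral_of_le hle]
  constructor
  · simp only [hDer]
    exact (hint.integral_prod_left).const_mul _
  · simp only [hDer]
    rw [integral_const_mul, integral_integral_swap hint]
    have h2 : ∀ z : ℝ × ℝ, ∫ g, Ψ g z ∂H = (1 - haaD_c z.1 ^ 2) / 2 * GG F := by
      intro z
      have h3 := avg_der hH F hF (pt (haaD_c z.1) z.2) (hpt z)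
      have h4 : (pt (haaD_c z.1) z.2) 2 = haaD_c z.1 := by simp [pt]
      rw [h4] at h3
      exact h3
    simp only [h2]
    have h5 : ∫ z : ℝ × ℝ, (1 - haaD_c z.1 ^ 2) / 2 * GG F ∂(ν.prod μ) =
        (∫ τ, (1 - haaD_c τ ^ 2) / 2 * GG F ∂ν) * ∫ _, (1 : ℝ) ∂μ := by
      rw [← integral_prod_mul]
      simp only [mul_one]
    have h6 : ∫ _, (1 : ℝ) ∂μ = 2 * Real.pi := by
      rw [integral_const, hμ]
      simp only [smul_eq_mul, mul_one]
      rw [Measure.real, Measure.restrict_apply MeasurableSet.univ, Set.univ_inter,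
        Real.volume_Ioc, ENNReal.toReal_ofReal (by linarith)]
      ring
    have h7 : ∫ τ, (1 - haaD_c τ ^ 2) / 2 * GG F ∂ν = (∫ τ in a..b, (1 - τ ^ 2) / 2) * GG F := by
      rw [intervalIntegral.integral_of_le hab, ← integral_mul_const]
      apply setIntegral_congr_fun measurableSet_Ioc
      intro τ hτ
      simp only
      rw [haaD_c_eq (by linarith [hτ.1]) (by linarith [hτ.2])]
    rw [h5, h6, h7]
    have hpi : (2 * Real.pi) ≠ 0 := by positivity
    field_simp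

end STH
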