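import Pool.Agent.Lib_helper59.STH.Defs
import Pool.Agent.Lib_helper59.STHF.valg
import Pool.Agent.Lib_helper59.STHF.gooA
import Pool.Agent.Lib_helper59.STHF.parA
import Pool.Agent.Lib_helper59.STHF.momA
import Pool.Agent.Lib_helper15.STE.B.sigA

/-! # STH, block lowA -/

open MeasureTheory Filter Topology
open Pool.Agent.Lib_helper15.STE

namespace STH

theorem lowA_int {F : E3 → ℝ} (hF : Good F) : Integrable F sig := by
  have := sigA_prob
  obtain ⟨C, hC⟩ := hF.bdd
  refine Integrable.of_bound hF.meas.aestronglyMeasurable C ?_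
  filter_upwards [sigA_sphere] with x hx
  exact hC x hx

theorem lowA_coord (i : Fin 3) : Good (fun x : E3 => x i) := good_V (V_coord i)

theorem lowA_const (c : ℝ) : Good (fun _ : E3 => c) := by
  have h : (fun _ : E3 => c) ∈ V 0 := by
    have := (V 0).smul_mem c V_one
    convert this using 1
    funext x
    simp
  exact good_V h

theorem lowA_V1 {p : E3 → ℝ} (hp : p ∈ V 1) :
    ∃ c b0 b1 b2 : ℝ, p = fun x => c + b0 * x 0 + b1 * x 1 + b2 * x 2 := by
  unfold V at hp
  induction hp using Submodule.span_induction with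
  | mem p hp =>
    obtain ⟨i, j, k, h, rfl⟩ := hp
    have hi : i ≤ 1 := by omega
    have hj : j ≤ 1 := by omega
    have hk : k ≤ 1 := by omega
    interval_cases i <;> interval_cases j <;> interval_cases k <;> first | omega | skip
    · exact ⟨1, 0, 0, 0, by funext x; simp [mon]⟩
    · exact ⟨0, 0, 0, 1, by funext x; simp [mon]⟩
    · exact ⟨0, 0, 1, 0, by funext x; simp [mon]⟩
    · exact ⟨0, 1, 0, 0, by funext x; simp [mon]⟩
  | zero => exact ⟨0, 0, 0, 0, by funext x; simp⟩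
  | add p q _ _ hp hq =>
    obtain ⟨c, b0, b1, b2, rfl⟩ := hp
    obtain ⟨c', b0', b1', b2', rfl⟩ := hq
    exact ⟨c + c', b0 + b0', b1 + b1', b2 + b2', by funext x; simp only [Pi.add_apply]; ring⟩
  | smul a p _ hp =>
    obtain ⟨c, b0, b1, b2, rfl⟩ := hp
    exact ⟨a * c, a * b0, a * b1, a * b2, by
      funext x; simp only [Pi.smul_apply, smul_eq_mul]; ring⟩

theorem lowA_m0 : ∫ x : E3, x 0 ∂sig = 0 := by
  have h := mom 1 0 0 (by norm_num)
  simpa [mon] using h

theorem lowA_m1 : ∫ x : E3, x 1 ∂sig = 0 := by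
  have h := mom 0 1 0 (by norm_num)
  simpa [mon] using h

theorem lowA_m2 : ∫ x : E3, x 2 ∂sig = 0 := by
  have h := mom 0 0 1 (by norm_num)
  simpa [mon] using h

theorem lowA_mm (i j : Fin 3) : ∫ x : E3, x i * x j ∂sig = if i = j then 1 / 3 else 0 := by
  have h1 := mom 2 0 0 (by norm_num)
  have h2 := mom 0 2 0 (by norm_num)
  have h3 := mom 0 0 2 (by norm_num)
  have h4 := mom 1 1 0 (by norm_num)
  have h5 := mom 1 0 1 (by norm_num)
  have h6 := mom 0 1 1 (by norm_num)
  simp [mon, Nat.doubleFactorial] at h1 h2 h3 h4 h5 h6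
  have c : ∀ i j : Fin 3, ∫ x : E3, x i * x j ∂sig = ∫ x : E3, x j * x i ∂sig := fun i j => by
    simp only [mul_comm]
  have s : ∀ i : Fin 3, ∫ x : E3, x i * x i ∂sig = ∫ x : E3, x i ^ 2 ∂sig := fun i => by
    simp only [sq]
  fin_cases i <;> fin_cases j
  · simp only [Fin.zero_eta, if_true]; rw [s, h1]; norm_num
  · simpa using h4
  · simpa using h5
  · simp; rw [c]; exact h4
  · simp only [Fin.mk_one, if_true]; rw [s, h2]; norm_num
  · simpa using h6
  · simp; rw [c]; exact h5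
  · simp; rw [c]; exact h6
  · simp only [Fin.reduceFinMk, if_true]; rw [s, h3]; norm_num

/-- integrals of linear functions against a good function -/
theorem lowA_lin {G : E3 → ℝ} (hG : Good G) (c b0 b1 b2 : ℝ) :
    ∫ x, (c + b0 * x 0 + b1 * x 1 + b2 * x 2) * G x ∂sig =
      c * ∫ x, G x ∂sig + b0 * ∫ x, x 0 * G x ∂sig + b1 * ∫ x, x 1 * G x ∂sig +
        b2 * ∫ x, x 2 * G x ∂sig := by
  have i0 := (lowA_int hG).const_mul c
  have i1 := (lowA_int ((lowA_coord 0).mul hG)).const_mul b0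
  have i2 := (lowA_int ((lowA_coord 1).mul hG)).const_mul b1
  have i3 := (lowA_int ((lowA_coord 2).mul hG)).const_mul b2
  rw [← integral_const_mul, ← integral_const_mul, ← integral_const_mul, ← integral_const_mul]
  have a1 := integral_add i0 i1
  have a2 := integral_add (i0.add i1) i2
  have a3 := integral_add ((i0.add i1).add i2) i3
  simp only [Pi.add_apply] at a1 a2 a3
  rw [← a1, ← a2, ← a3]
  refine integral_congr_ae (Eventually.of_forall fun x => ?_)
  simp only
  ring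

theorem low {F : E3 → ℝ} (hF : Good F) {f : ℕ → E3 → ℝ} (hf : Dec F f) (h0 : ∫ x, F x ∂sig = 0)
    (δ : ℝ) (hδ : 0 ≤ δ) (h1 : ∀ i : Fin 3, |∫ x, F x * x i ∂sig| ≤ δ * √(ff F)) :
    ip (f 0) (f 0) = 0 ∧ ip (f 1) (f 1) ≤ 9 * δ ^ 2 * ff F := by
  have := sigA_prob
  obtain ⟨c0, hc0⟩ := V_zero (hf.hh 0).mem
  have hz : c0 = 0 := by
    have h := hf.proj 0 _ V_one
    unfold ip at h
    simp only [zero_add, Finset.sum_range_one, hc0, mul_one] at h
    rw [integral_sub (lowA_int hF) (integrable_const _), h0] at h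
    simpa using h
  subst hz
  refine ⟨by unfold ip; simp [hc0], ?_⟩
  obtain ⟨c, b0, b1, b2, hf1⟩ := lowA_V1 (hf.hh 1).mem
  have hc : c = 0 := by
    have h := (hf.hh 1).orth 0 zero_lt_one _ V_one
    unfold ip at h
    rw [hf1] at h
    rw [lowA_lin (lowA_const 1)] at h
    simp only [mul_one, lowA_m0, lowA_m1, lowA_m2, mul_zero, add_zero] at h
    simpa using h
  subst hc
  have hb : ∀ i : Fin 3, ∫ x, F x * x i ∂sig = ∫ x, f 1 x * x i ∂sig := by
    intro i
    have h := hf.proj 1 _ (V_coord i)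
    unfold ip at h
    have h2 : (fun x : E3 => (F x - ∑ k ∈ Finset.range (1 + 1), f k x) * x i) =
        fun x => F x * x i - f 1 x * x i := by
      funext x
      rw [Finset.sum_range_succ, Finset.sum_range_one, hc0]
      ring
    rw [h2, integral_sub (lowA_int (hF.mul (lowA_coord i)))
      (lowA_int ((good_V (hf.hh 1).mem).mul (lowA_coord i)))] at h
    linarith
  have e0 : ∫ x, F x * x 0 ∂sig = b0 / 3 := by
    rw [hb 0, hf1, lowA_lin (lowA_coord 0), lowA_mm, lowA_mm, lowA_mm]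
    simp; ring
  have e1 : ∫ x, F x * x 1 ∂sig = b1 / 3 := by
    rw [hb 1, hf1, lowA_lin (lowA_coord 1), lowA_mm, lowA_mm, lowA_mm]
    simp; ring
  have e2 : ∫ x, F x * x 2 ∂sig = b2 / 3 := by
    rw [hb 2, hf1, lowA_lin (lowA_coord 2), lowA_mm, lowA_mm, lowA_mm]
    simp; ring
  have hff : 0 ≤ ff F := integral_nonneg fun x => sq_nonneg _
  have hsq : ∀ i : Fin 3, (∫ x, F x * x i ∂sig) ^ 2 ≤ δ ^ 2 * ff F := by
    intro i
    rw [← sq_abs]
    calc |∫ x, F x * x i ∂sig| ^ 2 ≤ (δ * √(ff F)) ^ 2 :=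
          pow_le_pow_left₀ (abs_nonneg _) (h1 i) 2
      _ = δ ^ 2 * ff F := by rw [mul_pow, Real.sq_sqrt hff]
  have hip : ip (f 1) (f 1) = (b0 ^ 2 + b1 ^ 2 + b2 ^ 2) / 3 := by
    unfold ip
    have hg : Good (f 1) := good_V (hf.hh 1).mem
    have h2 : ∫ x, f 1 x * f 1 x ∂sig =
        ∫ x, (0 + b0 * x 0 + b1 * x 1 + b2 * x 2) * f 1 x ∂sig := by
      refine integral_congr_ae (Eventually.of_forall fun x => ?_)
      simp only [hf1]
    rw [h2, lowA_lin hg]
    have h3 : ∀ i : Fin 3, ∫ x, x i * f 1 x ∂sig = ∫ x, f 1 x * x i ∂sig := fun i => by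
      simp only [mul_comm]
    rw [h3 0, h3 1, h3 2, ← hb, ← hb, ← hb, e0, e1, e2]
    ring
  have s0 := hsq 0
  have s1 := hsq 1
  have s2 := hsq 2
  rw [e0] at s0
  rw [e1] at s1
  rw [e2] at s2
  rw [hip]
  nlinarith

end STH
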