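import Mathlib
import Pool.Agent.Lib_helper15.STE.B.sigA
import Pool.Agent.Lib_helper15.STE.B.rot
import Pool.Agent.Lib_helper59.STHF.valg
import Pool.Agent.Lib_helper59.STHF.gooA
import Pool.Agent.Lib_helper59.STHF.dece
import Pool.Agent.Lib_helper59.STHF.parA
import Pool.Agent.Lib_helper59.STHF.lowA
import Pool.Agent.Lib_helper59.STHF.besA
import Pool.Agent.Lib_helper59.STHF.fulB
import Pool.Agent.Lib_helper59.STHF.capA
import Pool.Agent.Lib_helper59.STHF.cmpA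
import Pool.Agent.Lib_helper59.STHF.wirV
import Pool.Agent.Lib_helper59.STHF.haaA
import Pool.Agent.Lib_helper59.STHF.haaD
import Pool.Agent.Lib_helper59.STHF.haaE
import Pool.Agent.Lib_helper59.STHF.axsA

/-! # Assembly of the harmonic half -/

open MeasureTheory Filter Topology
open Pool.Agent.Lib_helper15.STE

namespace STH

theorem ip_self_nonneg (p : E3 → ℝ) : 0 ≤ ip p p := by
  unfold ip
  exact integral_nonneg fun x => mul_self_nonneg _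

theorem ff_nonneg (F : E3 → ℝ) : 0 ≤ ff F := by
  unfold ff
  exact integral_nonneg fun x => sq_nonneg _

/-- Poincare inequality for the degrees above 6 -/
theorem poincare {F : E3 → ℝ} (hF : Adm F) {f : ℕ → E3 → ℝ} (hf : Dec F f) :
    (∑ k ∈ Finset.range 7, ((k:ℝ) * (k + 1)) * ip (f k) (f k)) +
      56 * (ff F - ∑ k ∈ Finset.range 7, ip (f k) (f k)) ≤ GG F ∧
    ∑ k ∈ Finset.range 7, ip (f k) (f k) ≤ ff F := by
  have hs := parseval (good_adm F hF) hf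
  have hnn : ∀ k, 0 ≤ ip (f k) (f k) := fun k => ip_self_nonneg _
  refine ⟨?_, ?_⟩
  · have h1 : ∀ n, (∑ k ∈ Finset.range 7, ((k:ℝ) * (k + 1)) * ip (f k) (f k)) +
        56 * (∑ k ∈ Finset.range (n + 7), ip (f k) (f k) -
          ∑ k ∈ Finset.range 7, ip (f k) (f k)) ≤ GG F := by
      intro n
      refine le_trans ?_ (bessel_GG hF hf (n + 7))
      rw [add_comm n 7, Finset.sum_range_add, Finset.sum_range_add, add_sub_cancel_left,
        Finset.mul_sum]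
      gcongr with k hk
      · exact hnn _
      · push_cast
        have : (0:ℝ) ≤ k := Nat.cast_nonneg k
        nlinarith
    have h2 : Tendsto (fun n => (∑ k ∈ Finset.range 7, ((k:ℝ) * (k + 1)) * ip (f k) (f k)) +
        56 * (∑ k ∈ Finset.range (n + 7), ip (f k) (f k) -
          ∑ k ∈ Finset.range 7, ip (f k) (f k))) atTop
        (𝓝 ((∑ k ∈ Finset.range 7, ((k:ℝ) * (k + 1)) * ip (f k) (f k)) +
      56 * (ff F - ∑ k ∈ Finset.range 7, ip (f k) (f k)))) := by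
      have h3 := (tendsto_add_atTop_iff_nat 7).mpr hs.tendsto_sum_nat
      exact ((h3.sub_const _).const_mul 56).const_add _
    exact le_of_tendsto' h2 h1
  · exact sum_le_hasSum _ (fun k _ => hnn k) hs

theorem win2 (u : ℝ) (h1 : 396 / 10000 ≤ u) (h2 : u ≤ 41559 / 1000000) :
    u ^ 2 * 10.99 ≤ 6 * u - 1 + (1 - u) * (5 * (1 - u) - 3) ^ 2 / 4 ∧
    u ^ 2 * 31.9 ≤ 10 * u - 1 + (35 * (1 - u) ^ 2 - 30 * (1 - u) + 3) ^ 2 / 64 ∧
    u ^ 2 * 71.7 ≤ 15 * u - 1 + (1 - u) * (63 * (1 - u) ^ 2 - 70 * (1 - u) + 15) ^ 2 / 64 ∧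
    u ^ 2 * 137 ≤ 21 * u - 1 +
      (231 * (1 - u) ^ 3 - 315 * (1 - u) ^ 2 + 105 * (1 - u) - 5) ^ 2 / 256 ∧
    u ^ 2 * 69 ≤ 28 * u - 1 ∧ u ^ 2 * 12 ≤ u / 2 := by
  have hprod : 0 ≤ (u - 396 / 10000) * (41559 / 1000000 - u) :=
    mul_nonneg (by linarith) (by linarith)
  have hprod' : (u - 396 / 10000) * (41559 / 1000000 - u) =
    (396 / 10000 + 41559 / 1000000) * u - 396 / 10000 * (41559 / 1000000) - u ^ 2 := by ring
  rw [hprod'] at hprod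
  have hu0 : 0 ≤ u ^ 2 := sq_nonneg u
  have hsq : 82 / 1000 * u - 1681 / 1000000 ≤ u ^ 2 := by
    have h3 := sq_nonneg (u - 41 / 1000)
    have h4 : (u - 41 / 1000) ^ 2 = u ^ 2 - 82 / 1000 * u + 1681 / 1000000 := by ring
    linarith
  have hpos : 0 ≤ u := by linarith
  have hsq2 : u ^ 2 ≤ 1728 / 1000000 := by
    have h3 := pow_le_pow_left₀ hpos h2 2
    norm_num at h3
    linarith
  have hcu : u ^ 3 ≤ 72 / 1000000 := by
    have h3 := pow_le_pow_left₀ hpos h2 3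
    norm_num at h3
    linarith
  have hu4 : 0 ≤ u ^ 4 := by positivity
  refine ⟨?_, ?_, ?_, ?_, ?_, ?_⟩
  · have h : 0 ≤ 26 / 100 - 25 / 4 * u := by linarith
    have h3 := mul_nonneg hu0 h
    have : 6 * u - 1 + (1 - u) * (5 * (1 - u) - 3) ^ 2 / 4 - u ^ 2 * 10.99 =
      u ^ 2 * (26 / 100 - 25 / 4 * u) := by ring
    linarith
  · have h : 0 ≤ 135 / 4 - 319 / 10 - 175 / 4 * u + 1225 / 64 * u ^ 2 := by linarith
    have h3 := mul_nonneg hu0 h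
    have : 10 * u - 1 + (35 * (1 - u) ^ 2 - 30 * (1 - u) + 3) ^ 2 / 64 - u ^ 2 * 31.9 =
      u ^ 2 * (135 / 4 - 319 / 10 - 175 / 4 * u + 1225 / 64 * u ^ 2) := by ring
    linarith
  · have h : 0 ≤ 315 / 4 - 717 / 10 - 175 * u + 11025 / 64 * u ^ 2 - 3969 / 64 * u ^ 3 := by
      linarith
    have h3 := mul_nonneg hu0 h
    have : 15 * u - 1 + (1 - u) * (63 * (1 - u) ^ 2 - 70 * (1 - u) + 15) ^ 2 / 64 - u ^ 2 * 71.7 =
      u ^ 2 * (315 / 4 - 717 / 10 - 175 * u + 11025 / 64 * u ^ 2 - 3969 / 64 * u ^ 3) := by ring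
    linarith
  · have h : 0 ≤ 315 / 2 - 137 - 525 * u + 55125 / 64 * u ^ 2 - 43659 / 64 * u ^ 3 +
        53361 / 256 * u ^ 4 := by linarith
    have h3 := mul_nonneg hu0 h
    have : 21 * u - 1 + (231 * (1 - u) ^ 3 - 315 * (1 - u) ^ 2 + 105 * (1 - u) - 5) ^ 2 / 256 -
      u ^ 2 * 137 = u ^ 2 * (315 / 2 - 137 - 525 * u + 55125 / 64 * u ^ 2 - 43659 / 64 * u ^ 3 +
        53361 / 256 * u ^ 4) := by ring
    linarith
  · linarith
  · have h3 : 0 ≤ u * (41559 / 1000000 - u) := mul_nonneg hpos (by linarith)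
    have h4 : u * (41559 / 1000000 - u) = 41559 / 1000000 * u - u ^ 2 := by ring
    linarith

/-- pointwise inequalities in the window -/
theorem win (τ : ℝ) (h1 : 979 / 1000 ≤ τ) (h2 : τ ≤ 98 / 100) (a : ℕ → ℝ) (ha : ∀ k, 0 ≤ a k)
    (r t G f : ℝ) (hr : 0 ≤ r) (ht : 0 ≤ t) (ha0 : a 0 = 0)
    (hG : G = 2 * a 1 + 6 * a 2 + 12 * a 3 + 20 * a 4 + 30 * a 5 + 42 * a 6 + 56 * r + t)
    (hf : f = a 1 + a 2 + a 3 + a 4 + a 5 + a 6 + r) :
    (1 - τ ^ 2) ^ 2 * (9 / 4 * a 2 + 10.99 * a 3 + 31.9 * a 4 + 71.7 * a 5 + 137 * a 6 + 69 * r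
      + 12 * t) ≤
    (1 - τ ^ 2) / 2 * G - (f - ∑ k ∈ Finset.range 7, LP k τ ^ 2 * a k) := by
  obtain ⟨u, hu⟩ : ∃ u, u = 1 - τ ^ 2 := ⟨_, rfl⟩
  have hτ0 : 0 ≤ τ := by linarith
  have hτ1 := pow_le_pow_left₀ (by norm_num : (0:ℝ) ≤ 979 / 1000) h1 2
  have hτ2 := pow_le_pow_left₀ hτ0 h2 2
  norm_num at hτ1 hτ2
  have hu1 : 396 / 10000 ≤ u := by rw [hu]; linarith
  have hu2 : u ≤ 41559 / 1000000 := by rw [hu]; linarith
  have hτ : τ ^ 2 = 1 - u := by rw [hu]; ring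
  have e2 : LP 2 τ ^ 2 = (3 * (1 - u) - 1) ^ 2 / 4 := by
    simp only [LP]; rw [← hτ]; ring
  have e3 : LP 3 τ ^ 2 = (1 - u) * (5 * (1 - u) - 3) ^ 2 / 4 := by
    simp only [LP]; rw [← hτ]; ring
  have e4 : LP 4 τ ^ 2 = (35 * (1 - u) ^ 2 - 30 * (1 - u) + 3) ^ 2 / 64 := by
    simp only [LP]; rw [← hτ]; ring
  have e5 : LP 5 τ ^ 2 = (1 - u) * (63 * (1 - u) ^ 2 - 70 * (1 - u) + 15) ^ 2 / 64 := by
    simp only [LP]; rw [← hτ]; ring
  have e6 : LP 6 τ ^ 2 = (231 * (1 - u) ^ 3 - 315 * (1 - u) ^ 2 + 105 * (1 - u) - 5) ^ 2 / 256 := by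
    simp only [LP]; rw [← hτ]; ring
  have hsum : ∑ k ∈ Finset.range 7, LP k τ ^ 2 * a k = (1 - u) * a 1 + LP 2 τ ^ 2 * a 2 +
      LP 3 τ ^ 2 * a 3 + LP 4 τ ^ 2 * a 4 + LP 5 τ ^ 2 * a 5 + LP 6 τ ^ 2 * a 6 := by
    simp only [Finset.sum_range_succ, Finset.sum_range_zero, ha0]
    have : LP 1 τ ^ 2 = 1 - u := by simp only [LP]; exact hτ
    rw [this]
    ring
  rw [hsum, ← hu]
  obtain ⟨c3, c4, c5, c6, c7, c8⟩ := win2 u hu1 hu2
  rw [← e3] at c3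
  rw [← e4] at c4
  rw [← e5] at c5
  rw [← e6] at c6
  have c2 : u ^ 2 * (9 / 4) ≤ 3 * u - 1 + LP 2 τ ^ 2 := by
    rw [e2]
    have : 3 * u - 1 + (3 * (1 - u) - 1) ^ 2 / 4 = u ^ 2 * (9 / 4) := by ring
    rw [this]
  have m2 := mul_le_mul_of_nonneg_right c2 (ha 2)
  have m3 := mul_le_mul_of_nonneg_right c3 (ha 3)
  have m4 := mul_le_mul_of_nonneg_right c4 (ha 4)
  have m5 := mul_le_mul_of_nonneg_right c5 (ha 5)
  have m6 := mul_le_mul_of_nonneg_right c6 (ha 6)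
  have m7 := mul_le_mul_of_nonneg_right c7 hr
  have m8 := mul_le_mul_of_nonneg_right c8 ht
  rw [hG, hf]
  generalize LP 2 τ ^ 2 = L2 at *
  generalize LP 3 τ ^ 2 = L3 at *
  generalize LP 4 τ ^ 2 = L4 at *
  generalize LP 5 τ ^ 2 = L5 at *
  generalize LP 6 τ ^ 2 = L6 at *
  have e1 : u ^ 2 * (9 / 4 * a 2 + 10.99 * a 3 + 31.9 * a 4 + 71.7 * a 5 + 137 * a 6 + 69 * r
      + 12 * t) = u ^ 2 * (9 / 4) * a 2 + u ^ 2 * 10.99 * a 3 + u ^ 2 * 31.9 * a 4 +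
      u ^ 2 * 71.7 * a 5 + u ^ 2 * 137 * a 6 + u ^ 2 * 69 * r + u ^ 2 * 12 * t := by ring
  have e2 : u / 2 * (2 * a 1 + 6 * a 2 + 12 * a 3 + 20 * a 4 + 30 * a 5 + 42 * a 6 + 56 * r + t) -
      (a 1 + a 2 + a 3 + a 4 + a 5 + a 6 + r - ((1 - u) * a 1 + L2 * a 2 + L3 * a 3 + L4 * a 4 +
      L5 * a 5 + L6 * a 6)) = (3 * u - 1 + L2) * a 2 + (6 * u - 1 + L3) * a 3 +
      (10 * u - 1 + L4) * a 4 + (15 * u - 1 + L5) * a 5 + (21 * u - 1 + L6) * a 6 +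
      (28 * u - 1) * r + u / 2 * t := by ring
  rw [e1, e2]
  linarith

theorem int_s2 (x y : ℝ) : ∫ τ in x..y, (1 - τ ^ 2) / 2 = (y - x) / 2 - (y ^ 3 - x ^ 3) / 6 := by
  have h : (fun τ : ℝ => (1 - τ ^ 2) / 2) = fun τ => 1 / 2 - 1 / 2 * τ ^ 2 := by
    funext τ; ring
  rw [h, intervalIntegral.integral_sub (by simp) (by
    apply Continuous.intervalIntegrable; fun_prop), intervalIntegral.integral_const,
    intervalIntegral.integral_const_mul, integral_pow]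
  simp only [smul_eq_mul]
  norm_num
  ring

theorem int_s4 (x y : ℝ) : ∫ τ in x..y, (1 - τ ^ 2) ^ 2 =
    (y - x) - 2 / 3 * (y ^ 3 - x ^ 3) + (y ^ 5 - x ^ 5) / 5 := by
  have h : (fun τ : ℝ => (1 - τ ^ 2) ^ 2) = fun τ => (1 - 2 * τ ^ 2) + τ ^ 4 := by
    funext τ; ring
  rw [h, intervalIntegral.integral_add (by apply Continuous.intervalIntegrable; fun_prop) (by
    apply Continuous.intervalIntegrable; fun_prop), intervalIntegral.integral_sub (by simp) (by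
    apply Continuous.intervalIntegrable; fun_prop), intervalIntegral.integral_const,
    intervalIntegral.integral_const_mul, integral_pow, integral_pow]
  simp only [smul_eq_mul]
  norm_num
  ring

theorem LP_cont (k : ℕ) : Continuous (LP k) := by
  match k with
  | 0 => exact continuous_const
  | 1 => exact continuous_id
  | 2 => exact (by fun_prop : Continuous fun τ : ℝ => (3 * τ ^ 2 - 1) / 2)
  | 3 => exact (by fun_prop : Continuous fun τ : ℝ => (5 * τ ^ 3 - 3 * τ) / 2)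
  | 4 => exact (by fun_prop : Continuous fun τ : ℝ => (35 * τ ^ 4 - 30 * τ ^ 2 + 3) / 8)
  | 5 => exact (by fun_prop : Continuous fun τ : ℝ => (63 * τ ^ 5 - 70 * τ ^ 3 + 15 * τ) / 8)
  | 6 => exact (by fun_prop : Continuous fun τ : ℝ =>
      (231 * τ ^ 6 - 315 * τ ^ 4 + 105 * τ ^ 2 - 5) / 16)
  | (n + 7) => exact continuous_const

theorem avg_main (F : E3 → ℝ) (hF : Adm F) (f : ℕ → E3 → ℝ) (hf : Dec F f)
    (a a' b' b R : ℝ) (h1 : -1 ≤ a) (h2 : a ≤ a') (h3 : a' ≤ b') (h4 : b' ≤ b) (h5 : b ≤ 1)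
    (h : ∀ g : E3 ≃ₗᵢ[ℝ] E3, Der (F ∘ g) a' b' - Var (F ∘ g) a b ≤ R) :
    (∫ τ in a'..b', (1 - τ ^ 2) / 2) * GG F -
      ∫ τ in a..b, (ff F - ∑ k ∈ Finset.range 7, LP k τ ^ 2 * ip (f k) (f k)) ≤ R := by
  obtain ⟨Γ, _, H, γ, hH⟩ := haar_exists
  have := hH.prob
  obtain ⟨i1, e1⟩ := avg_Der hH F hF a' b' (by linarith) h3 (by linarith)
  obtain ⟨i2, e2⟩ := avg_Var hH F (good_adm F hF) f hf a b h1 (by linarith) h5
  have key : ∫ g, (Der (F ∘ γ g) a' b' - Var (F ∘ γ g) a b) ∂H ≤ R := by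
    have h6 : ∫ g, (Der (F ∘ γ g) a' b' - Var (F ∘ γ g) a b) ∂H ≤ ∫ _g, R ∂H :=
      integral_mono (i1.sub i2) (integrable_const R) fun g => h (γ g)
    rw [integral_const, probReal_univ, one_smul] at h6
    exact h6
  rw [integral_sub i1 i2, e1] at key
  linarith

/-- the averaged inequality in numbers -/
theorem har_II {F : E3 → ℝ} (hF : Adm F) {f : ℕ → E3 → ℝ} (hf : Dec F f)
    (h0 : ip (f 0) (f 0) = 0) (r t : ℝ)
    (hr : r = ff F - ∑ k ∈ Finset.range 7, ip (f k) (f k)) (hr0 : 0 ≤ r)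
    (ht : t = GG F - (∑ k ∈ Finset.range 7, ((k:ℝ) * (k + 1)) * ip (f k) (f k)) - 56 * r)
    (ht0 : 0 ≤ t) (hG : 0 ≤ GG F)
    (hyp : ∀ g : E3 ≃ₗᵢ[ℝ] E3, Der (F ∘ g) (979 / 1000 + 1 / 10 ^ 12) (98 / 100 - 1 / 10 ^ 12) -
      Var (F ∘ g) (979 / 1000) (98 / 100) ≤
        1 / 2 * DD F * (∫ τ in (979 / 1000 : ℝ)..(98 / 100), (1 - τ ^ 2) ^ 2) +
          1 / 10 ^ 12 * (GG F + ff F)) :
    9 / 4 * ip (f 2) (f 2) + 10.99 * ip (f 3) (f 3) + 31.9 * ip (f 4) (f 4) +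
      71.7 * ip (f 5) (f 5) + 137 * ip (f 6) (f 6) + 69 * r + 12 * t ≤
        3 / 4 * (GG F - 2 * ff F) + 1 / 10 ^ 6 * (GG F + ff F) := by
  have h := avg_main F hF f hf (979 / 1000) (979 / 1000 + 1 / 10 ^ 12) (98 / 100 - 1 / 10 ^ 12)
    (98 / 100) _ (by norm_num) (by norm_num) (by norm_num) (by norm_num) (by norm_num) hyp
  have hGe : GG F = 2 * ip (f 1) (f 1) + 6 * ip (f 2) (f 2) + 12 * ip (f 3) (f 3) +
      20 * ip (f 4) (f 4) + 30 * ip (f 5) (f 5) + 42 * ip (f 6) (f 6) + 56 * r + t := by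
    rw [ht]
    simp only [Finset.sum_range_succ, Finset.sum_range_zero]
    push_cast
    ring
  have hfe : ff F = ip (f 1) (f 1) + ip (f 2) (f 2) + ip (f 3) (f 3) +
      ip (f 4) (f 4) + ip (f 5) (f 5) + ip (f 6) (f 6) + r := by
    rw [hr]
    simp only [Finset.sum_range_succ, Finset.sum_range_zero, h0]
    ring
  have hf0 := ff_nonneg F
  set T : ℝ := 9 / 4 * ip (f 2) (f 2) + 10.99 * ip (f 3) (f 3) + 31.9 * ip (f 4) (f 4) +
      71.7 * ip (f 5) (f 5) + 137 * ip (f 6) (f 6) + 69 * r + 12 * t with hT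
  have hLP := LP_cont
  have hcont : Continuous fun τ : ℝ => (1 - τ ^ 2) / 2 * GG F -
      (ff F - ∑ k ∈ Finset.range 7, LP k τ ^ 2 * ip (f k) (f k)) := by fun_prop
  have hcont2 : Continuous fun τ : ℝ =>
      (ff F - ∑ k ∈ Finset.range 7, LP k τ ^ 2 * ip (f k) (f k)) := by fun_prop
  have hcont3 : Continuous fun τ : ℝ => (1 - τ ^ 2) / 2 * GG F := by fun_prop
  have hcont4 : Continuous fun τ : ℝ => (1 - τ ^ 2) ^ 2 * T := by fun_prop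
  have key : (∫ τ in (979 / 1000 : ℝ)..(98 / 100), (1 - τ ^ 2) ^ 2 * T) ≤
      ∫ τ in (979 / 1000 : ℝ)..(98 / 100), ((1 - τ ^ 2) / 2 * GG F -
      (ff F - ∑ k ∈ Finset.range 7, LP k τ ^ 2 * ip (f k) (f k))) := by
    refine intervalIntegral.integral_mono_on (by norm_num) (hcont4.intervalIntegrable _ _)
      (hcont.intervalIntegrable _ _) fun τ hτ => ?_
    exact win τ hτ.1 hτ.2 (fun k => ip (f k) (f k)) (fun k => ip_self_nonneg _) r t (GG F) (ff F)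
      hr0 ht0 h0 hGe hfe
  rw [intervalIntegral.integral_sub (hcont3.intervalIntegrable _ _)
    (hcont2.intervalIntegrable _ _), intervalIntegral.integral_mul_const,
    intervalIntegral.integral_mul_const, int_s2] at key
  rw [int_s2] at h
  rw [int_s4] at h key
  have hDD : DD F = 3 / 2 * (GG F - 2 * ff F) := rfl
  rw [hDD] at h
  set J := ∫ τ in (979 / 1000 : ℝ)..(98 / 100),
    (ff F - ∑ k ∈ Finset.range 7, LP k τ ^ 2 * ip (f k) (f k)) with hJ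
  generalize GG F = G at *
  generalize ff F = f' at *
  clear_value T J
  norm_num at h key ⊢
  linarith

theorem har_III {F : E3 → ℝ} (hF : Adm F) {f : ℕ → E3 → ℝ} (hf : Dec F f)
    (hG : 0 ≤ GG F) (hGf : 0 ≤ GG F - 2 * ff F)
    (hyp : ∀ g : E3 ≃ₗᵢ[ℝ] E3, Der (F ∘ g) (-1 + 1 / 10 ^ 5 + 1 / 10 ^ 12)
      (1 - 1 / 10 ^ 5 - 1 / 10 ^ 12) - Var (F ∘ g) (-1 + 1 / 10 ^ 5) (1 - 1 / 10 ^ 5) ≤
        1 / 2 * DD F * (∫ τ in (-1 + 1 / 10 ^ 5 : ℝ)..(1 - 1 / 10 ^ 5), (1 - τ ^ 2) ^ 2) +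
          1 / 10 ^ 12 * (GG F + ff F)) (g : E3 ≃ₗᵢ[ℝ] E3) :
    AA 2 (e 2) (f 2 ∘ g) + AA 3 (e 2) (f 3 ∘ g) ≤
      2 / 5 * (GG F - 2 * ff F) + 3 / 10 ^ 5 * (GG F + ff F) := by
  have hGood := good_adm F hF
  have hadm := rot_adm F hF g
  obtain ⟨-, hff, hGG⟩ := rot_int F g
  have h1 := full_lower (hGood.comp g) (Dec_comp hGood hf g)
  have h2 := caps (F ∘ g) hadm (1 / 10 ^ 5 + 1 / 10 ^ 12) (by norm_num) (by norm_num)
  have h3 := var_mono (F ∘ g) (hGood.comp g) (-1 + 1 / 10 ^ 5) (1 - 1 / 10 ^ 5) (by norm_num)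
    (by norm_num) (by norm_num)
  have h4 := hyp g
  have hDD : DD F = 3 / 2 * (GG F - 2 * ff F) := rfl
  have hf0 := ff_nonneg F
  rw [int_s4, hDD] at h4
  rw [hGG] at h2
  have e1 : (-1 : ℝ) + (1 / 10 ^ 5 + 1 / 10 ^ 12) = -1 + 1 / 10 ^ 5 + 1 / 10 ^ 12 := by ring
  have e2 : (1 : ℝ) - (1 / 10 ^ 5 + 1 / 10 ^ 12) = 1 - 1 / 10 ^ 5 - 1 / 10 ^ 12 := by ring
  rw [e1, e2] at h2
  set S : ℝ := 1 - 1 / 10 ^ 5 - (-1 + 1 / 10 ^ 5) - 2 / 3 * ((1 - 1 / 10 ^ 5) ^ 3 -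
    (-1 + 1 / 10 ^ 5) ^ 3) + ((1 - 1 / 10 ^ 5) ^ 5 - (-1 + 1 / 10 ^ 5) ^ 5) / 5 with hS
  have hS1 : S ≤ 16 / 15 := by rw [hS]; norm_num
  have h5 : 1 / 2 * (3 / 2 * (GG F - 2 * ff F)) * S ≤ 1 / 2 * (3 / 2 * (GG F - 2 * ff F)) *
      (16 / 15) := mul_le_mul_of_nonneg_left hS1 (by positivity)
  clear_value S
  norm_num at h1 h2 h3 h4 ⊢
  linarith

/-- HARMONIC ANALYSIS half -/
theorem har_main : ∃ κ : ℝ, 0 < κ ∧ κ < 1 ∧ ∃ δ : ℝ, 0 < δ ∧ ∀ F : E3 → ℝ, Adm F →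
    ∫ x, F x ∂sig = 0 → (∀ i, |∫ x, F x * x i ∂sig| ≤ δ * √(ff F)) →
    (∀ (g : E3 ≃ₗᵢ[ℝ] E3) (a b : ℝ), -1 + κ ≤ a → a + 2 * δ ≤ b → b ≤ 1 - κ →
      Der (F ∘ g) (a + δ) (b - δ) - Var (F ∘ g) a b
        ≤ 1 / 2 * DD F * (∫ τ in a..b, (1 - τ ^ 2) ^ 2) + δ * (GG F + ff F)) →
    ff F = 0 := by
  refine ⟨1 / 10 ^ 5, by norm_num, by norm_num, 1 / 10 ^ 12, by norm_num, ?_⟩
  intro F hF h0 h1 hyp
  have hGood := good_adm F hF
  obtain ⟨f, hf⟩ := dec_exists F hGood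
  obtain ⟨ha0, ha1⟩ := low hGood hf h0 (1 / 10 ^ 12) (by norm_num) h1
  obtain ⟨hp1, hp2⟩ := poincare hF hf
  have hf0 := ff_nonneg F
  have hn := fun k => ip_self_nonneg (f k)
  obtain ⟨r, hr⟩ : ∃ r, r = ff F - ∑ k ∈ Finset.range 7, ip (f k) (f k) := ⟨_, rfl⟩
  obtain ⟨t, ht⟩ : ∃ t, t = GG F - (∑ k ∈ Finset.range 7, ((k:ℝ) * (k + 1)) * ip (f k) (f k)) -
    56 * r := ⟨_, rfl⟩
  have hr0 : 0 ≤ r := by rw [hr]; linarith
  have ht0 : 0 ≤ t := by rw [ht, hr]; linarith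
  have hGe : GG F = 2 * ip (f 1) (f 1) + 6 * ip (f 2) (f 2) + 12 * ip (f 3) (f 3) +
      20 * ip (f 4) (f 4) + 30 * ip (f 5) (f 5) + 42 * ip (f 6) (f 6) + 56 * r + t := by
    rw [ht]
    simp only [Finset.sum_range_succ, Finset.sum_range_zero]
    push_cast
    ring
  have hfe : ff F = ip (f 1) (f 1) + ip (f 2) (f 2) + ip (f 3) (f 3) +
      ip (f 4) (f 4) + ip (f 5) (f 5) + ip (f 6) (f 6) + r := by
    rw [hr]
    simp only [Finset.sum_range_succ, Finset.sum_range_zero, ha0]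
    ring
  have hG0 : 0 ≤ GG F := by rw [hGe]; linarith [hn 1, hn 2, hn 3, hn 4, hn 5, hn 6]
  have hGf : 0 ≤ GG F - 2 * ff F := by
    rw [hGe, hfe]; linarith [hn 1, hn 2, hn 3, hn 4, hn 5, hn 6]
  have hII := har_II hF hf ha0 r t hr hr0 ht ht0 hG0 (fun g => hyp g (979 / 1000) (98 / 100)
    (by norm_num) (by norm_num) (by norm_num))
  have hIII := har_III hF hf hG0 hGf (fun g => hyp g (-1 + 1 / 10 ^ 5) (1 - 1 / 10 ^ 5)
    (by norm_num) (by norm_num) (by norm_num))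
  have hA3 : ∀ g : E3 ≃ₗᵢ[ℝ] E3, 0 ≤ AA 3 (e 2) (f 3 ∘ g) := fun g =>
    AA3_nonneg (HH_comp (hf.hh 3) g)
  rcases axes (hf.hh 2) (hf.hh 3) with ⟨g, hg⟩ | ⟨g, hg2, hg3⟩
  · have h3 := hIII g
    have h4 := hA3 g
    generalize AA 2 (e 2) (f 2 ∘ g) = A2 at *
    generalize AA 3 (e 2) (f 3 ∘ g) = A3 at *
    have n1 := hn 1
    have n2 := hn 2
    have n3 := hn 3
    have n4 := hn 4
    have n5 := hn 5
    have n6 := hn 6
    generalize ip (f 1) (f 1) = a1 at *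
    generalize ip (f 2) (f 2) = a2 at *
    generalize ip (f 3) (f 3) = a3 at *
    generalize ip (f 4) (f 4) = a4 at *
    generalize ip (f 5) (f 5) = a5 at *
    generalize ip (f 6) (f 6) = a6 at *
    refine le_antisymm ?_ hf0
    norm_num at hII h3 ha1 hg ⊢
    rw [hGe] at hII h3
    clear hGe hG0 hGf hp1 ht
    rw [hfe] at hII h3 ha1 ⊢
    linarith
  · have h30 := hIII (g 0)
    have h31 := hIII (g 1)
    have h32 := hIII (g 2)
    rw [Fin.sum_univ_three] at hg2 hg3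
    generalize AA 2 (e 2) (f 2 ∘ g 0) = A20 at *
    generalize AA 2 (e 2) (f 2 ∘ g 1) = A21 at *
    generalize AA 2 (e 2) (f 2 ∘ g 2) = A22 at *
    generalize AA 3 (e 2) (f 3 ∘ g 0) = A30 at *
    generalize AA 3 (e 2) (f 3 ∘ g 1) = A31 at *
    generalize AA 3 (e 2) (f 3 ∘ g 2) = A32 at *
    have n1 := hn 1
    have n2 := hn 2
    have n3 := hn 3
    have n4 := hn 4
    have n5 := hn 5
    have n6 := hn 6
    generalize ip (f 1) (f 1) = a1 at *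
    generalize ip (f 2) (f 2) = a2 at *
    generalize ip (f 3) (f 3) = a3 at *
    generalize ip (f 4) (f 4) = a4 at *
    generalize ip (f 5) (f 5) = a5 at *
    generalize ip (f 6) (f 6) = a6 at *
    refine le_antisymm ?_ hf0
    norm_num at hII h30 h31 h32 ha1 hg2 hg3 ⊢
    rw [hGe] at hII h30 h31 h32
    clear hGe hG0 hGf hp1 ht
    rw [hfe] at hII h30 h31 h32 ha1 ⊢
    linarith

end STH
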