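import Pool.Agent.Lib_helper59.STH.Defs
import Pool.Agent.Lib_helper59.STHF.momA
import Pool.Agent.Lib_helper59.STHF.valg
import Pool.Agent.Lib_helper15.STE.B.sigA

/-! # STH, block q3A (helper97) -/

open MeasureTheory Filter Topology
open Pool.Agent.Lib_helper15.STE

namespace STH

/-- exponents of the ten cubic monomials -/
def q3A_E : Fin 10 → ℕ × ℕ × ℕ :=
  ![(3, 0, 0), (2, 1, 0), (2, 0, 1), (1, 2, 0), (1, 1, 1), (1, 0, 2), (0, 3, 0), (0, 2, 1),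
    (0, 1, 2), (0, 0, 3)]

/-- the moment table (times 105) -/
def q3A_T (i j : Fin 10) : ℕ :=
  if Even ((q3A_E i).1 + (q3A_E j).1) ∧ Even ((q3A_E i).2.1 + (q3A_E j).2.1) ∧
    Even ((q3A_E i).2.2 + (q3A_E j).2.2) then
  (((q3A_E i).1 + (q3A_E j).1) - 1).doubleFactorial *
    (((q3A_E i).2.1 + (q3A_E j).2.1) - 1).doubleFactorial *
    (((q3A_E i).2.2 + (q3A_E j).2.2) - 1).doubleFactorial else 0

/-- cubic forms -/
def q3A_P (a : Fin 10 → ℝ) (x : E3) : ℝ :=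
  ∑ i, a i * mon (q3A_E i).1 (q3A_E i).2.1 (q3A_E i).2.2 x

theorem q3A_deg (i : Fin 10) : (q3A_E i).1 + (q3A_E i).2.1 + (q3A_E i).2.2 = 3 := by
  fin_cases i <;> rfl

theorem q3A_mon_mul (i j k i' j' k' : ℕ) (x : E3) :
    mon i j k x * mon i' j' k' x = mon (i + i') (j + j') (k + k') x := by
  unfold mon
  ring

theorem q3A_mon_cont (i j k : ℕ) : Continuous (mon i j k) := by
  unfold mon
  fun_prop

theorem q3A_mon_int (i j k : ℕ) : Integrable (mon i j k) sig := by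
  have := sigA_prob
  refine Integrable.of_bound (q3A_mon_cont i j k).aestronglyMeasurable 1 ?_
  filter_upwards [sigA_sphere] with x hx
  have h : ∀ l : Fin 3, |x l| ≤ 1 := fun l => by
    have h1 := EuclideanSpace.norm_sq_eq x
    have h2 : ‖x l‖ ^ 2 ≤ ∑ i, ‖x i‖ ^ 2 :=
      Finset.single_le_sum (f := fun i => ‖x i‖ ^ 2) (fun i _ => sq_nonneg _) (Finset.mem_univ l)
    rw [← h1, hx, Real.norm_eq_abs] at h2
    nlinarith [abs_nonneg (x l)]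
  unfold mon
  rw [Real.norm_eq_abs, abs_mul, abs_mul, abs_pow, abs_pow, abs_pow]
  have a0 := pow_le_one₀ (n := i) (abs_nonneg (x 0)) (h 0)
  have a1 := pow_le_one₀ (n := j) (abs_nonneg (x 1)) (h 1)
  have a2 := pow_le_one₀ (n := k) (abs_nonneg (x 2)) (h 2)
  have b0 := pow_nonneg (abs_nonneg (x 0)) i
  have b1 := pow_nonneg (abs_nonneg (x 1)) j
  have b2 := pow_nonneg (abs_nonneg (x 2)) k
  have := mul_le_one₀ a0 b1 a1
  exact mul_le_one₀ this b2 a2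

theorem q3A_ip (a : Fin 10 → ℝ) :
    ip (q3A_P a) (q3A_P a) = ∑ i, ∑ j, a i * a j * ((q3A_T i j : ℝ) / 105) := by
  unfold ip
  have h1 : ∀ x, q3A_P a x * q3A_P a x = ∑ i, ∑ j, a i * a j *
      mon ((q3A_E i).1 + (q3A_E j).1) ((q3A_E i).2.1 + (q3A_E j).2.1)
        ((q3A_E i).2.2 + (q3A_E j).2.2) x := fun x => by
    unfold q3A_P
    rw [Finset.sum_mul_sum]
    refine Finset.sum_congr rfl fun i _ => Finset.sum_congr rfl fun j _ => ?_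
    rw [← q3A_mon_mul]
    ring
  simp only [h1]
  rw [integral_finsetSum _ fun i _ => integrable_finsetSum _ fun j _ =>
    (q3A_mon_int _ _ _).const_mul _]
  refine Finset.sum_congr rfl fun i _ => ?_
  rw [integral_finsetSum _ fun j _ => (q3A_mon_int _ _ _).const_mul _]
  refine Finset.sum_congr rfl fun j _ => ?_
  rw [integral_const_mul]
  congr 1
  have hi := q3A_deg i
  have hj := q3A_deg j
  rw [mom _ _ _ (by omega)]
  have h6 : (q3A_E i).1 + (q3A_E j).1 + ((q3A_E i).2.1 + (q3A_E j).2.1) +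
      ((q3A_E i).2.2 + (q3A_E j).2.2) + 1 = 7 := by omega
  rw [h6]
  have h7 : ((7 : ℕ).doubleFactorial : ℝ) = 105 := by
    norm_num [Nat.doubleFactorial]
  rw [h7]
  unfold q3A_T
  split_ifs
  · push_cast
    ring
  · simp

theorem q3A_table (i j : Fin 10) : q3A_T i j = (![![15, 0, 0, 3, 0, 3, 0, 0, 0, 0],
    ![0, 3, 0, 0, 0, 0, 3, 0, 1, 0],
    ![0, 0, 3, 0, 0, 0, 0, 1, 0, 3],
    ![3, 0, 0, 3, 0, 1, 0, 0, 0, 0],
    ![0, 0, 0, 0, 1, 0, 0, 0, 0, 0],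
    ![3, 0, 0, 1, 0, 3, 0, 0, 0, 0],
    ![0, 3, 0, 0, 0, 0, 15, 0, 3, 0],
    ![0, 0, 1, 0, 0, 0, 0, 3, 0, 3],
    ![0, 1, 0, 0, 0, 0, 3, 0, 3, 0],
    ![0, 0, 3, 0, 0, 0, 0, 3, 0, 15]] : Fin 10 → Fin 10 → ℕ) i j := by
  revert i j
  decide

theorem q3A_form (a : Fin 10 → ℝ) : ip (q3A_P a) (q3A_P a) =
    (15 * a 0 ^ 2 + 3 * a 1 ^ 2 + 3 * a 2 ^ 2 + 3 * a 3 ^ 2 + a 4 ^ 2 + 3 * a 5 ^ 2 +
      15 * a 6 ^ 2 + 3 * a 7 ^ 2 + 3 * a 8 ^ 2 + 15 * a 9 ^ 2 +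
      2 * (3 * a 0 * a 3 + 3 * a 0 * a 5 + a 3 * a 5 + 3 * a 1 * a 6 + a 1 * a 8 +
        3 * a 6 * a 8 + a 2 * a 7 + 3 * a 2 * a 9 + 3 * a 7 * a 9)) / 105 := by
  rw [q3A_ip]
  simp only [q3A_table]
  simp [Fin.sum_univ_succ]
  ring

theorem q3A_fderiv (c : Fin 7 → ℝ) (h : c 6 = 0) (x v : E3) : fderiv ℝ (Q3 c) x v =
    (c 0 * (-6 * x 0 * x 2) + c 1 * (4 * x 2 ^ 2 - 3 * x 0 ^ 2 - x 1 ^ 2) +
      c 2 * (-2 * x 0 * x 1) + c 3 * (2 * x 0 * x 2) + c 4 * (x 1 * x 2) +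
      c 5 * (3 * x 0 ^ 2 - 3 * x 1 ^ 2)) * v 0 +
    (c 0 * (-6 * x 1 * x 2) + c 1 * (-2 * x 0 * x 1) + c 2 * (4 * x 2 ^ 2 - x 0 ^ 2 -
      3 * x 1 ^ 2) + c 3 * (-2 * x 1 * x 2) + c 4 * (x 0 * x 2) + c 5 * (-6 * x 0 * x 1)) * v 1 +
    (c 0 * (6 * x 2 ^ 2 - 3 * x 0 ^ 2 - 3 * x 1 ^ 2) + c 1 * (8 * x 0 * x 2) +
      c 2 * (8 * x 1 * x 2) + c 3 * (x 0 ^ 2 - x 1 ^ 2) + c 4 * (x 0 * x 1)) * v 2 := by
  have hc : ∀ i : Fin 3, HasFDerivAt (fun y : E3 => y i)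
      (EuclideanSpace.proj i : E3 →L[ℝ] ℝ) x := fun i =>
    (EuclideanSpace.proj i : E3 →L[ℝ] ℝ).hasFDerivAt
  have t0 := ((hc 2).mul ((((hc 2).pow 2).const_mul 2).sub (((hc 0).pow 2).const_mul 3) |>.sub
    (((hc 1).pow 2).const_mul 3))).const_mul (c 0)
  have t1 := ((hc 0).mul ((((hc 2).pow 2).const_mul 4).sub ((hc 0).pow 2) |>.sub
    ((hc 1).pow 2))).const_mul (c 1)
  have t2 := ((hc 1).mul ((((hc 2).pow 2).const_mul 4).sub ((hc 0).pow 2) |>.sub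
    ((hc 1).pow 2))).const_mul (c 2)
  have t3 := ((hc 2).mul (((hc 0).pow 2).sub ((hc 1).pow 2))).const_mul (c 3)
  have t4 := (((hc 0).mul (hc 1)).mul (hc 2)).const_mul (c 4)
  have t5 := (((hc 0).pow 3).sub (((hc 0).const_mul 3).mul ((hc 1).pow 2))).const_mul (c 5)
  have t6 := (((((hc 0).pow 2).const_mul 3).mul (hc 1)).sub ((hc 1).pow 3)).const_mul (c 6)
  have H : HasFDerivAt (Q3 c) _ x := (((((t0.add t1).add t2).add t3).add t4).add t5).add t6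
  rw [H.fderiv]
  simp [h]
  ring

/-- coefficients of the cubic form -/
def q3A_a (c : Fin 7 → ℝ) : Fin 10 → ℝ :=
  ![-c 1 + c 5, -c 2, -3 * c 0 + c 3, -c 1 - 3 * c 5, c 4, 4 * c 1, -c 2, -3 * c 0 - c 3,
    4 * c 2, 2 * c 0]

/-- coefficients of its derivative under rotation about a horizontal axis -/
def q3A_b (c : Fin 7 → ℝ) (co s : ℝ) : Fin 10 → ℝ :=
  ![s * (3 * c 0 - c 3), co * (-3 * c 0 + c 3) - s * c 4, co * c 2 + s * (-11 * c 1 + 3 * c 5),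
    co * c 4 + s * (3 * c 0 + c 3), co * (10 * c 1 + 6 * c 5) - s * (10 * c 2),
    -co * c 4 + s * (-12 * c 0 + 2 * c 3), co * (-3 * c 0 - c 3),
    co * (11 * c 2) + s * (-c 1 - 3 * c 5), co * (12 * c 0 + 2 * c 3) + s * c 4,
    -co * (4 * c 2) + s * (4 * c 1)]

theorem q3A_Q (c : Fin 7 → ℝ) (h : c 6 = 0) : Q3 c = q3A_P (q3A_a c) := by
  funext x
  unfold Q3 q3A_P q3A_a q3A_E mon
  simp [Fin.sum_univ_succ, h]
  ring

theorem q3A_X (c : Fin 7 → ℝ) (h : c 6 = 0) (ν : E3) (h2 : ν 2 = 0) :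
    XX ν (Q3 c) = q3A_P (q3A_b c (ν 0) (ν 1)) := by
  funext x
  unfold XX
  rw [q3A_fderiv c h]
  unfold cr q3A_P q3A_b q3A_E mon
  simp [Fin.sum_univ_succ, h2]
  ring

theorem Q3_three (c : Fin 7 → ℝ) (h : c 6 = 0) :
    27 / 8 * ip (Q3 c) (Q3 c) ≤ ∑ k, AA 3 (ax k) (Q3 c) := by
  have e1 : Real.cos (2 * (Real.pi / 3)) = -1 / 2 := by
    rw [Real.cos_two_mul, Real.cos_pi_div_three]
    norm_num
  have e2 : Real.sin (2 * (Real.pi / 3)) = √3 / 2 := by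
    rw [Real.sin_two_mul, Real.cos_pi_div_three, Real.sin_pi_div_three]
    ring
  have hr : √3 ^ 2 = 3 := Real.sq_sqrt (by norm_num)
  have hz : ∀ k, ax k 2 = 0 := fun k => by simp [ax]
  have a0 : ax 0 0 = 1 ∧ ax 0 1 = 0 := by simp [ax]
  have a1 : ax 1 0 = 1 / 2 ∧ ax 1 1 = √3 / 2 := by
    simp [ax, Real.cos_pi_div_three, Real.sin_pi_div_three]
  have a2 : ax 2 0 = -1 / 2 ∧ ax 2 1 = √3 / 2 := by
    constructor
    · rw [← e1]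
      simp [ax]
    · rw [← e2]
      simp [ax]
  unfold AA
  simp only [q3A_X c h _ (hz _)]
  rw [Fin.sum_univ_three, a0.1, a0.2, a1.1, a1.2, a2.1, a2.2]
  have v0 : Q3 c (ax 0) = -c 1 + c 5 := by
    unfold Q3
    rw [hz, a0.1, a0.2, h]
    ring
  have v1 : Q3 c (ax 1) = -c 1 / 2 - √3 / 2 * c 2 - c 5 := by
    unfold Q3
    rw [hz, a1.1, a1.2, h]
    linear_combination (-c 1 / 8 - √3 / 8 * c 2 - 3 / 8 * c 5) * hr
  have v2 : Q3 c (ax 2) = c 1 / 2 - √3 / 2 * c 2 + c 5 := by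
    unfold Q3
    rw [hz, a2.1, a2.2, h]
    linear_combination (c 1 / 8 - √3 / 8 * c 2 + 3 / 8 * c 5) * hr
  rw [v0, v1, v2, q3A_Q c h, q3A_form, q3A_form, q3A_form, q3A_form]
  simp [q3A_a, q3A_b]
  generalize √3 = r at hr ⊢
  ring_nf
  simp only [hr]
  nlinarith [sq_nonneg (c 0), sq_nonneg (c 1), sq_nonneg (c 2), sq_nonneg (c 3),
    sq_nonneg (c 4), sq_nonneg (c 5)]

end STH
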